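import Pool.Agent.MP_ee8c61_ag.M3C.SpecB

/-!
The algebraic closure of a field in a finitely generated extension is finite.
-/

set_option autoImplicit false

open scoped IntermediateField IntermediateField.algebraAdjoinAdjoin

namespace Pool.Agent.MP_ee8c61_ag.M3C

namespace RACF

theorem li_adjoin {E L σ ι : Type} [Field E] [Field L] [Algebra E L] {x : σ → L}
    (hx : AlgebraicIndependent E x) {a : ι → algebraicClosure E L} (ha : LinearIndependent E a) :
    LinearIndependent (Algebra.adjoin E (Set.range x)) fun i => (a i : L) := by
  classical
  rw [linearIndependent_iff'] at ha ⊢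
  intro s g hg i hi
  have hp : ∀ j, ∃ p : MvPolynomial σ E, MvPolynomial.aeval x p = (g j : L) := fun j => by
    exact (Algebra.adjoin_range_eq_range_aeval E x).le (g j).2
  choose p hp using hp
  have hP : (∑ j ∈ s, MvPolynomial.C (a j) *
      MvPolynomial.map (algebraMap E (algebraicClosure E L)) (p j)) = 0 := by
    apply (algebraicIndependent_iff.1 hx.algebraicClosure)
    rw [map_sum, ← hg]
    refine Finset.sum_congr rfl fun j _ => ?_
    rw [map_mul, MvPolynomial.aeval_C, MvPolynomial.aeval_map_algebraMap, hp, mul_comm]
    rfl
  have hc : p i = 0 := by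
    ext m
    refine ha s (fun j => (p j).coeff m) ?_ i hi
    have h := congrArg (MvPolynomial.coeff m) hP
    rw [MvPolynomial.coeff_sum, MvPolynomial.coeff_zero] at h
    rw [← h]
    refine Finset.sum_congr rfl fun j _ => ?_
    rw [MvPolynomial.coeff_C_mul, MvPolynomial.coeff_map, Algebra.smul_def, mul_comm]
  apply Subtype.ext
  rw [← hp, hc, map_zero]
  rfl

end RACF

theorem rowACF : StmtACF := by
  intro E L _ _ _ _
  obtain ⟨s, hs⟩ := exists_isTranscendenceBasis E L
  set x : s → L := Subtype.val with hx
  have : Algebra.IsAlgebraic (IntermediateField.adjoin E (Set.range x)) L :=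
    hs.isAlgebraic_field
  have : Algebra.EssFiniteType (IntermediateField.adjoin E (Set.range x)) L :=
    Algebra.EssFiniteType.of_comp E _ _
  have : Module.Finite (IntermediateField.adjoin E (Set.range x)) L :=
    Algebra.finite_of_essFiniteType_of_isAlgebraic
  have hb := (Module.Free.chooseBasis E (algebraicClosure E L)).linearIndependent
  have h1 := (LinearIndependent.iff_fractionRing (Algebra.adjoin E (Set.range x))
    (IntermediateField.adjoin E (Set.range x))).1 (RACF.li_adjoin hs.1 hb)
  have := h1.finite
  exact Module.Finite.of_basis (Module.Free.chooseBasis E (algebraicClosure E L))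

end Pool.Agent.MP_ee8c61_ag.M3C
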