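import Pool.Agent.MP_ee8c61_ag.M3C.RG0

/-!
The adjunction formula for a smooth curve on a smooth projective surface.
-/

set_option autoImplicit false

namespace Pool.Agent.MP_ee8c61_ag.M3C

open Pool.Agent.MP_96693b_ag.RS Pool.Agent.MP_cce4c9_lc.H87 Pool.Agent.MP_ee8c61_ag.M3S
  Pool.Agent.MP_cce4c9_lc WithZero Finsupp Module G0

namespace RADJ

variable {K : Type} [Field K] [Algebra ℂ K]

/-- A derivation that preserves the valuation ring and its maximal ideal descends to the residue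
field. -/
theorem descend (v : Place ℂ K) (δ : Der K) (h1 : ∀ f, v.val f ≤ 1 → v.val (δ f) ≤ 1)
    (h2 : ∀ f, v.val f < 1 → v.val (δ f) < 1) :
    ∃ d : Derivation ℂ (Rf v) (Rf v), ∀ f, v.val f ≤ 1 → d (M3S.res v f) = M3S.res v (δ f) := by
  choose σ hσ eσ using res_surj (v := v)
  have key : ∀ f, v.val f ≤ 1 → M3S.res v (δ (σ (M3S.res v f))) = M3S.res v (δ f) := by
    intro f hf
    have h3 : v.val (σ (M3S.res v f) - f) ≤ 1 := (v.val.map_sub _ _).trans (max_le (hσ _) hf)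
    have h4 := h2 _ ((res_eq_zero h3).1 (by rw [res_sub (hσ _) hf, eσ, sub_self]))
    rw [← res_eq_zero h4.le, map_sub, res_sub (h1 _ (hσ _)) (h1 f hf), sub_eq_zero] at h4
    exact h4
  have mul : ∀ {a b : K}, v.val a ≤ 1 → v.val b ≤ 1 → v.val (a * b) ≤ 1 := fun ha hb => by
    rw [map_mul]; exact mul_le_one' ha hb
  refine ⟨Derivation.mk' ⟨⟨fun s => M3S.res v (δ (σ s)), fun a b => ?_⟩, fun c a => ?_⟩
    fun a b => ?_, key⟩
  · rw [← res_add (h1 _ (hσ a)) (h1 _ (hσ b)), ← map_add,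
      ← key _ ((v.val.map_add _ _).trans (max_le (hσ a) (hσ b))), res_add (hσ a) (hσ b), eσ, eσ]
  · have h3 := key _ (mul (v.const_le c) (hσ a))
    rw [res_mul (v.const_le c) (hσ a), res_const, eσ, ← Algebra.smul_def, ← Algebra.smul_def,
      δ.map_smul, Algebra.smul_def c (δ _), res_mul (v.const_le c) (h1 _ (hσ a)), res_const,
      ← Algebra.smul_def] at h3
    exact h3
  · have h3 := key _ (mul (hσ a) (hσ b))
    rw [res_mul (hσ a) (hσ b), eσ, eσ, δ.leibniz, smul_eq_mul, smul_eq_mul,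
      res_add (mul (hσ a) (h1 _ (hσ b))) (mul (hσ b) (h1 _ (hσ a))),
      res_mul (hσ a) (h1 _ (hσ b)), res_mul (hσ b) (h1 _ (hσ a)), eσ, eσ] at h3
    exact h3

variable {M : Model K 2} {C : Crv M} {p p' : M.P} {κ κ' : Chart K 2}

theorem jac_chain (hκ : IsCrd (M.loc p) κ) (κ' : Chart K 2) (r : Fin 2 → K) :
    jac κ' r = jac κ' κ.x * jac κ r := by
  simp only [jac]
  rw [der_eq hκ (κ'.D 0) (r 0), der_eq hκ (κ'.D 0) (r 1), der_eq hκ (κ'.D 1) (r 0),
    der_eq hκ (κ'.D 1) (r 1)]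
  simp only [Fin.sum_univ_two]
  ring

theorem pres (B : Bas M) (hp : On C p) (hκ : IsCrd (M.loc p) κ) (i : Fin 2) {f : K}
    (hf : C.1.val f ≤ 1) : C.1.val (κ.D i f) ≤ 1 := by
  obtain ⟨a, ha, b, hb, h1, e⟩ := B.frac C p hp f hf
  have h2 := congrArg (κ.D i) e
  rw [Derivation.leibniz, smul_eq_mul, smul_eq_mul] at h2
  have h3 : b * κ.D i f = κ.D i a - f * κ.D i b := by rw [← h2]; ring
  have h4 := congrArg C.1.val h3
  rw [map_mul, h1, one_mul] at h4
  rw [h4]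
  refine (C.1.val.map_sub _ _).trans (max_le (hp _ (hκ.pres i a ha)) ?_)
  rw [map_mul]
  exact mul_le_one' hf (hp _ (hκ.pres i b hb))

/-- The Jacobian of a uniformizer and a regular function, modulo the maximal ideal. -/
theorem jac_res (B : Bas M) (hp : On C p) (hκ : IsCrd (M.loc p) κ) (h0 : Eqn (pr C) p (κ.x 0))
    {π g : K} (hπ : C.1.val π = exp (-1 : ℤ)) (hg : C.1.val g ≤ 1) :
    C.1.val (jac κ ![π, g] * (κ.x 0 / π) - κ.D 1 g) < 1 := by
  have hx := val_x0 hp h0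
  have x0 := hκ.x_ne_zero 0
  have π0 : π ≠ 0 := fun e => by
    rw [e, map_zero] at hπ
    exact exp_ne_zero hπ.symm
  have he : C.1.val (π / κ.x 0) = 1 := by rw [map_div₀, hπ, hx, div_self exp_ne_zero]
  have he' : C.1.val (κ.x 0 / π) = 1 := by rw [map_div₀, hπ, hx, div_self exp_ne_zero]
  obtain ⟨e, rfl⟩ : ∃ e, π = κ.x 0 * e := ⟨π / κ.x 0, by field_simp⟩
  have e0 : e ≠ 0 := right_ne_zero_of_mul π0
  rw [mul_div_cancel_left₀ _ x0] at he
  have h1 : jac κ ![κ.x 0 * e, g] * (κ.x 0 / (κ.x 0 * e)) - κ.D 1 g =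
      κ.x 0 * (e⁻¹ * (κ.D 0 e * κ.D 1 g - κ.D 0 g * κ.D 1 e)) := by
    simp only [jac, Matrix.cons_val_zero, Matrix.cons_val_one, Derivation.leibniz, smul_eq_mul,
      hκ.dual, if_pos, show ((1 : Fin 2) = 0) = False by simp, if_false]
    field_simp
    ring
  rw [h1, map_mul, map_mul, map_inv₀, he, inv_one, one_mul, hx]
  refine (mul_le_of_le_one_right' ((C.1.val.map_sub _ _).trans (max_le ?_ ?_))).trans_lt
    (by rw [← exp_zero, exp_lt_exp]; omega)
  · rw [map_mul]; exact mul_le_one' (pres B hp hκ 0 he.le) (pres B hp hκ 1 hg)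
  · rw [map_mul]; exact mul_le_one' (pres B hp hκ 0 hg) (pres B hp hκ 1 he.le)

end RADJ

open RADJ in
theorem rowADJ (hL : StmtLoc) (hD : StmtDUAL) : StmtADJ := by
  intro K _ _ M B r W hW hK C hC g hg
  have hI : IsInt (W + pr C) := fun C' => by
    obtain ⟨n, hn⟩ := hW C'
    by_cases e : C' = C
    · exact ⟨n + 1, by rw [Finsupp.add_apply, hn, e, single_eq_same]; push_cast; rfl⟩
    · exact ⟨n, by rw [Finsupp.add_apply, hn, single_eq_of_ne e, add_zero]⟩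
  obtain ⟨h, hh⟩ := exists_mv hI C
  obtain ⟨R, hR, hd⟩ := B.deg _ C h hI hh
  have hE : ∀ p κ, IsCrd (M.loc p) κ → Eqn (pr C) p (κ.x 0) →
      Eqn (W + pr C) p (jac κ r * κ.x 0) := fun p κ hκ h0 =>
    ⟨mul_ne_zero (hK p κ hκ).1 h0.1, fun C' hC' => by
      rw [C'.1.ord_mul (C'.1.val_ne (hK p κ hκ).1) (C'.1.val_ne h0.1), Finsupp.add_apply,
        ← (hK p κ hκ).2 C' hC', ← h0.2 C' hC']
      push_cast
      rfl⟩
  obtain ⟨p0, hp0, -⟩ := C.2
  obtain ⟨κ0, hκ0, -⟩ := hC p0 hp0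
  set π := unif C.1
  have hπ : C.1.val π = exp (-1 : ℤ) := val_unif C.1
  have π0 : π ≠ 0 := fun e => by
    rw [e, map_zero] at hπ
    exact exp_ne_zero hπ.symm
  set δ : Der K := (jac κ0 r * π * h)⁻¹ • (κ0.D 0 π • κ0.D 1 - κ0.D 1 π • κ0.D 0) with hδ
  have loc : ∀ p κ, On C p → IsCrd (M.loc p) κ → Eqn (pr C) p (κ.x 0) → ∀ f, C.1.val f ≤ 1 →
      C.1.val (δ f * (jac κ r * κ.x 0 * h) - κ.D 1 f) < 1 := fun p κ hp hκ h0 f hf => by
    have h1 := jac_res B hp hκ h0 hπ hf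
    have h2 : δ f = (jac κ0 r * π * h)⁻¹ * jac κ0 ![π, f] := by
      simp only [hδ, jac, Derivation.smul_apply, Derivation.sub_apply, smul_eq_mul,
        Matrix.cons_val_zero, Matrix.cons_val_one]
      ring
    have h3 := (hK p0 κ0 hκ0).1
    rw [jac_chain hκ κ0 r] at h3
    have h4 : δ f * (jac κ r * κ.x 0 * h) = jac κ ![π, f] * (κ.x 0 / π) := by
      rw [h2, jac_chain hκ κ0 r, jac_chain hκ κ0 ![π, f]]
      have := left_ne_zero_of_mul h3
      have := right_ne_zero_of_mul h3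
      have := hh.1
      field_simp
    rwa [h4]
  obtain ⟨κ1, hκ1, h01⟩ := hC p0 hp0
  have u1 := val_mv hp0 (hE p0 κ1 hκ1 h01) hh
  have le1 : ∀ f, C.1.val f ≤ 1 → C.1.val (δ f) ≤ 1 := fun f hf => by
    have h1 := C.1.val.map_add (δ f * (jac κ1 r * κ1.x 0 * h) - κ1.D 1 f) (κ1.D 1 f)
    rw [sub_add_cancel, map_mul, u1, mul_one] at h1
    exact h1.trans (max_le (loc p0 κ1 hp0 hκ1 h01 f hf).le (pres B hp0 hκ1 1 hf))
  have dπ : δ π = 0 := by
    simp only [hδ, Derivation.smul_apply, Derivation.sub_apply, smul_eq_mul]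
    ring
  obtain ⟨d, hd'⟩ := descend C.1 δ le1 fun f hf => by
    have h1 : C.1.val (f / π) ≤ 1 := by
      rw [map_div₀, hπ, div_le_one₀ (zero_lt_iff.2 exp_ne_zero)]
      exact H51.lt_exp_succ (by simpa using hf)
    rw [show f = π * (f / π) by field_simp, δ.leibniz, dπ, smul_zero, add_zero, smul_eq_mul,
      map_mul, hπ]
    exact (mul_le_of_le_one_right' (le1 _ h1)).trans_lt (by rw [← exp_zero, exp_lt_exp]; omega)
  have one : ∀ p κ, On C p → IsCrd (M.loc p) κ → Eqn (pr C) p (κ.x 0) →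
      d (M3S.res C.1 (κ.x 1)) * M3S.res C.1 (jac κ r * κ.x 0 * h) = 1 := fun p κ hp hκ h0 => by
    have h1 := hp _ (hκ.x_mem 1)
    have h2 := loc p κ hp hκ h0 _ h1
    have h3 := val_mv hp (hE p κ hκ h0) hh
    have h4 : C.1.val (δ (κ.x 1) * (jac κ r * κ.x 0 * h)) ≤ 1 := by
      rw [map_mul, h3, mul_one]; exact le1 _ h1
    rw [hκ.dual, if_pos rfl] at h2
    rw [← res_eq_zero h2.le, res_sub h4 (by simp), res_one, sub_eq_zero,
      res_mul (le1 _ h1) h3.le] at h2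
    rwa [hd' _ h1]
  have d0 : d ≠ 0 := fun e => by simpa [e] using one p0 κ1 hp0 hκ1 h01
  obtain ⟨h1, h2, -⟩ := hD ℂ (Rf C.1) (B.ff C) d d0 g hg
  have hRc : R = can d := by
    ext y
    obtain ⟨p, hp⟩ := B.ctr C y
    obtain ⟨κ, hκ, h0⟩ := hC p hp.1
    have h3 := congrArg y.val (one p κ hp.1 hκ h0)
    rw [map_mul, map_one, (hL ℂ (Rf C.1) (B.ff C) d d0 y).uni _ (sm_unif B hp hκ h0),
      y.val_eq (y.val_ne (res_ne (val_mv hp.1 (hE p κ hκ h0) hh))), ← exp_add] at h3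
    have h4 := exp_inj.1 (h3.trans exp_zero.symm)
    rw [h1, hR y p _ hp (hE p κ hκ h0)]
    omega
  rw [← hd, hRc, h2]
  push_cast
  rfl

end Pool.Agent.MP_ee8c61_ag.M3C
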