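import Pool.Agent.MP_ee8c61_ag.M3C.Spec

/-! Row Apx: polar parts can be prescribed at finitely many places. -/

set_option autoImplicit false

open WithZero Finsupp Module

namespace Pool.Agent.MP_ee8c61_ag.M3C

open Pool.Agent.MP_cce4c9_lc Pool.Agent.MP_cce4c9_lc.H87

namespace RApx

variable {k K : Type} [Field k] [Field K] [Algebra k K]

theorem bound (y : Place k K) (a : K) : ∃ m : ℤ, 0 < m ∧ y.val a ≤ exp m := by
  by_cases h : y.val a = 0
  · exact ⟨1, one_pos, by simp [h]⟩
  · exact ⟨max 1 (-y.ord a), by omega, (y.val_le_exp h _).2 (by omega)⟩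

theorem one [IsAlgClosed k] (hK : IsFF k K) (P y : Place k K) (hy : y ≠ P) (a : K) :
    ∃ b : K, y.val (b - a) ≤ 1 ∧ ∀ v : Place k K, v ≠ P → v ≠ y → v.val b ≤ 1 := by
  classical
  obtain ⟨g, hg⟩ := H7.genus hK
  obtain ⟨m, hm, ha⟩ := bound y a
  have hE : ∀ v : Place k K, (single y m : Dv k K) v ≠ 0 → v = y := fun v hv => by
    by_contra h
    exact hv (single_eq_of_ne h)
  have hD : (single y m + single P (2 * (g : ℤ)) : Dv k K) y = m := by
    rw [Finsupp.add_apply, single_eq_same, single_eq_of_ne hy, add_zero]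
  obtain ⟨b, hb, h⟩ := (H7.gen k K hK).2 g hg (single y m + single P (2 * (g : ℤ))) (single y m)
    (Finsupp.single_nonneg.2 hm.le)
    (by rw [map_add, degree_single, degree_single]; omega) a (fun v hv => by rw [hE v hv, hD]; exact ha)
  refine ⟨b, ?_, fun v hP hv => ?_⟩
  · have := h y (by rw [single_eq_same]; exact hm.ne')
    rwa [hD, single_eq_same, sub_self, exp_zero] at this
  · have := mem_LL.1 hb v
    rwa [Finsupp.add_apply, single_eq_of_ne hv, single_eq_of_ne hP, add_zero, exp_zero] at this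

end RApx

theorem rowApx : StmtApx := by
  intro k K _ _ _ _ hK S a
  classical
  have : Infinite (Place k K) := (H7.ll k K hK).2.2.2
  obtain ⟨P, hP⟩ := Infinite.exists_notMem_finset S
  have hne : ∀ y ∈ S, y ≠ P := fun y hy e => hP (e ▸ hy)
  choose! b hb hb' using fun y (hy : y ∈ S) => RApx.one hK P y (hne y hy) (a y)
  refine ⟨∑ y ∈ S, b y, fun y hy => ?_⟩
  rw [← Finset.add_sum_erase S b hy, add_sub_right_comm]
  refine (y.val.map_add _ _).trans (max_le (hb y hy) (y.val.map_sum_le fun z hz => ?_))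
  exact hb' z (Finset.mem_of_mem_erase hz) y (hne y hy) (Finset.ne_of_mem_erase hz).symm

end Pool.Agent.MP_ee8c61_ag.M3C
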