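import Pool.Agent.MP_ee8c61_ag.M3C.Spec

/-! The canonical divisor, duality and the Riemann-Roch theorem. -/

set_option autoImplicit false

open WithZero Finsupp Module

namespace Pool.Agent.MP_ee8c61_ag.M3C

open Pool.Agent.MP_cce4c9_lc Pool.Agent.MP_cce4c9_lc.H87

namespace RDUAL

variable {k K : Type} [Field k] [IsAlgClosed k] [Field K] [Algebra k K]

theorem ex_place (hK : IsFF k K) : Nonempty (Place k K) := by
  by_contra hn
  obtain ⟨t, ht, -⟩ := id hK
  obtain ⟨c, rfl⟩ := (H7.degF hK t).2.2 fun v => absurd ⟨v⟩ hn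
  exact ht (isAlgebraic_algebraMap c)

theorem ll_neg (hK : IsFF k K) (D : Dv k K) (hD : D.degree < 0) : finrank k (LL D) = 0 := by
  have h : LL D = ⊥ := by
    refine (Submodule.eq_bot_iff _).2 fun h hh => ?_
    by_contra h0
    obtain ⟨h1, h2, -⟩ := H7.degF hK h
    have h3 : 0 ≤ (D + dv k h).degree := by
      rw [Finsupp.degree_apply]
      refine Finset.sum_nonneg fun v _ => ?_
      have h4 := (v.val_le_exp (v.val_ne h0) _).1 (mem_LL.1 hh v)
      rw [Finsupp.add_apply, dv_apply h1]
      omega
    rw [map_add, h2] at h3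
    omega
  rw [h, finrank_bot]

omit [IsAlgClosed k] in
theorem mul_VP (P : Place k K) (D E : Dv k K) {f a : K} (hf : f ∈ LL E) (ha : a ∈ VP P (D - E)) :
    f * a ∈ VP P D := by
  have key : ∀ (v : Place k K) (b : K), v.val b ≤ exp ((D - E) v) → v.val (f * b) ≤ exp (D v) := by
    intro v b hb
    rw [map_mul, show D v = E v + (D - E) v by simp, exp_add]
    exact mul_le_mul' (mem_LL.1 hf v) hb
  obtain ⟨b, hb, c, hc, rfl⟩ := Submodule.mem_sup.1 ha
  rw [mul_add]
  exact Submodule.add_mem_sup (fun v hv => key v b (hb v hv)) (key P c hc)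

/-- The residue pairing at `P`. -/
noncomputable def th {d : Derivation k K K} {P : Place k K} (L : LocF d P) :
    K →ₗ[k] Module.Dual k K :=
  LinearMap.mk₂ k (fun h a => res d P (a * h)) (fun h h' a => by rw [mul_add, L.add])
    (fun c h a => by rw [mul_smul_comm, L.smul, smul_eq_mul])
    (fun h a a' => by rw [add_mul, L.add])
    (fun c h a => by rw [smul_mul_assoc, L.smul, smul_eq_mul])

theorem main (hK : IsFF k K) {g : ℕ} (hg : IsGenus k K g) (P : Place k K) (w : Place k K → ℤ)
    (hw : {u | w u < 0}.Finite) (θ : K →ₗ[k] Module.Dual k K)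
    (hm : ∀ h f a, θ h (a * f) = θ (h * f) a)
    (hI : ∀ D : Dv k K, FiniteDimensional k (K ⧸ VP P D) ∧
      (finrank k (K ⧸ VP P D) : ℤ) = finrank k (LL D) - D.degree - 1 + g)
    (hT : ∀ (D : Dv k K) (h : K), θ h ∈ (VP P D).dualAnnihilator ↔
      ∀ u : Place k K, u.val h ≤ exp (w u - D u)) :
    (Function.support w).Finite ∧ ∀ W : Dv k K, (∀ u, W u = w u) → W.degree = 2 * (g : ℤ) - 2 ∧
      ∀ D : Dv k K, (finrank k (LL D) : ℤ) = finrank k (LL (W - D)) + D.degree + 1 - g := by
  have hfd : ∀ D : Dv k K, FiniteDimensional k (VP P D).dualAnnihilator := fun D =>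
    haveI := (hI D).1
    (VP P D).dualQuotEquivDualAnnihilator.finiteDimensional
  have hJ : ∀ D : Dv k K, (finrank k (VP P D).dualAnnihilator : ℤ) =
      finrank k (LL D) - D.degree - 1 + g := fun D => by
    rw [← (VP P D).dualQuotEquivDualAnnihilator.finrank_eq, Subspace.dual_finrank_eq, (hI D).2]
  have h0 : ∀ h, θ h = 0 → h = 0 := fun h hh => by
    by_contra hne
    have h1 := (hT (single P (w P + P.ord h + 1)) h).1 (hh ▸ Submodule.zero_mem _) P
    rw [P.val_le_exp (P.val_ne hne), single_eq_same] at h1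
    omega
  have hinj : Function.Injective θ := (injective_iff_map_eq_zero θ).2 h0
  have hrk : ∀ E : Dv k K, finrank k ((LL E).map θ) = finrank k (LL E) := fun E =>
    (Submodule.equivMapOfInjective θ hinj (LL E)).finrank_eq.symm
  have hle : ∀ W D : Dv k K, (∀ u, W u ≤ w u) → (LL (W - D)).map θ ≤ (VP P D).dualAnnihilator := by
    rintro W D hW _ ⟨h, hh, rfl⟩
    refine (hT D h).2 fun u => (mem_LL.1 hh u).trans (exp_le_exp.2 ?_)
    rw [Finsupp.sub_apply]
    exact sub_le_sub_right (hW u) _
  have ha : ∀ W : Dv k K, (∀ u, W u ≤ w u) → W.degree ≤ 2 * (g : ℤ) - 2 := fun W hW => by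
    haveI := hfd (single P (-1))
    have h1 := Submodule.finrank_mono (hle W (single P (-1)) hW)
    have h2 := hJ (single P (-1))
    have h3 := hg.ge (W - single P (-1))
    rw [ll_neg hK _ (by rw [degree_single]; omega), degree_single] at h2
    rw [map_sub, degree_single] at h3
    rw [hrk] at h1
    omega
  constructor
  · classical
    have h1 : (Function.support fun u => min (w u) 0).Finite :=
      hw.subset fun u hu => by
        have h2 : min (w u) 0 ≠ 0 := hu
        show w u < 0
        omega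
    have h2 : {u | 0 < w u}.Finite := by
      by_contra hinf
      obtain ⟨S, hS, hc⟩ := Set.Infinite.exists_subset_card_eq hinf
        (2 * g + (Finsupp.ofSupportFinite _ h1).degree.natAbs)
      have h3 := ha (Finsupp.ofSupportFinite _ h1 + ∑ v ∈ S, single v 1) fun u => by
        rw [Finsupp.add_apply, Finsupp.finsetSum_apply]
        simp only [single_apply, Finset.sum_ite_eq', Finsupp.ofSupportFinite_coe]
        split_ifs with hu
        · have h4 : 0 < w u := hS hu
          omega
        · omega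
      rw [map_add, map_sum] at h3
      simp only [degree_single, Finset.sum_const, hc, nsmul_eq_mul, mul_one] at h3
      omega
    exact (hw.union h2).subset fun u hu => lt_or_gt_of_ne hu
  intro W hW
  have hb : ∀ D : Dv k K, (VP P D).dualAnnihilator ≤ (LL (W - D)).map θ := by
    intro D lam hl
    obtain ⟨n, hn, hn'⟩ : ∃ n : ℤ, D.degree < n ∧ 3 * (g : ℤ) - W.degree < n :=
      ⟨max D.degree (3 * (g : ℤ) - W.degree) + 1, by omega, by omega⟩
    let Ψ : (LL (single P n) × LL (W - (D - single P n))) →ₗ[k] Module.Dual k K :=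
      LinearMap.coprod (((LinearMap.mul k K).compr₂ lam).comp (LL (single P n)).subtype)
        (-θ.comp (LL (W - (D - single P n))).subtype)
    have hΨ : ∀ x a, Ψ x a = lam (x.1 * a) - θ x.2 a := fun x a => (sub_eq_add_neg _ _).symm
    have hmem : ∀ x, Ψ x ∈ (VP P (D - single P n)).dualAnnihilator := fun x => by
      refine (Submodule.mem_dualAnnihilator _).2 fun a ha => ?_
      rw [hΨ, (Submodule.mem_dualAnnihilator _).1 hl _ (mul_VP P D _ x.1.2 ha),
        (Submodule.mem_dualAnnihilator _).1 (hle W _ (fun u => (hW u).le) ⟨x.2, x.2.2, rfl⟩) a ha,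
        sub_zero]
    have hx : ∃ x, Ψ x = 0 ∧ x ≠ 0 := by
      by_contra hx
      have h1 : Function.Injective (Ψ.codRestrict _ hmem) :=
        (injective_iff_map_eq_zero _).2 fun x hx' => by
          by_contra hne
          exact hx ⟨x, congrArg Subtype.val hx', hne⟩
      haveI := hfd (D - single P n)
      haveI := hg.fin (single P n)
      haveI := hg.fin (W - (D - single P n))
      have h2 := LinearMap.finrank_le_finrank_of_injective h1
      have h3 := hJ (D - single P n)
      have h4 := hg.ge (single P n)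
      have h5 := hg.ge (W - (D - single P n))
      rw [ll_neg hK _ (by rw [map_sub, degree_single]; omega), map_sub, degree_single] at h3
      rw [degree_single] at h4
      rw [map_sub, map_sub, degree_single] at h5
      rw [finrank_prod] at h2
      omega
    obtain ⟨⟨f, q⟩, h1, h2⟩ := hx
    have h3 : ∀ a, lam (f * a) = θ q a := fun a => by
      have h4 := hΨ (f, q) a
      rw [h1] at h4
      exact sub_eq_zero.1 h4.symm
    have hf : (f : K) ≠ 0 := fun e => by
      have h4 : (q : K) = 0 := h0 _ (LinearMap.ext fun a => by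
        rw [← h3, e, zero_mul, map_zero, LinearMap.zero_apply])
      exact h2 (Prod.ext (Subtype.ext e) (Subtype.ext h4))
    have h5 : θ (q * (f : K)⁻¹) = lam := LinearMap.ext fun a => by
      rw [← hm, ← h3, mul_comm a, mul_inv_cancel_left₀ hf]
    refine ⟨_, mem_LL.2 fun u => ?_, h5⟩
    rw [Finsupp.sub_apply, hW]
    exact (hT D _).1 (h5 ▸ hl) u
  have hc : ∀ D : Dv k K,
      (finrank k (LL D) : ℤ) = finrank k (LL (W - D)) + D.degree + 1 - g := fun D => by
    have h1 := hJ D
    rw [← le_antisymm (hle W D fun u => (hW u).le) (hb D), hrk] at h1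
    omega
  refine ⟨?_, hc⟩
  obtain ⟨n, hn, hn'⟩ : ∃ n : ℤ, 0 < n ∧ 2 * (g : ℤ) - W.degree < n :=
    ⟨max 0 (2 * (g : ℤ) - W.degree) + 1, by omega, by omega⟩
  have h1 := hc (single P (-n))
  have h2 := hg.eq (W - single P (-n)) (by rw [map_sub, degree_single]; omega)
  rw [ll_neg hK _ (by rw [degree_single]; omega), h2, map_sub, degree_single] at h1
  omega

end RDUAL

theorem rowDUAL (hL : StmtLoc) (hR : StmtRES) (hI : StmtIdx) (hT : StmtTheta) : StmtDUAL := by
  intro k K _ _ _ _ _ hK d hd g hg
  obtain ⟨P⟩ := RDUAL.ex_place hK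
  obtain ⟨h1, h2⟩ := RDUAL.main hK hg P (cw d) (hR k K hK d hd).1 (RDUAL.th (hL k K hK d hd P))
    (fun h f a => congrArg (res d P) (by ring)) (hI k K hK g hg P)
    fun D h => (Submodule.mem_dualAnnihilator _).trans (hT k K hK d hd P D h)
  have h3 : ∀ u, can d u = cw d u := fun u => by
    rw [can, dif_pos h1]
    rfl
  exact ⟨h3, h2 _ h3⟩

end Pool.Agent.MP_ee8c61_ag.M3C
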