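import Pool.Agent.MP_ee8c61_ag.M3C.SpecB

/-! A function field has a derivation with value one at a given nonconstant function. -/

set_option autoImplicit false

open Polynomial TrivSqZeroExt
open scoped IntermediateField

namespace Pool.Agent.MP_ee8c61_ag.M3C

open Pool.Agent.MP_cce4c9_lc

theorem rowExD : StmtExD := by
  intro k K _ _ _ _ _ hK t ht
  have htr := H14.transc ht
  have := H9.fd' hK ht
  let t' : k⟮t⟯ := IntermediateField.AdjoinSimple.gen k t
  have ev : ∀ p : k[X], algebraMap k⟮t⟯ K (aeval t' p) = aeval t p := fun p =>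
    (aeval_algebraMap_apply K t' p).symm
  let a1 : Algebra k[X] k⟮t⟯ := (aeval t').toRingHom.toAlgebra
  let a2 : Algebra k[X] K := (aeval t).toRingHom.toAlgebra
  have : IsScalarTower k[X] k⟮t⟯ K := .of_algebraMap_eq fun p => (ev p).symm
  have : FaithfulSMul k[X] k⟮t⟯ := (faithfulSMul_iff_algebraMap_injective _ _).2 fun p q h =>
    transcendental_iff_injective.1 htr ((ev p).symm.trans ((congrArg _ h).trans (ev q)))
  have : IsFractionRing k[X] k⟮t⟯ := IsFractionRing.of_field _ _ fun g => by
    obtain ⟨r, s, e⟩ := (IntermediateField.mem_adjoin_simple_iff k (g : K)).1 g.2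
    refine ⟨r, s, (algebraMap k⟮t⟯ K).injective ?_⟩
    rw [map_div₀]
    exact e.trans (congrArg₂ (· / ·) (ev r).symm (ev s).symm)
  have : Algebra.FormallyEtale k[X] k⟮t⟯ := .of_isLocalization (nonZeroDivisors k[X])
  have : CharZero k⟮t⟯ := charZero_of_injective_algebraMap (algebraMap k k⟮t⟯).injective
  have : Algebra.FormallyEtale k⟮t⟯ K := .of_isSeparable _ _
  have : Algebra.FormallyEtale k[X] K := .comp _ k⟮t⟯ _
  let ψ : k[X] →ₐ[k] TrivSqZeroExt K K := aeval (inl t + inr 1)
  have e1 : ∀ p, (ψ p).fst = aeval t p := fun p => by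
    refine (aeval_algHom_apply (fstHom k K K) (inl t + inr 1) p).symm.trans ?_
    simp
  let a3 : Algebra k[X] (TrivSqZeroExt K K) := ψ.toRingHom.toAlgebra
  let π : TrivSqZeroExt K K →ₐ[k[X]] K := { (fstHom k K K).toRingHom with commutes' := e1 }
  have hs : Function.Surjective π := fun g => ⟨inl g, rfl⟩
  have hn : IsNilpotent (RingHom.ker (π : TrivSqZeroExt K K →+* K)) := ⟨2, by
    rw [Submodule.pow_succ, Submodule.pow_one, Ideal.zero_eq_bot, eq_bot_iff, Ideal.mul_le]
    intro x hx y hy
    have hx : x.fst = 0 := hx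
    have hy : y.fst = 0 := hy
    rw [Ideal.mem_bot]
    ext <;> simp [hx, hy]⟩
  have l1 := Algebra.FormallySmooth.liftOfSurjective_apply (AlgHom.id k[X] K) π hs hn
  generalize Algebra.FormallySmooth.liftOfSurjective (AlgHom.id k[X] K) π hs hn = L at l1
  have l1 : ∀ g, (L g).fst = g := l1
  have l0 : ∀ p, L (aeval t p) = ψ p := L.commutes
  have l2 : ∀ a b, (L (a * b)).snd = a • (L b).snd + b • (L a).snd := fun a b => by
    simp [l1, mul_comm]
  have l3 : ∀ c : k, (L (algebraMap k K c)).snd = 0 := fun c => by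
    rw [← aeval_C t, l0]
    simp [ψ, algebraMap_eq_inl']
  refine ⟨Derivation.mk'
    { toFun g := (L g).snd
      map_add' a b := by simp
      map_smul' c g := by
        rw [Algebra.smul_def, l2, l3, smul_zero, add_zero, RingHom.id_apply, Algebra.smul_def c,
          smul_eq_mul] } l2, ?_⟩
  change (L t).snd = 1
  have := l0 X
  rw [aeval_X] at this
  rw [this]
  simp [ψ]

end Pool.Agent.MP_ee8c61_ag.M3C
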