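import Pool.Agent.MP_ee8c61_ag.M3C.SpecB

/-! Row FING: the graded form of the finiteness theorem. -/

set_option autoImplicit false

open Polynomial
open scoped Pointwise

namespace Pool.Agent.MP_ee8c61_ag.M3C

namespace RFING

variable {k K : Type} [Field k] [Field K] [Algebra k K]

/-- The spaces generated over `U` by the seeds `S`. -/
def gen (U : Set K) (S : ℕ → Set K) : ℕ → Submodule k K
  | 0 => Submodule.span k (S 0)
  | n + 1 => Submodule.span k U * gen U S n ⊔ Submodule.span k (S (n + 1))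

theorem seed_le (U : Set K) (S : ℕ → Set K) (n : ℕ) :
    Submodule.span k (S n) ≤ gen (k := k) U S n := by
  cases n with
  | zero => exact le_rfl
  | succ n => exact le_sup_right

theorem gen_fg (U : Set K) (S : ℕ → Set K) (hU : U.Finite) (hS : ∀ n, (S n).Finite) (n : ℕ) :
    (gen (k := k) U S n).FG := by
  induction n with
  | zero => exact Submodule.fg_span (hS 0)
  | succ n ih => exact ((Submodule.fg_span hU).mul ih).sup (Submodule.fg_span (hS _))

theorem mul_le (U : Set K) (W : ℕ → Submodule k K)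
    (hW : ∀ n, ∀ u ∈ U, ∀ f ∈ W n, u * f ∈ W (n + 1)) (n : ℕ) :
    Submodule.span k U * W n ≤ W (n + 1) := by
  refine Submodule.mul_le.2 fun u hu f hf => ?_
  induction hu using Submodule.span_induction with
  | mem u hu => exact hW n u hu f hf
  | zero => rw [zero_mul]; exact zero_mem _
  | add a b _ _ ha hb => rw [add_mul]; exact add_mem ha hb
  | smul a b _ hb => rw [smul_mul_assoc]; exact Submodule.smul_mem _ _ hb

theorem gen_le (U : Set K) (S : ℕ → Set K) (W : ℕ → Submodule k K)
    (hW : ∀ n, ∀ u ∈ U, ∀ f ∈ W n, u * f ∈ W (n + 1)) (hS : ∀ n, S n ⊆ W n) (n : ℕ) :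
    gen (k := k) U S n ≤ W n := by
  induction n with
  | zero => exact Submodule.span_le.2 (hS 0)
  | succ n ih =>
    exact sup_le ((mul_le_mul_right ih _).trans (mul_le U W hW n)) (Submodule.span_le.2 (hS _))

variable {L : Type} [Field L] [Algebra K[X] L] [Algebra k L] [IsScalarTower k K[X] L]

/-- The ring generated by the `u T`. -/
def RR (k L : Type) {K : Type} [Field k] [Field K] [Field L] [Algebra K[X] L] [Algebra k L]
    (U : Set K) : Subalgebra k L :=
  Algebra.adjoin k ((fun u => algebraMap K[X] L (monomial 1 u)) '' U)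

/-- Images of polynomials with coefficients in `c G n`. -/
def PP (L : Type) [Field L] [Algebra K[X] L] (c : K) (G : ℕ → Submodule k K) (x : L) : Prop :=
  ∃ p : K[X], algebraMap K[X] L p = x ∧ ∀ n, c⁻¹ * p.coeff n ∈ G n

omit [Algebra k L] [IsScalarTower k K[X] L] in
theorem PP.add {c : K} {G : ℕ → Submodule k K} {x y : L} (hx : PP L c G x) (hy : PP L c G y) :
    PP L c G (x + y) := by
  obtain ⟨p, rfl, hp⟩ := hx
  obtain ⟨q, rfl, hq⟩ := hy
  refine ⟨p + q, map_add _ _ _, fun n => ?_⟩
  rw [coeff_add, mul_add]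
  exact add_mem (hp n) (hq n)

theorem alg_eq (a : k) : algebraMap k L a = algebraMap K[X] L (C (algebraMap k K a)) := by
  rw [IsScalarTower.algebraMap_apply k K[X] L, Polynomial.algebraMap_apply]

theorem PP.mul {c : K} {G : ℕ → Submodule k K} {U : Set K}
    (hG : ∀ n, ∀ u ∈ U, ∀ f ∈ G n, u * f ∈ G (n + 1)) {r : L} (hr : r ∈ RR k L U) :
    ∀ x, PP L c G x → PP L c G (r * x) := by
  induction hr using Algebra.adjoin_induction with
  | mem r hr =>
    obtain ⟨u, hu, rfl⟩ := hr
    rintro x ⟨p, rfl, hp⟩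
    refine ⟨monomial 1 u * p, map_mul _ _ _, fun n => ?_⟩
    rw [← C_mul_X_eq_monomial, mul_assoc, coeff_C_mul]
    cases n with
    | zero => rw [coeff_X_mul_zero, mul_zero, mul_zero]; exact zero_mem _
    | succ n => rw [coeff_X_mul, mul_left_comm]; exact hG n u hu _ (hp n)
  | algebraMap a =>
    rintro x ⟨p, rfl, hp⟩
    refine ⟨C (algebraMap k K a) * p, by rw [map_mul, alg_eq (K := K) (L := L)], fun n => ?_⟩
    rw [coeff_C_mul, mul_left_comm, ← Algebra.smul_def]
    exact Submodule.smul_mem _ _ (hp n)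
  | add r s _ _ hr hs =>
    intro x hx
    rw [add_mul]
    exact (hr x hx).add (hs x hx)
  | mul r s _ _ hr hs =>
    intro x hx
    rw [mul_assoc]
    exact hr _ (hs x hx)

theorem mem_val (U : Finset K) (c : K) (W : ℕ → Submodule k K) (h0 : ∃ u ∈ U, u ≠ 0)
    (hV : ∀ V : ValuationSubring K, (∀ a : k, algebraMap k K a ∈ V) → ∀ u ∈ U, u ≠ 0 →
      (∀ u' ∈ U, u' / u ∈ V) → ∀ n, ∀ f ∈ W n, c * f / u ^ n ∈ V)
    (V : ValuationSubring L) (hR : ∀ r ∈ RR k L (U : Set K), r ∈ V) (n : ℕ) (f : K)
    (hf : f ∈ W n) : algebraMap K[X] L (monomial n (c * f)) ∈ V := by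
  let V' : ValuationSubring K := V.comap ((algebraMap K[X] L).comp C)
  obtain ⟨u0, hu0, hne⟩ := h0
  obtain ⟨u, hu, hmax⟩ := U.exists_max_image V'.valuation ⟨u0, hu0⟩
  have hv : V'.valuation u ≠ 0 := fun h => by
    have h1 := hmax u0 hu0
    rw [h, le_zero_iff] at h1
    exact hne ((map_eq_zero _).1 h1)
  have hu' : u ≠ 0 := fun h => hv (by rw [h, map_zero])
  have h1 : c * f / u ^ n ∈ V' := by
    refine hV V' (fun a => ?_) u hu hu' (fun u' hu2 => ?_) n f hf
    · change algebraMap K[X] L (C (algebraMap k K a)) ∈ V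
      rw [← alg_eq]
      exact hR _ (Subalgebra.algebraMap_mem _ a)
    · rw [← V'.valuation_le_one_iff, map_div₀]
      exact div_le_one_of_le₀ (hmax u' hu2) zero_le
  have h2 : algebraMap K[X] L (monomial 1 u) ∈ V :=
    hR _ (Algebra.subset_adjoin ⟨u, hu, rfl⟩)
  have h3 : monomial n (c * f) = C (c * f / u ^ n) * monomial 1 u ^ n := by
    rw [monomial_pow, one_mul, C_mul_monomial, div_mul_cancel₀ _ (pow_ne_zero n hu')]
  rw [h3, map_mul, map_pow]
  exact mul_mem h1 (pow_mem h2 n)

end RFING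

open RFING in
theorem rowFING (h : StmtFIN) : StmtFING := by
  intro k K _ _ _ _ _ U c W h0 hc hW hV
  let L := FractionRing K[X]
  have : Algebra.EssFiniteType K[X] L :=
    Algebra.EssFiniteType.of_isLocalization L (nonZeroDivisors K[X])
  have : Algebra.EssFiniteType k K[X] := Algebra.EssFiniteType.comp k K K[X]
  have : Algebra.EssFiniteType k L := Algebra.EssFiniteType.comp k K[X] L
  let G : Set L := {x | ∃ n, ∃ f ∈ W n, x = algebraMap K[X] L (monomial n (c * f))}
  have hRfg : (RR k L (U : Set K)).FG :=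
    Subalgebra.fg_def.2 ⟨_, U.finite_toSet.image _, rfl⟩
  have hN : (Submodule.span (RR k L (U : Set K)) G).FG := by
    refine (h k L _ hRfg _).2 fun x hx V hR => ?_
    induction hx using Submodule.span_induction with
    | mem x hx =>
      obtain ⟨n, f, hf, rfl⟩ := hx
      exact mem_val U c W h0 hV V hR n f hf
    | zero => exact zero_mem _
    | add a b _ _ ha hb => exact add_mem ha hb
    | smul a b _ hb => exact mul_mem (hR a a.2) hb
  obtain ⟨s, hs, hsp⟩ := (Submodule.fg_span_iff_fg_span_finset_subset G).1 hN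
  have hex : ∀ x : s, ∃ n, ∃ f ∈ W n, (x : L) = algebraMap K[X] L (monomial n (c * f)) :=
    fun x => hs x.2
  choose nn ff hff hx using hex
  let S : ℕ → Set K := fun n => {g | ∃ x : s, nn x = n ∧ g = ff x}
  have hSf : ∀ n, (S n).Finite := fun n =>
    (Set.finite_range ff).subset fun g ⟨x, _, hg⟩ => ⟨x, hg.symm⟩
  have hSW : ∀ n, S n ⊆ W n := by
    rintro n g ⟨x, rfl, rfl⟩
    exact hff x
  have hG : ∀ n, ∀ u ∈ (U : Set K), ∀ f ∈ gen (k := k) (U : Set K) S n,
      u * f ∈ gen (k := k) (U : Set K) S (n + 1) := fun n u hu f hf =>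
    Submodule.mem_sup_left (Submodule.mul_mem_mul (Submodule.subset_span hu) hf)
  have hP : ∀ x ∈ Submodule.span (RR k L (U : Set K)) (s : Set L),
      PP L c (gen (k := k) (U : Set K) S) x := by
    intro x hx'
    induction hx' using Submodule.span_induction with
    | mem x hx' =>
      refine ⟨_, (hx ⟨x, hx'⟩).symm, fun n => ?_⟩
      rw [coeff_monomial]
      split_ifs with hn
      · rw [inv_mul_cancel_left₀ hc]
        exact seed_le _ S n (Submodule.subset_span ⟨⟨x, hx'⟩, hn, rfl⟩)
      · rw [mul_zero]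
        exact zero_mem _
    | zero => exact ⟨0, map_zero _, fun n => by rw [coeff_zero, mul_zero]; exact zero_mem _⟩
    | add a b _ _ ha hb => exact ha.add hb
    | smul a b _ hb => exact PP.mul hG a.2 b hb
  have hE : ∀ n, W n = gen (k := k) (U : Set K) S n := by
    intro n
    refine le_antisymm (fun f hf => ?_) (gen_le _ S W hW hSW n)
    obtain ⟨p, hp, hp'⟩ := hP _ (hsp ▸ Submodule.subset_span (s := G) ⟨n, f, hf, rfl⟩)
    have h1 := hp' n
    rwa [IsFractionRing.injective K[X] L hp, coeff_monomial, if_pos rfl,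
      inv_mul_cancel_left₀ hc] at h1
  refine ⟨fun n => ?_, Finset.univ.sup nn, fun n hn => ?_⟩
  · rw [hE n]
    exact Module.Finite.iff_fg.2 (gen_fg _ S U.finite_toSet hSf n)
  · have h1 : S (n + 1) = ∅ := by
      refine Set.eq_empty_of_forall_notMem ?_
      rintro g ⟨x, hx', -⟩
      have h2 : nn x ≤ Finset.univ.sup nn := Finset.le_sup (Finset.mem_univ x)
      omega
    rw [hE (n + 1), hE n, gen, h1, Submodule.span_empty, sup_bot_eq]

end Pool.Agent.MP_ee8c61_ag.M3C
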