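import Pool.Agent.MP_ee8c61_ag.M3C.Spec

/-! The index of speciality as the dimension of a quotient of the function field. -/

set_option autoImplicit false

open WithZero Finsupp Module

namespace Pool.Agent.MP_ee8c61_ag.M3C

open Pool.Agent.MP_cce4c9_lc Pool.Agent.MP_cce4c9_lc.H87

namespace RIdx

section Lin

variable {k M : Type} [Field k] [AddCommGroup M] [Module k M]

theorem rank_sup (p : Submodule k M) [FiniteDimensional k p] {v : M} (hv : v ∉ p) :
    finrank k (p ⊔ Submodule.span k {v} : Submodule k M) = finrank k p + 1 := by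
  have h0 : v ≠ 0 := fun h => hv (h ▸ p.zero_mem)
  have h1 := Submodule.finrank_sup_add_finrank_inf_eq p (Submodule.span k {v})
  have h2 : p ⊓ Submodule.span k {v} = ⊥ :=
    ((Submodule.disjoint_span_singleton' h0).2 hv).eq_bot
  rw [h2, finrank_bot, finrank_span_singleton h0] at h1
  exact h1

theorem rank_quot (V : Submodule k M) {x : M} (hx : x ∉ V)
    (hf : FiniteDimensional k (M ⧸ (V ⊔ Submodule.span k {x}))) :
    FiniteDimensional k (M ⧸ V) ∧
      finrank k (M ⧸ V) = finrank k (M ⧸ (V ⊔ Submodule.span k {x})) + 1 := by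
  have e := Submodule.quotientQuotientEquivQuotient V (V ⊔ Submodule.span k {x}) le_sup_left
  have hW : (V ⊔ Submodule.span k {x}).map V.mkQ = Submodule.span k {V.mkQ x} := by
    rw [Submodule.map_sup, Submodule.mkQ_map_self, bot_sup_eq, Submodule.map_span,
      Set.image_singleton]
  rw [hW] at e
  have h0 : V.mkQ x ≠ 0 := fun h => hx ((Submodule.Quotient.mk_eq_zero V).1 h)
  have f1 : FiniteDimensional k ((M ⧸ V) ⧸ Submodule.span k {V.mkQ x}) :=
    Module.Finite.equiv e.symm
  have f2 : FiniteDimensional k (M ⧸ V) :=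
    Module.Finite.of_submodule_quotient (Submodule.span k {V.mkQ x})
  refine ⟨f2, ?_⟩
  rw [← Submodule.finrank_quotient_add_finrank (Submodule.span k {V.mkQ x}), e.finrank_eq,
    finrank_span_singleton h0]

/-- One step of a flag: either the sum or the intersection with `R` grows. -/
theorem step (R O : Submodule k M) [FiniteDimensional k (R ⊓ O : Submodule k M)] {x : M}
    (hx : x ∉ O) :
    (R ⊔ (O ⊔ Submodule.span k {x}) = R ⊔ O ∧
      finrank k (R ⊓ (O ⊔ Submodule.span k {x}) : Submodule k M) =
        finrank k (R ⊓ O : Submodule k M) + 1) ∨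
    (x ∉ R ⊔ O ∧ R ⊓ (O ⊔ Submodule.span k {x}) = R ⊓ O) := by
  by_cases h : x ∈ R ⊔ O
  · left
    refine ⟨?_, ?_⟩
    · rw [← sup_assoc]
      exact sup_eq_left.2 ((Submodule.span_singleton_le_iff_mem _ _).2 h)
    · obtain ⟨r, hr, o, ho, hro⟩ := Submodule.mem_sup.1 h
      have hrO : r ∉ R ⊓ O := fun h' => hx (hro ▸ O.add_mem h'.2 ho)
      have e1 : O ⊔ Submodule.span k {x} = O ⊔ Submodule.span k {r} := by
        apply le_antisymm
        · refine sup_le le_sup_left ((Submodule.span_singleton_le_iff_mem _ _).2 ?_)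
          rw [← hro]
          exact add_mem (Submodule.mem_sup_right (Submodule.mem_span_singleton_self r))
            (Submodule.mem_sup_left ho)
        · refine sup_le le_sup_left ((Submodule.span_singleton_le_iff_mem _ _).2 ?_)
          rw [show r = x - o by rw [← hro, add_sub_cancel_right]]
          exact sub_mem (Submodule.mem_sup_right (Submodule.mem_span_singleton_self x))
            (Submodule.mem_sup_left ho)
      have e2 : R ⊓ (O ⊔ Submodule.span k {r}) = R ⊓ O ⊔ Submodule.span k {r} :=
        (inf_sup_assoc_of_le O ((Submodule.span_singleton_le_iff_mem _ _).2 hr)).symm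
      rw [e1, e2, rank_sup _ hrO]
  · right
    refine ⟨h, le_antisymm ?_ (inf_le_inf_left _ le_sup_left)⟩
    rintro y ⟨hyR, hy⟩
    obtain ⟨o, ho, z, hz, hoz⟩ := Submodule.mem_sup.1 hy
    obtain ⟨c, rfl⟩ := Submodule.mem_span_singleton.1 hz
    by_cases hc : c = 0
    · rw [hc, zero_smul, add_zero] at hoz
      exact ⟨hyR, hoz ▸ ho⟩
    · refine absurd ?_ h
      rw [show x = c⁻¹ • (y - o) by
        rw [← hoz, add_sub_cancel_left, smul_smul, inv_mul_cancel₀ hc, one_smul]]
      exact Submodule.smul_mem _ _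
        (sub_mem (Submodule.mem_sup_left hyR) (Submodule.mem_sup_right ho))

end Lin

variable {k K : Type} [Field k] [Field K] [Algebra k K]

theorem op_succ {P : Place k K} (H : P.Res) (m : ℤ) :
    ∃ x, x ∉ OP P m ∧ OP P (m + 1) = OP P m ⊔ Submodule.span k {x} := by
  obtain ⟨x, hx⟩ := P.surj (exp (m + 1))
  have hx0 : x ≠ 0 := fun h => by
    rw [h, map_zero] at hx
    exact exp_ne_zero hx.symm
  refine ⟨x, fun h => ?_, le_antisymm (fun h hh => ?_) (sup_le (fun h hh => ?_) ?_)⟩
  · have h' : P.val x ≤ exp m := h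
    rw [hx, exp_le_exp] at h'
    omega
  · have hh' : P.val h ≤ exp (m + 1) := hh
    have h1 : P.val (h / x) ≤ 1 := by
      rw [map_div₀, hx]
      exact div_le_one_of_le₀ hh' zero_le
    obtain ⟨c, hc⟩ := H _ h1
    have h2 : P.val (h - c • x) ≤ exp m := by
      apply H51.lt_exp_succ
      rw [show h - c • x = (h / x - algebraMap k K c) * x by
        rw [sub_mul, div_mul_cancel₀ _ hx0, Algebra.smul_def], map_mul, hx]
      exact mul_lt_of_lt_one_left (zero_lt_iff.2 exp_ne_zero) hc
    rw [show h = (h - c • x) + c • x by rw [sub_add_cancel]]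
    exact add_mem (Submodule.mem_sup_left h2)
      (Submodule.mem_sup_right (Submodule.smul_mem _ _ (Submodule.mem_span_singleton_self x)))
  · have hh' : P.val h ≤ exp m := hh
    exact hh'.trans (exp_le_exp.2 (by omega))
  · exact (Submodule.span_singleton_le_iff_mem _ _).2 hx.le

theorem ll_eq (P : Place k K) (D : Dv k K) (m : ℤ) :
    LL (D + single P (m - D P)) = RP P D ⊓ OP P m := by
  ext h
  constructor
  · intro hh
    refine ⟨fun v hv => ?_, ?_⟩
    · have := hh v
      rwa [Finsupp.add_apply, single_eq_of_ne hv, add_zero] at this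
    · have := hh P
      rwa [Finsupp.add_apply, single_eq_same, add_sub_cancel] at this
  · rintro ⟨h1, h2⟩ v
    by_cases hv : v = P
    · rw [hv, Finsupp.add_apply, single_eq_same, add_sub_cancel]
      exact h2
    · rw [Finsupp.add_apply, single_eq_of_ne hv, add_zero]
      exact h1 v hv

theorem deg_eq (P : Place k K) (D : Dv k K) (n : ℤ) :
    (D + single P n).degree = D.degree + n := by
  rw [map_add, degree_single]

variable {g : ℕ} (hg : IsGenus k K g) {P : Place k K} (H : P.Res) (D : Dv k K)

include hg in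
theorem fin (m : ℤ) : FiniteDimensional k (RP P D ⊓ OP P m : Submodule k K) :=
  ll_eq P D m ▸ hg.fin _

include hg in
theorem big (m : ℤ) (hm : 2 * (g : ℤ) ≤ D.degree + (m - D P)) :
    (finrank k (RP P D ⊓ OP P m : Submodule k K) : ℤ) = D.degree + (m - D P) + 1 - g := by
  rw [← ll_eq, hg.eq _ (by rwa [deg_eq]), deg_eq]

include hg H in
theorem top (m : ℤ) (hm : 2 * (g : ℤ) ≤ D.degree + (m - D P)) : RP P D ⊔ OP P m = ⊤ := by
  have key : ∀ j : ℕ, RP P D ⊔ OP P (m + j) = RP P D ⊔ OP P m := by
    intro j
    induction j with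
    | zero => rw [Nat.cast_zero, add_zero]
    | succ j ih =>
      obtain ⟨x, hx, e⟩ := op_succ H (m + j)
      have := fin hg D (P := P) (m + j)
      rw [Nat.cast_succ, ← add_assoc, ← ih]
      rcases step (RP P D) (OP P (m + j)) hx with h | h
      · rw [e, h.1]
      · have h1 := big hg D (P := P) (m + j) (by omega)
        have h2 := big hg D (P := P) (m + j + 1) (by omega)
        rw [e, h.2] at h2
        omega
  rw [eq_top_iff]
  intro h _
  rw [← key (-P.ord h - m).toNat]
  refine Submodule.mem_sup_right ?_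
  change P.val h ≤ _
  by_cases h0 : h = 0
  · rw [h0, map_zero]
    exact zero_le
  · rw [P.val_le_exp (P.val_ne h0)]
    omega

include hg H in
theorem main (j : ℕ) : ∀ m : ℤ, 2 * (g : ℤ) ≤ D.degree + (m + j - D P) →
    FiniteDimensional k (K ⧸ (RP P D ⊔ OP P m)) ∧ (finrank k (K ⧸ (RP P D ⊔ OP P m)) : ℤ) =
      finrank k (RP P D ⊓ OP P m : Submodule k K) - (D.degree + (m - D P)) - 1 + g := by
  induction j with
  | zero =>
    intro m hm
    rw [Nat.cast_zero, add_zero] at hm
    rw [big hg D m hm, top hg H D m hm]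
    refine ⟨inferInstance, ?_⟩
    rw [Module.finrank_zero_of_subsingleton]
    omega
  | succ j ih =>
    intro m hm
    obtain ⟨h1, h2⟩ := ih (m + 1) (by push_cast at hm; omega)
    obtain ⟨x, hx, e⟩ := op_succ H m
    have := fin hg D (P := P) m
    rw [e] at h1 h2
    rcases step (RP P D) (OP P m) hx with h | h
    · rw [h.1] at h1 h2
      rw [h.2] at h2
      exact ⟨h1, by push_cast at h2; omega⟩
    · rw [← sup_assoc] at h1 h2
      obtain ⟨h3, h4⟩ := rank_quot _ h.1 h1
      rw [h.2] at h2
      exact ⟨h3, by omega⟩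

end RIdx

theorem rowIdx : StmtIdx := by
  intro k K _ _ _ _ hK g hg P D
  have h := RIdx.main hg (H51.res hK P) D (2 * (g : ℤ) - D.degree).toNat (D P) (by omega)
  rw [← RIdx.ll_eq, sub_self, single_zero, add_zero, add_zero] at h
  exact h

end Pool.Agent.MP_ee8c61_ag.M3C
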