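import Pool.Agent.MP_ee8c61_ag.M3C.Spec

/-! The local calculus of forms at a place. -/

set_option autoImplicit false

open WithZero

namespace Pool.Agent.MP_ee8c61_ag.M3C

open Pool.Agent.MP_cce4c9_lc Pool.Agent.MP_cce4c9_lc.H87

namespace RLoc

variable {k K : Type} [Field k] [Field K] [Algebra k K] {d : Derivation k K K} {u : Place k K}

theorem unif_ne (u : Place k K) : unif u ≠ 0 := fun e => by
  have := val_unif u
  rw [e, map_zero] at this
  exact exp_ne_zero this.symm

theorem dl_mul (d : Derivation k K K) {a b : K} (ha : a ≠ 0) (hb : b ≠ 0) :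
    d (a * b) / (a * b) = d a / a + d b / b := by
  rw [Derivation.leibniz, smul_eq_mul, smul_eq_mul]
  field_simp
  ring

theorem dl_zpow (d : Derivation k K K) {a : K} (ha : a ≠ 0) (n : ℤ) :
    d (a ^ n) / a ^ n = (n : K) * (d a / a) := by
  rw [Derivation.leibniz_zpow, zsmul_eq_mul, smul_eq_mul, zpow_sub₀ ha, zpow_one]
  have := zpow_ne_zero n ha
  field_simp

theorem val_smul_le (u : Place k K) (c : k) (x : K) : u.val (c • x) ≤ u.val x := by
  rw [Algebra.smul_def, map_mul]
  exact mul_le_of_le_one_left' (u.const_le c)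

theorem val_smul {c : k} (hc : c ≠ 0) (u : Place k K) (x : K) : u.val (c • x) = u.val x := by
  rw [Algebra.smul_def, map_mul, u.triv c hc, one_mul]

theorem small {x g : K} {n : ℤ} (hx : u.val x < 1) (hg : u.val g = exp (n + 1)) :
    u.val (x * g) ≤ exp n := by
  apply H51.lt_exp_succ
  rw [map_mul, hg]
  exact mul_lt_of_lt_one_left (zero_lt_iff.2 exp_ne_zero) hx

theorem peel (hR : u.Res) {ψ g : K} {n : ℤ} (hg : u.val g = exp (n + 1))
    (hψ : u.val ψ ≤ exp (n + 1)) : ∃ c : k, u.val (ψ - c • g) ≤ exp n := by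
  have g0 : g ≠ 0 := fun e => by
    rw [e, map_zero] at hg
    exact exp_ne_zero hg.symm
  have h1 : u.val (ψ / g) ≤ 1 := by
    rw [map_div₀, hg]
    exact div_le_one_of_le₀ hψ zero_le
  refine ⟨u.ev (ψ / g), ?_⟩
  have e : ψ - u.ev (ψ / g) • g = (ψ / g - algebraMap k K (u.ev (ψ / g))) * g := by
    rw [Algebra.smul_def, sub_mul, div_mul_cancel₀ _ g0]
  rw [e]
  exact small (hR.ev_spec h1) hg

theorem val_of_sub {x y : K} {n : ℤ} (hx : u.val x = exp (n + 1))
    (h : u.val (x - y) ≤ exp n) : u.val y = exp (n + 1) := by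
  have h1 : u.val (y - x) < u.val x := by
    rw [Valuation.map_sub_swap, hx]
    exact h.trans_lt (exp_lt_exp.2 (by omega))
  have := u.val.map_add_eq_of_lt_left h1
  rwa [add_sub_cancel, hx] at this

/-- The three facts from which the calculus follows. -/
structure B (d : Derivation k K K) (u : Place k K) : Prop where
  rs : u.Res
  val : u.val (d (unif u)) = exp (cw d u)
  reg : ∀ h : K, u.val h ≤ 1 → u.val (d h) ≤ exp (cw d u)

theorem B.om (H : B d u) : u.val (d (unif u) / unif u) = exp (cw d u + 1) := by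
  rw [map_div₀, H.val, val_unif, ← exp_sub]
  congr 1

theorem B.key (H : B d u) (h : K) :
    u.val (d h / h - ((u.ord h : ℤ) : K) * (d (unif u) / unif u)) ≤ exp (cw d u) := by
  by_cases h0 : h = 0
  · simp [h0]
  have p0 := unif_ne u
  have z0 := zpow_ne_zero (-u.ord h) p0
  have h1 : u.val (h * unif u ^ (-u.ord h)) = 1 := by
    rw [u.val_one_iff (u.val_ne (mul_ne_zero h0 z0)),
      u.ord_mul (u.val_ne h0) (u.val_ne z0), u.ord_zpow, u.ord_eq (val_unif u)]
    ring
  have e : d h / h - ((u.ord h : ℤ) : K) * (d (unif u) / unif u) =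
      d (h * unif u ^ (-u.ord h)) / (h * unif u ^ (-u.ord h)) := by
    rw [dl_mul d h0 z0, dl_zpow d p0]
    push_cast
    ring
  rw [e, map_div₀, h1, div_one]
  exact H.reg _ h1.le

theorem cast_mul (n : ℤ) (x : K) : (n : K) * x = (n : k) • x := by
  rw [Algebra.smul_def, map_intCast]

theorem B.le (H : B d u) (h : K) : u.val (d h) ≤ exp (cw d u + 1) * u.val h := by
  by_cases h0 : h = 0
  · simp [h0]
  have h1 : u.val (d h / h) ≤ exp (cw d u + 1) := by
    have := u.val.map_add (d h / h - ((u.ord h : ℤ) : K) * (d (unif u) / unif u))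
      (((u.ord h : ℤ) : K) * (d (unif u) / unif u))
    rw [sub_add_cancel] at this
    refine this.trans (max_le ((H.key h).trans (exp_le_exp.2 (by omega))) ?_)
    rw [cast_mul (k := k)]
    exact (val_smul_le u _ _).trans H.om.le
  calc u.val (d h) = u.val (d h / h) * u.val h := by rw [← map_mul, div_mul_cancel₀ _ h0]
    _ ≤ _ := mul_le_mul_left h1 _

theorem B.eq [CharZero k] (H : B d u) (h : K) (hv : u.val h ≠ 1) :
    u.val (d h) = exp (cw d u + 1) * u.val h := by
  by_cases h0 : h = 0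
  · simp [h0]
  have n0 : ((u.ord h : ℤ) : k) ≠ 0 :=
    Int.cast_ne_zero.2 fun e => hv ((u.val_one_iff (u.val_ne h0)).2 e)
  have h1 : u.val (d h / h) = exp (cw d u + 1) := by
    refine val_of_sub (x := ((u.ord h : ℤ) : K) * (d (unif u) / unif u)) ?_ ?_
    · rw [cast_mul (k := k), val_smul n0, H.om]
    · rw [Valuation.map_sub_swap]
      exact H.key h
  rw [← h1, ← map_mul, div_mul_cancel₀ _ h0]

theorem B.ne [CharZero k] (H : B d u) (a : K) : u.val (d a) ≠ exp (cw d u + 1) := fun e => by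
  by_cases hv : u.val a = 1
  · have := H.reg a hv.le
    rw [e, exp_le_exp] at this
    omega
  · have := H.eq a hv
    rw [e] at this
    exact hv (mul_left_cancel₀ exp_ne_zero ((mul_one _).trans this)).symm

theorem B.redN [CharZero k] (H : B d u) (n : ℕ) : ∀ φ : K, u.val φ ≤ exp (cw d u + 1 + n) →
    ∃ a : K, u.val (φ - d a) ≤ exp (cw d u + 1) := by
  induction n with
  | zero => exact fun φ h => ⟨0, by simpa using h⟩
  | succ n ih =>
    intro φ h
    have h1 : u.val (unif u ^ (-((n : ℤ) + 1))) = exp ((n : ℤ) + 1) := by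
      rw [map_zpow₀, val_unif, ← exp_zsmul]
      congr 1
      simp
    have h2 : u.val (d (unif u ^ (-((n : ℤ) + 1)))) = exp (cw d u + 1 + n + 1) := by
      rw [H.eq _ (by rw [h1, ← exp_zero, Ne, exp_inj]; omega), h1, ← exp_add, add_assoc,
        add_assoc, add_assoc]
    obtain ⟨c, hc⟩ := peel H.rs h2 (h.trans (exp_le_exp.2 (by push_cast; omega)))
    obtain ⟨a, ha⟩ := ih _ hc
    refine ⟨c • unif u ^ (-((n : ℤ) + 1)) + a, ?_⟩
    rwa [map_add, Derivation.map_smul, ← sub_sub]

theorem B.red [CharZero k] (H : B d u) (φ : K) :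
    ∃ a : K, u.val (φ - d a) ≤ exp (cw d u + 1) := by
  by_cases h0 : φ = 0
  · exact ⟨0, by simp [h0]⟩
  refine H.redN (-u.ord φ - cw d u - 1).toNat φ ?_
  rw [u.val_le_exp (u.val_ne h0)]
  omega

theorem B.ex [CharZero k] (H : B d u) (φ : K) : ∃ c, IsRes d u φ c := by
  obtain ⟨a, ha⟩ := H.red φ
  obtain ⟨c, hc⟩ := peel H.rs H.om ha
  exact ⟨c, a, by rwa [sub_right_comm]⟩

theorem B.uniq [CharZero k] (H : B d u) {φ : K} {c c' : k} (h : IsRes d u φ c)
    (h' : IsRes d u φ c') : c = c' := by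
  obtain ⟨a, ha⟩ := h
  obtain ⟨a', ha'⟩ := h'
  by_contra hne
  refine H.ne (a' - a) (val_of_sub (x := (c - c') • (d (unif u) / unif u)) ?_ ?_)
  · rw [val_smul (sub_ne_zero.2 hne), H.om]
  · have e : (c - c') • (d (unif u) / unif u) - d (a' - a) =
        (φ - c' • (d (unif u) / unif u) - d a') - (φ - c • (d (unif u) / unif u) - d a) := by
      rw [map_sub, sub_smul]
      ring
    rw [e]
    exact (u.val.map_sub _ _).trans (max_le ha' ha)

theorem B.spec [CharZero k] (H : B d u) (φ : K) : IsRes d u φ (res d u φ) := by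
  rw [res, dif_pos (H.ex φ)]
  exact (H.ex φ).choose_spec

theorem B.res_eq [CharZero k] (H : B d u) {φ : K} {c : k} (h : IsRes d u φ c) :
    res d u φ = c := H.uniq (H.spec φ) h

theorem B.loc [CharZero k] (H : B d u) : LocF d u where
  rs := H.rs
  uni π hπ := by
    rw [H.eq π (by rw [hπ, ← exp_zero, Ne, exp_inj]; omega), hπ, ← exp_add]
    congr 1
    ring
  reg := H.reg
  le := H.le
  eq := H.eq
  add φ ψ := by
    obtain ⟨a, ha⟩ := H.spec φ
    obtain ⟨b, hb⟩ := H.spec ψ
    refine H.res_eq ⟨a + b, ?_⟩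
    have e : φ + ψ - (res d u φ + res d u ψ) • (d (unif u) / unif u) - d (a + b) =
        (φ - res d u φ • (d (unif u) / unif u) - d a) +
          (ψ - res d u ψ • (d (unif u) / unif u) - d b) := by
      rw [map_add, add_smul]
      ring
    rw [e]
    exact (u.val.map_add _ _).trans (max_le ha hb)
  smul c φ := by
    obtain ⟨a, ha⟩ := H.spec φ
    refine H.res_eq ⟨c • a, ?_⟩
    rw [Derivation.map_smul, mul_smul, ← smul_sub, ← smul_sub]
    exact (val_smul_le u _ _).trans ha
  zero φ h := H.res_eq ⟨0, by simpa using h⟩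
  exact a := H.res_eq ⟨a, by simp⟩
  dlog f h hf := by
    refine H.res_eq ⟨0, ?_⟩
    have e : f * (d h / h) - (u.ev f * ((u.ord h : ℤ) : k)) • (d (unif u) / unif u) - d 0 =
        f * (d h / h - ((u.ord h : ℤ) : K) * (d (unif u) / unif u)) +
          ((u.ord h : ℤ) : k) • ((f - algebraMap k K (u.ev f)) * (d (unif u) / unif u)) := by
      rw [map_zero, Algebra.smul_def, Algebra.smul_def, map_mul, map_intCast]
      ring
    rw [e]
    refine (u.val.map_add _ _).trans (max_le ?_ ?_)
    · rw [map_mul]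
      exact (mul_le_of_le_one_left' hf).trans (H.key h)
    · exact (val_smul_le u _ _).trans (small (H.rs.ev_spec hf) H.om)
  simple φ h h0 := by
    obtain ⟨a, ha⟩ := H.spec φ
    rw [h0, zero_smul, sub_zero] at ha
    exact H.ne a (val_of_sub h ha)
  red := H.red

end RLoc

theorem rowLoc (h : StmtDer) : StmtLoc := by
  intro k K _ _ _ _ _ hK d hd u
  obtain ⟨h1, h2⟩ := h k K hK d hd
  have h0 : d (unif u) ≠ 0 := h1 _ fun ⟨c, hc⟩ => by
    have e := val_unif u
    have c0 : c ≠ 0 := fun e0 => RLoc.unif_ne u (by rw [← hc, e0, map_zero])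
    rw [← hc, u.triv c c0, ← exp_zero, exp_inj] at e
    omega
  have hv : u.val (d (unif u)) = exp (cw d u) := u.val_eq (u.val_ne h0)
  exact RLoc.B.loc ⟨H51.res hK u, hv, fun x hx => hv ▸ h2 u _ (val_unif u) x hx⟩

end Pool.Agent.MP_ee8c61_ag.M3C
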