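import Pool.Agent.MP_ee8c61_ag.M3C.Spec

/-!
Partial fractions for rational forms on the line.
-/

set_option autoImplicit false

open scoped IntermediateField
open Polynomial

namespace Pool.Agent.MP_ee8c61_ag.M3C

namespace RP1

variable {k K : Type} [Field k] [Field K] [Algebra k K] {s : K}

/-- The span of the powers of `s` and of the negative powers of `s - c`. -/
def TT (k : Type) [Field k] [Algebra k K] (s : K) : Submodule k K :=
  Submodule.span k ({x | ∃ j : ℕ, x = s ^ j} ∪
    {x | ∃ (c : k) (m : ℕ), x = ((s - algebraMap k K c)⁻¹) ^ (m + 1)})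

theorem pow_mem (j : ℕ) : s ^ j ∈ TT k s := Submodule.subset_span (Or.inl ⟨j, rfl⟩)

theorem inv_mem (c : k) (m : ℕ) : ((s - algebraMap k K c)⁻¹) ^ m ∈ TT k s := by
  cases m with
  | zero => simpa using pow_mem (k := k) (s := s) 0
  | succ m => exact Submodule.subset_span (Or.inr ⟨c, m, rfl⟩)

theorem mul_mem (hs : ∀ c : k, s - algebraMap k K c ≠ 0) {t : K} (ht : t ∈ TT k s) :
    s * t ∈ TT k s := by
  induction ht using Submodule.span_induction with
  | mem x hx =>
    rcases hx with ⟨j, rfl⟩ | ⟨c, m, rfl⟩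
    · rw [← pow_succ']; exact pow_mem _
    · have e : s * ((s - algebraMap k K c)⁻¹) ^ (m + 1) =
          ((s - algebraMap k K c)⁻¹) ^ m + c • ((s - algebraMap k K c)⁻¹) ^ (m + 1) := by
        have := hs c
        rw [Algebra.smul_def, pow_succ]
        field_simp
        ring
      rw [e]
      exact add_mem (inv_mem c m) (Submodule.smul_mem _ _ (inv_mem c _))
  | zero => simp
  | add a b _ _ h1 h2 => rw [mul_add]; exact add_mem h1 h2
  | smul c a _ h => rw [mul_smul_comm]; exact Submodule.smul_mem _ _ h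

theorem div_mem (hs : ∀ c : k, s - algebraMap k K c ≠ 0) (c : k) {t : K} (ht : t ∈ TT k s) :
    (s - algebraMap k K c)⁻¹ * t ∈ TT k s := by
  induction ht using Submodule.span_induction with
  | mem x hx =>
    rcases hx with ⟨j, rfl⟩ | ⟨c', m, rfl⟩
    · induction j with
      | zero => simpa using inv_mem (s := s) c 1
      | succ j ih => rw [pow_succ', mul_left_comm]; exact mul_mem hs ih
    · by_cases e : c' = c
      · rw [e, ← pow_succ']; exact inv_mem c _
      · have e1 : (s - algebraMap k K c)⁻¹ * (s - algebraMap k K c')⁻¹ =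
            (c - c')⁻¹ • ((s - algebraMap k K c)⁻¹ - (s - algebraMap k K c')⁻¹) := by
          have h1 := hs c
          have h2 := hs c'
          have h3 : algebraMap k K c - algebraMap k K c' ≠ 0 :=
            sub_ne_zero.2 fun h => e ((algebraMap k K).injective h).symm
          rw [Algebra.smul_def, map_inv₀, map_sub]
          field_simp
          ring
        generalize m + 1 = n
        induction n with
        | zero => simpa using inv_mem (s := s) c 1
        | succ n ih =>
          rw [pow_succ', ← mul_assoc, e1, smul_mul_assoc, sub_mul, ← pow_succ']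
          exact Submodule.smul_mem _ _ (sub_mem ih (inv_mem c' _))
  | zero => simp
  | add a b _ _ h1 h2 => rw [mul_add]; exact add_mem h1 h2
  | smul c a _ h => rw [mul_smul_comm]; exact Submodule.smul_mem _ _ h

theorem aeval_mem (p : k[X]) : aeval s p ∈ TT k s := by
  rw [aeval_eq_sum_range]
  exact Submodule.sum_mem _ fun i _ => Submodule.smul_mem _ _ (pow_mem i)

theorem prod_mem (hs : ∀ c : k, s - algebraMap k K c ≠ 0) (m : Multiset k) {t : K}
    (ht : t ∈ TT k s) : (aeval s (m.map fun a => X - C a).prod)⁻¹ * t ∈ TT k s := by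
  induction m using Multiset.induction_on with
  | empty => simpa using ht
  | cons a m ih =>
    rw [Multiset.map_cons, Multiset.prod_cons, map_mul, mul_inv, mul_assoc, map_sub, aeval_X,
      aeval_C]
    exact div_mem hs a ih

theorem mem_TT [IsAlgClosed k] (hs : ∀ c : k, s - algebraMap k K c ≠ 0) {φ : K}
    (h : φ ∈ k⟮s⟯) : φ ∈ TT k s := by
  obtain ⟨p, q, rfl⟩ := (IntermediateField.mem_adjoin_simple_iff k φ).1 h
  rw [(IsAlgClosed.splits q).eq_prod_roots, map_mul, aeval_C, div_eq_inv_mul, mul_inv,
    ← map_inv₀, mul_assoc, ← Algebra.smul_def]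
  exact Submodule.smul_mem _ _ (prod_mem hs _ (aeval_mem p))

theorem form_mem [CharZero k] (d : Derivation k K K) {t : K} (ht : t ∈ TT k s) :
    t * d s ∈ Submodule.span k ({x | ∃ a, x = d a} ∪ {x | ∃ f, x = d f / f}) := by
  induction ht using Submodule.span_induction with
  | mem x hx =>
    have ex : ∀ (n : ℕ) (a y : K), d a = ((n + 1 : ℕ) : K) * y →
        y ∈ Submodule.span k ({x | ∃ a, x = d a} ∪ {x | ∃ f, x = d f / f}) := fun n a y h => by
      have h1 : ((n + 1 : ℕ) : k) ≠ 0 := Nat.cast_ne_zero.2 n.succ_ne_zero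
      have h2 : y = ((n + 1 : ℕ) : k)⁻¹ • d a := by
        rw [h, ← map_natCast (algebraMap k K), ← Algebra.smul_def, inv_smul_smul₀ h1]
      rw [h2]
      exact Submodule.smul_mem _ _ (Submodule.subset_span (Or.inl ⟨a, rfl⟩))
    rcases hx with ⟨j, rfl⟩ | ⟨c, m, rfl⟩
    · exact ex j (s ^ (j + 1)) _ (by rw [d.leibniz_pow]; simp)
    · have e : d (s - algebraMap k K c) = d s := by rw [map_sub, d.map_algebraMap, sub_zero]
      cases m with
      | zero =>
        refine Submodule.subset_span (Or.inr ⟨s - algebraMap k K c, ?_⟩)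
        rw [e, zero_add, pow_one, div_eq_inv_mul]
      | succ m =>
        refine ex m (-((s - algebraMap k K c)⁻¹) ^ (m + 1)) _ ?_
        rw [map_neg, d.leibniz_pow, d.leibniz_inv, e]
        simp only [smul_eq_mul, nsmul_eq_mul, Nat.add_sub_cancel]
        ring
  | zero => simp
  | add a b _ _ h1 h2 => rw [add_mul]; exact add_mem h1 h2
  | smul c a _ h => rw [smul_mul_assoc]; exact Submodule.smul_mem _ _ h

theorem der_mem (d : Derivation k K K) (h1 : d s = 1) {φ : K} (h : φ ∈ k⟮s⟯) :
    d φ ∈ k⟮s⟯ := by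
  induction h using IntermediateField.adjoin_induction with
  | mem x hx => rw [Set.mem_singleton_iff.1 hx, h1]; exact one_mem _
  | algebraMap c => rw [d.map_algebraMap]; exact zero_mem _
  | add a b _ _ h2 h3 => rw [map_add]; exact add_mem h2 h3
  | inv a ha h2 =>
    rw [d.leibniz_inv, smul_eq_mul]
    exact MulMemClass.mul_mem (neg_mem (_root_.pow_mem (InvMemClass.inv_mem ha) 2)) h2
  | mul a b ha hb h2 h3 =>
    rw [d.leibniz, smul_eq_mul, smul_eq_mul]
    exact add_mem (MulMemClass.mul_mem ha h3) (MulMemClass.mul_mem hb h2)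

end RP1

theorem rowP1 : StmtP1 := fun _ _ _ _ _ _ _ d _ hs _ h =>
  ⟨RP1.form_mem d (RP1.mem_TT (fun c e => hs ⟨c, (sub_eq_zero.1 e).symm⟩) h),
    fun h1 => RP1.der_mem d h1 h⟩

end Pool.Agent.MP_ee8c61_ag.M3C
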