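import Pool.Agent.MP_ee8c61_ag.M3C.Spec

/-! The residue theorem on a curve, by reduction to the projective line through the trace. -/

set_option autoImplicit false

open WithZero Finsupp Module
open scoped IntermediateField

namespace Pool.Agent.MP_ee8c61_ag.M3C

open Pool.Agent.MP_cce4c9_lc Pool.Agent.MP_cce4c9_lc.H87

namespace RRES

variable {k K : Type} [Field k] [IsAlgClosed k] [Field K] [Algebra k K]

theorem fin_cw (hK : IsFF k K) {d : Derivation k K K} (L : ∀ u : Place k K, LocF d u) {s : K}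
    (hs : d s ≠ 0) : {u : Place k K | cw d u < 0}.Finite := by
  have hs0 : s ≠ 0 := fun h => hs (by rw [h, map_zero])
  refine ((H7.degF hK s).1.union (H7.degF hK (d s)).1).subset fun u hu => ?_
  by_contra hn
  simp only [Set.mem_union, Function.mem_support, not_or, not_not] at hn
  have h1 := (u.val_one_iff (u.val_ne hs0)).2 hn.1
  have h2 := (u.val_one_iff (u.val_ne hs)).2 hn.2
  have h3 := (L u).reg s h1.le
  rw [h2, ← exp_zero, exp_le_exp] at h3
  exact absurd hu (not_lt.2 h3)

theorem fin_bad (hK : IsFF k K) {d : Derivation k K K} (L : ∀ u : Place k K, LocF d u) {s : K}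
    (hs : d s ≠ 0) (φ : K) : {u : Place k K | ¬ u.val φ ≤ exp (cw d u)}.Finite := by
  by_cases h0 : φ = 0
  · simp [h0]
  refine ((fin_cw hK L hs).union (H7.degF hK φ).1).subset fun u hu => ?_
  by_contra hn
  simp only [Set.mem_union, Function.mem_support, not_or, not_not, Set.mem_ofPred_eq,
    not_lt] at hn
  apply hu
  rw [(u.val_one_iff (u.val_ne h0)).2 hn.2, ← exp_zero, exp_le_exp]
  exact hn.1

theorem fin_res (hK : IsFF k K) {d : Derivation k K K} (L : ∀ u : Place k K, LocF d u) {s : K}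
    (hs : d s ≠ 0) (φ : K) : (Function.support fun u : Place k K => res d u φ).Finite :=
  (fin_bad hK L hs φ).subset fun u hu h => hu ((L u).zero φ h)

theorem span_zero (hK : IsFF k K) {d : Derivation k K K} (L : ∀ u : Place k K, LocF d u) {s : K}
    (hs : d s ≠ 0) {φ : K}
    (hφ : φ ∈ Submodule.span k ({x | ∃ a, x = d a} ∪ {x | ∃ f, x = d f / f})) :
    ∑ᶠ u : Place k K, res d u φ = 0 := by
  induction hφ using Submodule.span_induction with
  | mem x hx =>
    rcases hx with ⟨a, rfl⟩ | ⟨f, rfl⟩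
    · simp [fun u => (L u).exact a]
    · have h1 : ∀ u : Place k K, res d u (d f / f) = (u.ord f : k) := fun u => by
        simpa using (L u).dlog 1 f (by simp)
      have h2 : ∑ w ∈ (dv k f).support, w.ord f = 0 := by
        rw [← (H7.degF hK f).2.1, degree_apply]
        exact Finset.sum_congr rfl fun w _ => (H9.dv_ap' H7.deg hK f w).symm
      rw [finsum_eq_sum_of_support_subset (s := (dv k f).support)]
      · simp only [h1]
        rw [← Int.cast_sum, h2, Int.cast_zero]
      · intro u hu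
        rw [Function.mem_support, h1] at hu
        rw [Finset.mem_coe, Finsupp.mem_support_iff, H9.dv_ap' H7.deg hK]
        intro h
        exact hu (by rw [h, Int.cast_zero])
  | zero => simp [fun u => (L u).zero 0 (by simp)]
  | add x y _ _ hx hy =>
    simp only [fun u => (L u).add x y]
    rw [finsum_add_distrib (fin_res hK L hs x) (fin_res hK L hs y), hx, hy, add_zero]
  | smul c x _ hx =>
    simp only [fun u => (L u).smul c x]
    rw [← mul_finsum' _ _ (fin_res hK L hs x), hx, mul_zero]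

variable {E : Type} [Field E] [Algebra k E] [Algebra E K]

omit [IsAlgClosed k] in
theorem ov_ev [IsScalarTower k E K] {y : Place k K} {x : Place k E} {e : ℕ} (H : Over y x e)
    (hx : x.Res) {g : E} (hg : x.val g ≤ 1) : y.ev (algebraMap E K g) = x.ev g := by
  apply y.ev_eq
  rw [IsScalarTower.algebraMap_apply k E K, ← map_sub, H9.ov_lt H]
  exact hx.ev_spec hg

theorem fibre (hT : StmtTr) (hV : StmtTrEv) (hA : StmtApx) [IsScalarTower k E K]
    [FiniteDimensional E K] (hK : IsFF k K) (hE : IsFF k E) {d : Derivation k K K}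
    (L : ∀ u : Place k K, LocF d u) {s : K} (hs : d s ≠ 0)
    (hδ : ∀ x : E, ((d s)⁻¹ • d) (algebraMap E K x) ∈ Set.range (algebraMap E K))
    {dn : Place k K → Place k E} {e : Place k K → ℕ} (hov : ∀ y, Over y (dn y) (e y))
    (x : Place k E) (S : Finset (Place k K)) (hS : ∀ y, y ∈ S ↔ dn y = x)
    (hn : ∑ y ∈ S, e y = finrank E K) (h : K) :
    ∑ y ∈ S, res d y (algebraMap E K (Algebra.trace E K h) * d s) =
      (finrank E K : k) * ∑ y ∈ S, res d y (h * d s) := by
  rcases S.eq_empty_or_nonempty with rfl | ⟨y₀, hy₀⟩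
  · simp
  choose a ha using fun y : Place k K => (L y).red (h * d s)
  obtain ⟨b, hb⟩ := hA k K hK S a
  obtain ⟨π, hπ⟩ := x.exists_unif
  have hπ0 : π ≠ 0 := fun h0 => by
    rw [h0, map_zero] at hπ
    exact exp_ne_zero hπ.symm
  have ht0 : algebraMap E K π ≠ 0 := by simpa using hπ0
  have hov' : ∀ y ∈ S, Over y x (e y) := fun y hy => (hS y).1 hy ▸ hov y
  have hw : ∀ y ∈ S, y.val (d (algebraMap E K π) / algebraMap E K π) = exp (cw d y + 1) :=
    fun y hy => by
      have h1 : y.val (algebraMap E K π) < 1 := by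
        rw [H9.ov_lt (hov' y hy), hπ, ← exp_zero, exp_lt_exp]; omega
      rw [map_div₀, (L y).eq _ h1.ne, mul_div_assoc, div_self (y.val_ne ht0), mul_one]
  have hord : ∀ y ∈ S, y.ord (algebraMap E K π) = e y := fun y hy => by
    rw [H9.ov_ord (hov' y hy), x.ord_eq hπ, mul_one]
  generalize hwd : d (algebraMap E K π) / algebraMap E K π = w at hw
  have hw0 : w ≠ 0 := fun h0 => by
    have := hw y₀ hy₀
    rw [h0, map_zero] at this
    exact exp_ne_zero this.symm
  obtain ⟨f, hf⟩ : ∃ f, f = (h * d s - d b) / w := ⟨_, rfl⟩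
  have hf1 : ∀ y ∈ S, y.val f ≤ 1 := fun y hy => by
    have h1 : y.val (h * d s - d b) ≤ exp (cw d y + 1) := by
      rw [show h * d s - d b = (h * d s - d (a y)) - d (b - a y) by rw [map_sub]; ring]
      refine (y.val.map_sub _ _).trans (max_le (ha y) (((L y).reg _ (hb y hy)).trans ?_))
      rw [exp_le_exp]; omega
    rw [hf, map_div₀, hw y hy]
    exact div_le_one_of_le₀ h1 zero_le
  have e1 : h * d s = d b + f * w := by rw [hf, div_mul_cancel₀ _ hw0]; ring
  obtain ⟨c, hc⟩ := hδ π
  rw [Derivation.smul_apply, smul_eq_mul] at hc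
  have e2 : algebraMap E K (c / π) * d s = w := by
    rw [map_div₀, hc, ← hwd]; field_simp
  have e3 : h = ((d s)⁻¹ • d) b + (c / π) • f := by
    apply mul_right_cancel₀ hs
    rw [e1, Derivation.smul_apply, smul_eq_mul, Algebra.smul_def, ← e2]; field_simp
  have e4 : algebraMap E K (Algebra.trace E K h) * d s =
      d (algebraMap E K (Algebra.trace E K b)) + algebraMap E K (Algebra.trace E K f) * w := by
    rw [e3, map_add, map_add, ← hT k E K _ hδ b, map_smul, smul_eq_mul, map_mul,
      Derivation.smul_apply, smul_eq_mul, ← e2]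
    field_simp
  obtain ⟨v1, v2⟩ := hV k E K hE dn e hov f x S hS hf1
  have r1 : ∀ y ∈ S, res d y (algebraMap E K (Algebra.trace E K h) * d s) =
      x.ev (Algebra.trace E K f) * (e y : k) := fun y hy => by
    rw [e4, (L y).add, (L y).exact, zero_add, ← hwd,
      (L y).dlog _ _ ((H9.ov_le (hov' y hy) _).2 v1), hord y hy,
      ov_ev (hov' y hy) (H51.res hE x) v1, Int.cast_natCast]
  have r2 : ∀ y ∈ S, res d y (h * d s) = (e y : k) * y.ev f := fun y hy => by
    rw [e1, (L y).add, (L y).exact, zero_add, ← hwd, (L y).dlog _ _ (hf1 y hy), hord y hy,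
      Int.cast_natCast, mul_comm]
  rw [Finset.sum_congr rfl r1, Finset.sum_congr rfl r2, ← v2, ← Finset.mul_sum, ← Nat.cast_sum, hn,
    mul_comm]

theorem total (hT : StmtTr) (hV : StmtTrEv) (hA : StmtApx) [IsScalarTower k E K]
    [FiniteDimensional E K] (hK : IsFF k K) (hE : IsFF k E) {d : Derivation k K K}
    (L : ∀ u : Place k K, LocF d u) {s : K} (hs : d s ≠ 0)
    (hδ : ∀ x : E, ((d s)⁻¹ • d) (algebraMap E K x) ∈ Set.range (algebraMap E K)) (h : K) :
    ∑ᶠ y : Place k K, res d y (algebraMap E K (Algebra.trace E K h) * d s) =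
      (finrank E K : k) * ∑ᶠ y : Place k K, res d y (h * d s) := by
  classical
  obtain ⟨dn, e, hov, hfib⟩ := H7.ext k E K hE
  choose S hS hn using hfib
  have F1 := fin_res hK L hs (algebraMap E K (Algebra.trace E K h) * d s)
  have F2 := fin_res hK L hs (h * d s)
  obtain ⟨X, hX⟩ : ∃ X : Finset (Place k E), X = (F1.union F2).toFinset.image dn := ⟨_, rfl⟩
  have hsub : ∀ y, y ∈ (F1.union F2).toFinset → y ∈ X.biUnion S := fun y hy =>
    Finset.mem_biUnion.2 ⟨dn y, hX ▸ Finset.mem_image_of_mem dn hy, (hS _ y).2 rfl⟩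
  have hdis : Set.PairwiseDisjoint (X : Set (Place k E)) S := fun x _ x' _ hne =>
    Finset.disjoint_left.2 fun y h1 h2 => hne (((hS x y).1 h1).symm.trans ((hS x' y).1 h2))
  rw [finsum_eq_sum_of_support_subset (s := X.biUnion S) _
      (fun y hy => hsub y ((Set.Finite.mem_toFinset _).2 (Or.inl hy))),
    finsum_eq_sum_of_support_subset (s := X.biUnion S) _
      (fun y hy => hsub y ((Set.Finite.mem_toFinset _).2 (Or.inr hy))),
    Finset.sum_biUnion hdis, Finset.sum_biUnion hdis, Finset.mul_sum]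
  exact Finset.sum_congr rfl fun x _ => fibre hT hV hA hK hE L hs hδ hov x (S x) (hS x) (hn x) h

end RRES

theorem rowRES (_hD : StmtDer) (hL : StmtLoc) (hT : StmtTr) (hE : StmtTrEv) (hA : StmtApx)
    (hP : StmtP1) : StmtRES := by
  intro k K _ _ _ _ _ hK d hd
  have L := hL k K hK d hd
  obtain ⟨s, hs⟩ : ∃ s, d s ≠ 0 := by
    by_contra! h
    exact hd (Derivation.ext h)
  have hc : s ∉ Set.range (algebraMap k K) := by
    rintro ⟨c, rfl⟩
    exact hs (d.map_algebraMap c)
  refine ⟨RRES.fin_cw hK L hs, fun φ => ⟨RRES.fin_bad hK L hs φ, fun S hS => ?_⟩⟩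
  have := H9.fd' hK hc
  have hσ : IntermediateField.AdjoinSimple.gen k s ∉ Set.range (algebraMap k k⟮s⟯) := by
    rintro ⟨c, h⟩
    exact hc ⟨c, congrArg Subtype.val h⟩
  have hF : IsFF k k⟮s⟯ := H9.ff_of_top hσ (H9.adj_gen s)
  have hδ : ∀ x : k⟮s⟯, ((d s)⁻¹ • d) (algebraMap k⟮s⟯ K x) ∈ Set.range (algebraMap k⟮s⟯ K) :=
    fun x => ⟨⟨_, (hP k K ((d s)⁻¹ • d) s hc x x.2).2 (by
      rw [Derivation.smul_apply, smul_eq_mul, inv_mul_cancel₀ hs])⟩, rfl⟩
  have h1 := RRES.total hT hE hA hK hF L hs hδ (φ / d s)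
  rw [RRES.span_zero hK L hs (φ := algebraMap k⟮s⟯ K (Algebra.trace k⟮s⟯ K (φ / d s)) * d s)
    (hP k K d s hc _ (Algebra.trace k⟮s⟯ K (φ / d s)).2).1, div_mul_cancel₀ _ hs] at h1
  have h2 : (finrank k⟮s⟯ K : k) ≠ 0 := Nat.cast_ne_zero.2 finrank_pos.ne'
  rw [← finsum_eq_sum_of_support_subset (s := S) _ (fun u hu => by
    by_contra h
    exact hu (hS u h))]
  exact (mul_eq_zero.1 h1.symm).resolve_left h2

end Pool.Agent.MP_ee8c61_ag.M3C
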