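import Pool.Agent.MP_ee8c61_ag.M3C.Spec

/-!
The residue pairing at a place kills exactly the forms that vanish on the divisor.
-/

set_option autoImplicit false

open WithZero Finsupp Module

namespace Pool.Agent.MP_ee8c61_ag.M3C

open Pool.Agent.MP_cce4c9_lc.H87
open Pool.Agent.MP_cce4c9_lc

namespace RTheta

variable {k K : Type} [Field k] [Field K] [Algebra k K]

theorem val_mul_le (v : Place k K) {a h : K} {m n : ℤ} (ha : v.val a ≤ exp m)
    (hh : v.val h ≤ exp n) : v.val (a * h) ≤ exp (m + n) := by
  rw [map_mul, exp_add]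
  exact mul_le_mul' ha hh

theorem eq_of_not_le (v : Place k K) {a : K} {m : ℤ} (h1 : v.val a ≤ exp m)
    (h2 : ¬ v.val a ≤ exp (m - 1)) : v.val a = exp m := by
  have h0 : v.val a ≠ 0 := fun h => h2 (by rw [h]; exact zero_le)
  rw [v.val_le_exp h0] at h1 h2
  rw [v.val_eq h0]
  congr 1
  omega

/-- A function with prescribed exact pole order at `u`, bounded by `E` off `u` and `P`. -/
theorem exists_exact [IsAlgClosed k] (hK : IsFF k K) (E : Dv k K) (u P : Place k K) (hu : u ≠ P)
    (m : ℤ) : ∃ a : K, u.val a = exp m ∧ ∀ v, v ≠ u → v ≠ P → v.val a ≤ exp (E v) := by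
  classical
  obtain ⟨g, hg⟩ := H7.genus hK
  set D1 : Dv k K := E.update u m with hD1
  set D' : Dv k K := D1 + single P (2 * (g : ℤ) + 1 - D1.degree) with hD'
  have hdeg : D'.degree = 2 * (g : ℤ) + 1 := by
    rw [hD', map_add, degree_single]; ring
  have hdeg2 : (D' - single u 1).degree = 2 * (g : ℤ) := by
    rw [map_sub, hdeg, degree_single]; ring
  have e1 := hg.eq D' (by omega)
  have e2 := hg.eq (D' - single u 1) (by omega)
  have hne : ¬ LL D' ≤ LL (D' - single u 1) := fun hle => by
    have := hg.fin (D' - single u 1)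
    have := Submodule.finrank_mono hle
    omega
  obtain ⟨a, ha, hb⟩ := SetLike.not_le_iff_exists.1 hne
  have hu' : D' u = m := by
    rw [hD', Finsupp.add_apply, single_eq_of_ne hu, hD1, update_apply, if_pos rfl, add_zero]
  refine ⟨a, ?_, fun v hv hP => ?_⟩
  · refine eq_of_not_le u (hu' ▸ ha u) fun hle => hb fun v => ?_
    by_cases hv : v = u
    · subst hv
      rw [Finsupp.sub_apply, single_eq_same, hu']
      exact hle
    · rw [Finsupp.sub_apply, single_eq_of_ne hv, sub_zero]
      exact ha v
  · have := ha v
    rwa [hD', Finsupp.add_apply, single_eq_of_ne hP, hD1, update_apply, if_neg hv,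
      add_zero] at this

end RTheta

open RTheta in
theorem rowTheta (hL : StmtLoc) (hR : StmtRES) : StmtTheta := by
  intro k K _ _ _ _ _ hK d hd P D h
  classical
  have L := hL k K hK d hd
  obtain ⟨hfin, R⟩ := hR k K hK d hd
  constructor
  · intro H u
    by_contra hu
    have h0 : u.val h ≠ 0 := fun h => hu (by rw [h]; exact zero_le)
    have hh : h ≠ 0 := by rintro rfl; exact h0 (map_zero _)
    rw [u.val_le_exp h0] at hu
    have key : ∀ a : K, u.val a = exp (u.ord h + cw d u + 1) → res d u (a * h) ≠ 0 := by
      intro a ha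
      refine (L u).simple _ ?_
      rw [map_mul, ha, u.val_eq h0, ← exp_add]
      congr 1
      ring
    by_cases hP : u = P
    · subst hP
      have ha : u.val (unif u ^ (-(u.ord h + cw d u + 1))) = exp (u.ord h + cw d u + 1) := by
        rw [map_zpow₀, val_unif, ← exp_zsmul]
        congr 1
        simp
      refine key _ ha (H _ (Submodule.mem_sup_right ?_))
      show u.val _ ≤ _
      rw [ha, exp_le_exp]
      omega
    · have hsup : (Function.support fun v : Place k K => min (cw d v) 0).Finite :=
        hfin.subset fun v hv => by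
          by_contra hlt
          exact hv (min_eq_right (not_lt.1 hlt))
      set C : Dv k K := Finsupp.ofSupportFinite _ hsup with hC
      have hCv : ∀ v, C v = min (cw d v) 0 := fun v => by
        rw [hC, Finsupp.ofSupportFinite_coe]
      obtain ⟨a, ha, hb⟩ := exists_exact hK (D ⊓ (dv k h + C)) u P hP (u.ord h + cw d u + 1)
      have hb' : ∀ v, v ≠ u → v ≠ P →
          v.val a ≤ exp (min (D v) (v.ord h + min (cw d v) 0)) := fun v h1 h2 => by
        have := hb v h1 h2
        rwa [Finsupp.inf_apply, Finsupp.add_apply, hCv, dv_apply (H7.degF hK h).1] at this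
      have hRP : a ∈ RP P D := by
        intro v hv
        by_cases hvu : v = u
        · subst hvu
          rw [ha, exp_le_exp]
          omega
        · exact (hb' v hvu hv).trans (exp_le_exp.2 (min_le_left _ _))
      have h1 := H a (Submodule.mem_sup_left hRP)
      have h2 := (R (a * h)).2 {u, P} fun v hv => by
        rw [Finset.mem_insert, Finset.mem_singleton, not_or] at hv
        refine (L v).zero _ ((val_mul_le v (hb' v hv.1 hv.2)
          (v.val_eq (v.val_ne hh)).le).trans (exp_le_exp.2 ?_))
        omega
      rw [Finset.sum_pair hP, h1, add_zero] at h2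
      exact key a ha h2
  · intro H a ha
    obtain ⟨r, hr, o, ho, rfl⟩ := Submodule.mem_sup.1 ha
    have h1 : res d P (o * h) = 0 :=
      (L P).zero _ ((val_mul_le P ho (H P)).trans (exp_le_exp.2 (by omega)))
    have h2 := (R (r * h)).2 {P} fun v hv => by
      rw [Finset.mem_singleton] at hv
      exact (L v).zero _ ((val_mul_le v (hr v hv) (H v)).trans (exp_le_exp.2 (by omega)))
    rw [Finset.sum_singleton] at h2
    rw [add_mul, (L P).add, h1, h2, add_zero]

end Pool.Agent.MP_ee8c61_ag.M3C
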