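import Pool.Agent.MP_ee8c61_ag.M3C.Spec

/-! The trace commutes with a derivation that preserves the subfield. -/

set_option autoImplicit false

open Module

namespace Pool.Agent.MP_ee8c61_ag.M3C

namespace RTr

variable {k E K ι : Type} [Field k] [Field E] [Field K] [Algebra k K] [Algebra E K] [Fintype ι]

theorem trace_eq [DecidableEq ι] (b : Basis ι E K) (h : K) :
    Algebra.trace E K h = ∑ j, b.repr (h * b j) j := by
  rw [Algebra.trace_eq_matrix_trace b, Matrix.trace]
  exact Finset.sum_congr rfl fun j _ => Algebra.leftMulMatrix_eq_repr_mul b h j j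

theorem repr_mul (b : Basis ι E K) (h y : K) (i : ι) :
    b.repr (h * y) i = ∑ l, b.repr y l * b.repr (h * b l) i := by
  conv_lhs => rw [← b.sum_repr y, Finset.mul_sum]
  rw [map_sum, Finsupp.finsetSum_apply]
  refine Finset.sum_congr rfl fun l _ => ?_
  rw [mul_smul_comm, map_smul, Finsupp.smul_apply, smul_eq_mul]

theorem repr_d (b : Basis ι E K) (d : Derivation k K K) (δ : E → E)
    (hδ : ∀ x, algebraMap E K (δ x) = d (algebraMap E K x)) (y : K) (i : ι) :
    b.repr (d y) i = δ (b.repr y i) + ∑ l, b.repr y l * b.repr (d (b l)) i := by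
  have h1 : d y = ∑ l, δ (b.repr y l) • b l + ∑ l, b.repr y l • d (b l) := by
    conv_lhs => rw [← b.sum_repr y]
    rw [map_sum, ← Finset.sum_add_distrib]
    refine Finset.sum_congr rfl fun l _ => ?_
    rw [Algebra.smul_def, Algebra.smul_def, Algebra.smul_def, Derivation.leibniz, hδ,
      smul_eq_mul, smul_eq_mul]
    ring
  rw [h1, map_add, Finsupp.add_apply, b.repr_sum_self, map_sum, Finsupp.finsetSum_apply]
  refine congrArg _ (Finset.sum_congr rfl fun l _ => ?_)
  rw [map_smul, Finsupp.smul_apply, smul_eq_mul]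

end RTr

theorem rowTr : StmtTr := by
  intro k E K _ _ _ _ _ _ d hd h
  classical
  choose δ hδ using hd
  let b := Module.finBasis E K
  have h1 : ∀ j, b.repr (d h * b j) j + ∑ l, b.repr (d (b j)) l * b.repr (h * b l) j =
      δ (b.repr (h * b j) j) + ∑ l, b.repr (h * b j) l * b.repr (d (b l)) j := by
    intro j
    rw [← RTr.repr_d b d δ hδ, ← RTr.repr_mul, Derivation.leibniz, smul_eq_mul, smul_eq_mul,
      map_add, Finsupp.add_apply, mul_comm (b j), add_comm]
  have h2 := Finset.sum_congr (s₁ := Finset.univ) rfl fun j _ => h1 j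
  rw [Finset.sum_add_distrib, Finset.sum_add_distrib, Finset.sum_comm] at h2
  have h3 : ∑ j, b.repr (d h * b j) j = ∑ j, δ (b.repr (h * b j) j) := by
    refine add_right_cancel (h2.trans (congrArg _ ?_))
    exact Finset.sum_congr rfl fun j _ => Finset.sum_congr rfl fun l _ => mul_comm _ _
  rw [RTr.trace_eq b, RTr.trace_eq b, h3, map_sum, map_sum, map_sum]
  exact Finset.sum_congr rfl fun j _ => (hδ _).symm

end Pool.Agent.MP_ee8c61_ag.M3C
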