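import Pool.Agent.MP_ee8c61_ag.M3C.Spec

/-! The value of a trace at a place. -/

set_option autoImplicit false

open WithZero Finsupp Module
open scoped IntermediateField

namespace Pool.Agent.MP_ee8c61_ag.M3C

open Pool.Agent.MP_cce4c9_lc.H87

namespace RTrEv

open Polynomial

variable {k K : Type} [Field k] [Field K] [Algebra k K]

/-- A polynomial that is small at infinitely many constants has small coefficients. -/
theorem coeff_lt (x : Place k K) (n : ℕ) : ∀ (r : K[X]) (T : Set k), r.natDegree ≤ n →
    T.Infinite → (∀ t ∈ T, x.val (r.eval (algebraMap k K t)) < 1) →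
      ∀ i, x.val (r.coeff i) < 1 := by
  induction n with
  | zero =>
    intro r T hr hT h i
    obtain ⟨a, ha⟩ := hT.nonempty
    have h1 := h a ha
    rw [eq_C_of_natDegree_le_zero hr, eval_C] at h1
    rw [eq_C_of_natDegree_le_zero hr, coeff_C]
    split_ifs
    · exact h1
    · simp
  | succ n ih =>
    intro r T hr hT h i
    obtain ⟨a, ha⟩ := hT.nonempty
    have hm : (X - C (algebraMap k K a)).Monic := monic_X_sub_C _
    have hd := modByMonic_add_div r (X - C (algebraMap k K a))
    rw [modByMonic_X_sub_C_eq_C_eval] at hd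
    have hn : (r /ₘ (X - C (algebraMap k K a))).natDegree ≤ n := by
      rw [natDegree_divByMonic r hm, natDegree_X_sub_C]
      omega
    generalize r /ₘ (X - C (algebraMap k K a)) = s at hd hn
    have hs := ih s (T \ {a}) hn (hT.sdiff (Set.finite_singleton a)) fun t ht => by
      have h1 := congrArg (eval (algebraMap k K t)) hd
      rw [eval_add, eval_C, eval_mul, eval_sub, eval_X, eval_C, ← map_sub] at h1
      have h2 := x.triv (t - a) (sub_ne_zero.2 ht.2)
      have h3 : x.val (s.eval (algebraMap k K t)) =
          x.val (r.eval (algebraMap k K t) - r.eval (algebraMap k K a)) := by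
        rw [← h1, add_sub_cancel_left, map_mul, h2, one_mul]
      rw [h3]
      exact (x.val.map_sub _ _).trans_lt (max_lt (h t ht.1) (h a ha))
    have h4 : ∀ j, x.val (algebraMap k K a * s.coeff j) < 1 := fun j => by
      rw [map_mul]
      exact (mul_le_of_le_one_left' (x.const_le a)).trans_lt (hs j)
    have h5 := h a ha
    generalize r.eval (algebraMap k K a) = c at hd h5
    rw [← hd, sub_mul, coeff_add, coeff_sub, coeff_C_mul]
    refine (x.val.map_add _ _).trans_lt (max_lt ?_ ((x.val.map_sub _ _).trans_lt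
      (max_lt ?_ (h4 i))))
    · rw [coeff_C]
      split_ifs
      · exact h5
      · simp
    · cases i with
      | zero => simp
      | succ j => rw [coeff_X_mul]; exact hs j

theorem prod_coeff {ι : Type} (S : Finset ι) (a : ι → k) (e : ι → ℕ) :
    (∏ y ∈ S, (1 + C (a y) * X) ^ e y : k[X]).coeff 1 = ∑ y ∈ S, (e y : k) * a y := by
  classical
  have key : (∏ y ∈ S, (1 + C (a y) * X) ^ e y : k[X]).eval 0 = 1 ∧
      (derivative (∏ y ∈ S, (1 + C (a y) * X) ^ e y : k[X])).eval 0 =
        ∑ y ∈ S, (e y : k) * a y := by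
    induction S using Finset.induction_on with
    | empty => simp
    | insert y S hy ih =>
      rw [Finset.prod_insert hy, Finset.sum_insert hy, derivative_mul, eval_mul, eval_add,
        eval_mul, eval_mul, ih.1, ih.2]
      simp [derivative_pow]
  rw [← key.2, ← coeff_zero_eq_eval_zero, coeff_derivative]
  simp

theorem norm_poly {L : Type} [Field L] [Algebra K L] [FiniteDimensional K L] (f : L) :
    ∃ p : K[X], p.coeff 1 = Algebra.trace K L f ∧
      ∀ t : K, p.eval t = Algebra.norm K (1 + algebraMap K L t * f) := by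
  classical
  let b := Module.finBasis K L
  refine ⟨Matrix.det (1 + (X : K[X]) • (Algebra.leftMulMatrix b f).map C), ?_, fun t => ?_⟩
  · rw [Matrix.coeff_det_one_add_X_smul_one, Algebra.trace_eq_matrix_trace b]
  · rw [Algebra.norm_eq_matrix_det b, ← Algebra.smul_def, map_add, map_one, map_smul,
      ← coe_evalRingHom, RingHom.map_det]
    congr 1
    ext i j
    rw [RingHom.mapMatrix_apply, Matrix.map_apply, Matrix.add_apply, Matrix.add_apply,
      Matrix.smul_apply, Matrix.smul_apply, Matrix.map_apply, smul_eq_mul, smul_eq_mul,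
      coe_evalRingHom, eval_add, eval_mul, eval_X, eval_C, Matrix.one_apply, Matrix.one_apply]
    split_ifs
    · rw [eval_one]
    · rw [eval_zero]

end RTrEv

open Polynomial in
theorem rowTrEv : StmtTrEv := by
  intro k K L _ _ _ _ _ _ _ _ _ hK dn e hO f x S hS hf
  obtain ⟨p, hp, hpt⟩ := RTrEv.norm_poly (K := K) f
  have hx := Pool.Agent.MP_cce4c9_lc.H51.res hK x
  have h := RTrEv.coeff_lt x _
    (p - (∏ y ∈ S, (1 + C (y.ev f) * X) ^ e y : k[X]).map (algebraMap k K)) Set.univ le_rfl
    Set.infinite_univ (fun t _ => by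
      have h1 : ∀ y ∈ S, y.val (algebraMap k L t * f) ≤ 1 := fun y hy => by
        rw [map_mul]
        exact mul_le_one' (y.const_le t) (hf y hy)
      obtain ⟨h2, h3⟩ := (Pool.Agent.MP_cce4c9_lc.H7.nrm k K L hK dn e hO
        (1 + algebraMap k L t * f)).2 x S hS fun y hy =>
          (y.val.map_add _ _).trans (max_le (by simp) (h1 y hy))
      have h4 : (∏ y ∈ S, (1 + C (y.ev f) * X) ^ e y : k[X]).eval t =
          ∏ y ∈ S, y.ev (1 + algebraMap k L t * f) ^ e y := by
        rw [eval_prod]
        refine Finset.prod_congr rfl fun y hy => ?_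
        have hy' := Pool.Agent.MP_cce4c9_lc.H30.resL (K := K) hK y
        rw [hy'.ev_add (by simp) (h1 y hy), hy'.ev_mul (y.const_le t) (hf y hy), Place.ev_one,
          Place.ev_const, eval_pow, eval_add, eval_one, eval_mul, eval_C, eval_X, mul_comm]
      rw [eval_sub, eval_map_algebraMap, aeval_algebraMap_apply, coe_aeval_eq_eval, h4, ← h3, hpt,
        ← IsScalarTower.algebraMap_apply]
      exact hx.ev_spec h2) 1
  rw [coeff_sub, coeff_map, RTrEv.prod_coeff, hp] at h
  exact ⟨x.le_of_sub_lt h, x.ev_eq h⟩

end Pool.Agent.MP_ee8c61_ag.M3C
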