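import Pool.Agent.MP_ee8c61_ag.M3C.RG0

/-!
Sections on a curve of a smooth projective surface.
-/

set_option autoImplicit false

namespace Pool.Agent.MP_ee8c61_ag.M3C

open Pool.Agent.MP_96693b_ag.RS Pool.Agent.MP_cce4c9_lc.H87 Pool.Agent.MP_ee8c61_ag.M3S
  Pool.Agent.MP_cce4c9_lc WithZero Finsupp Module G0

namespace RWC

variable {K : Type} [Field K] [Algebra ℂ K] {M : Model K 2} {C : Crv M} {p p' : M.P}
  {y y' : Place ℂ (Rf C.1)} {u u0 : K}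

/-- The homogeneous coordinates of the curve. -/
def Ub (C : Crv M) (u0 : K) : Set (Rf C.1) := (fun u => M3S.res C.1 (u / u0)) '' M.U

theorem ratio (h0 : ∀ w ∈ M.U, C.1.val (w / u0) ≤ 1) (hu0 : u0 ∈ M.U) (n0 : u0 ≠ 0)
    (hu : u ∈ M.U) (n1 : u ≠ 0) (h : ∀ w ∈ M.U, C.1.val (w / u) ≤ 1) :
    M3S.res C.1 (u / u0) ≠ 0 ∧
      ∀ w ∈ M.U, M3S.res C.1 (w / u0) / M3S.res C.1 (u / u0) = M3S.res C.1 (w / u) := by
  have h1 : C.1.val (u / u0) = 1 := by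
    have h2 := h u0 hu0
    rw [← inv_div, map_inv₀, inv_le_one₀ (zero_lt_iff.2 (C.1.val_ne (div_ne_zero n1 n0)))] at h2
    exact le_antisymm (h0 u hu) h2
  refine ⟨res_ne h1, fun w hw => ?_⟩
  rw [← res_div (h0 w hw) h1]
  congr 1
  field_simp

theorem ch_res {A : Subalgebra ℂ (Rf C.1)} (hle : ∀ g ∈ chA M.U u, C.1.val g ≤ 1)
    (h : ∀ w ∈ M.U, M3S.res C.1 (w / u) ∈ A) : ∀ g ∈ chA M.U u, M3S.res C.1 g ∈ A := by
  intro g hg
  induction hg using Algebra.adjoin_induction with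
  | mem x hx =>
    obtain ⟨w, hw, rfl⟩ := hx
    exact h w hw
  | algebraMap r => rw [res_const]; exact A.algebraMap_mem r
  | add a b ha hb h1 h2 => rw [res_add (hle a ha) (hle b hb)]; exact add_mem h1 h2
  | mul a b ha hb h1 h2 => rw [res_mul (hle a ha) (hle b hb)]; exact mul_mem h1 h2

theorem ch_lift (hle : ∀ g ∈ chA M.U u, C.1.val g ≤ 1)
    (h : ∀ w ∈ M.U, M3S.res C.1 (w / u0) / M3S.res C.1 (u / u0) = M3S.res C.1 (w / u)) :
    ∀ s ∈ chR (k := ℂ) (Ub C u0) (M3S.res C.1 (u / u0)), ∃ g ∈ chA M.U u, M3S.res C.1 g = s := by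
  intro s hs
  induction hs using Algebra.adjoin_induction with
  | mem x hx =>
    obtain ⟨_, ⟨w, hw, rfl⟩, rfl⟩ := hx
    exact ⟨w / u, div_mem_chA hw, (h w hw).symm⟩
  | algebraMap r => exact ⟨_, (chA M.U u).algebraMap_mem r, res_const r⟩
  | add a b _ _ h1 h2 =>
    obtain ⟨a, ha, rfl⟩ := h1
    obtain ⟨b, hb, rfl⟩ := h2
    exact ⟨a + b, add_mem ha hb, res_add (hle a ha) (hle b hb)⟩
  | mul a b _ _ h1 h2 =>
    obtain ⟨a, ha, rfl⟩ := h1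
    obtain ⟨b, hb, rfl⟩ := h2
    exact ⟨a * b, mul_mem ha hb, res_mul (hle a ha) (hle b hb)⟩

/-- The images of the local rings form a singular model of the curve. -/
theorem sing (h2 : StmtWC2) (B : Bas M) (C : Crv M) :
    ∃ (O : Place ℂ (Rf C.1) → Subalgebra ℂ (Rf C.1)) (c : Dv ℂ (Rf C.1)), Sing O c ∧
      ∀ y p, Ctr C y p → ∀ s, s ∈ O y ↔ ∃ g ∈ (M.loc p).O, s = M3S.res C.1 g := by
  obtain ⟨p0, hp0, -⟩ := C.2
  obtain ⟨u0, hu0, n0, hL0⟩ := p0.2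
  have h0 : ∀ w ∈ M.U, C.1.val (w / u0) ≤ 1 := fun w hw => hp0 _ (hL0.le (div_mem_chA hw))
  have gen : IntermediateField.adjoin ℂ (Set.image2 (· / ·) (Ub C u0) (Ub C u0)) = ⊤ := by
    set E := IntermediateField.adjoin ℂ (Set.image2 (· / ·) (Ub C u0) (Ub C u0))
    have h1 : ∀ g ∈ chA M.U u0, M3S.res C.1 g ∈ E :=
      ch_res (A := E.toSubalgebra) (fun g hg => hp0 g (hL0.le hg)) fun w hw =>
        IntermediateField.subset_adjoin _ _ ⟨_, ⟨w, hw, rfl⟩, _, ⟨u0, hu0, rfl⟩, by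
          simp only [div_self n0, res_one, div_one]⟩
    have h3 : ∀ g ∈ (M.loc p0).O, M3S.res C.1 g ∈ E := fun g hg => by
      obtain ⟨a, ha, b, hb, b0, e⟩ := hL0.frac g hg
      have h4 := val_unit hp0 b0
      have h5 := res_mul (hp0 g hg) h4.le
      rw [e] at h5
      rw [eq_div_of_mul_eq (res_ne h4) h5.symm]
      exact div_mem (h1 a ha) (h1 b hb)
    refine top_le_iff.1 fun s _ => ?_
    obtain ⟨f, hf, rfl⟩ := res_surj s
    obtain ⟨a, ha, b, hb, h4, e⟩ := B.frac C p0 hp0 f hf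
    have h5 := res_mul hf h4.le
    rw [e] at h5
    rw [eq_div_of_mul_eq (res_ne h4) h5.symm]
    exact div_mem (h3 a ha) (h3 b hb)
  obtain ⟨O, c, hS, hA, hE, -⟩ := h2 ℂ (Rf C.1) (B.ff C) (Ub C u0) (M.fin.image _) gen
  refine ⟨O, c, hS, fun y p h s => ?_⟩
  obtain ⟨u, hu, n1, hL⟩ := p.2
  have hle : ∀ g ∈ chA M.U u, C.1.val g ≤ 1 := fun g hg => h.1 g (hL.le hg)
  obtain ⟨r0, r1⟩ := ratio h0 hu0 n0 hu n1 fun w hw => hle _ (div_mem_chA hw)
  have hmax : ∀ w ∈ Ub C u0, y.val w ≤ y.val (M3S.res C.1 (u / u0)) := by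
    rintro _ ⟨w, hw, rfl⟩
    have := h.2 _ (hL.le (div_mem_chA hw))
    rwa [← r1 w hw, map_div₀, div_le_one₀ (zero_lt_iff.2 (y.val_ne r0))] at this
  have hres := ch_res (A := chR (k := ℂ) (Ub C u0) (M3S.res C.1 (u / u0))) hle fun w hw =>
    r1 w hw ▸ Algebra.subset_adjoin ⟨_, ⟨w, hw, rfl⟩, rfl⟩
  constructor
  · intro hs
    obtain ⟨t, ht, t1, hts⟩ := (hA y s).1 hs _ ⟨u, hu, rfl⟩ r0 hmax
    obtain ⟨b, hb, rfl⟩ := ch_lift hle r1 t ht
    obtain ⟨a, ha, e⟩ := ch_lift hle r1 _ hts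
    have b0 := ev_ne (H51.res (B.ff C) y) h (hL.le hb) t1
    refine ⟨a / b, Loc.div_mem (hL.le ha) (hL.le hb) b0, ?_⟩
    rw [res_div (hle a ha) (val_unit h.1 b0), e, mul_div_cancel_left₀ _ (res_ne (val_unit h.1 b0))]
  · rintro ⟨g, hg, rfl⟩
    obtain ⟨a, ha, b, hb, b0, e⟩ := hL.frac g hg
    refine (hE y _).2 ⟨_, ⟨u, hu, rfl⟩, r0, hmax, M3S.res C.1 b, hres b hb, ctr_unit h b0, ?_⟩
    rw [← res_mul (hle b hb) (h.1 g hg), mul_comm, e]
    exact hres a ha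

variable {O : Place ℂ (Rf C.1) → Subalgebra ℂ (Rf C.1)} {c : Dv ℂ (Rf C.1)}

theorem loc_le (B : Bas M) (hS : Sing O c)
    (hO : ∀ y p, Ctr C y p → ∀ s, s ∈ O y ↔ ∃ g ∈ (M.loc p).O, s = M3S.res C.1 g)
    (h : Ctr C y p) (h' : Ctr C y' p') (e : O y = O y') : (M.loc p).O ≤ (M.loc p').O := by
  have hy := H51.res (B.ff C) y
  have hy' := H51.res (B.ff C) y'
  have un : ∀ s ∈ O y, y'.val s = 1 → y.val s = 1 := fun s hs h1 => by
    have h2 := hS.le y _ (e ▸ hS.inv y' s (e ▸ hs) h1)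
    have h0 : s ≠ 0 := fun e => by simp [e] at h1
    rw [map_inv₀, inv_le_one₀ (zero_lt_iff.2 (y.val_ne h0))] at h2
    exact le_antisymm (hS.le y s hs) h2
  obtain ⟨u, hu, n1, hL⟩ := p.2
  obtain ⟨v, hv, n2, hL'⟩ := p'.2
  have h1 : u / v ∈ (M.loc p').O := hL'.le (div_mem_chA hu)
  have h2 : v / u ∈ (M.loc p).O := hL.le (div_mem_chA hv)
  have h3 : (M.loc p').ev (u / v) ≠ 0 := by
    refine ev_ne hy' h' h1 (le_antisymm (h'.2 _ h1) ?_)
    have h4 := hS.le y' _ (e ▸ (hO y p h _).2 ⟨_, h2, rfl⟩)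
    have h5 := res_mul (h.1 _ h2) (h'.1 _ h1)
    rw [div_mul_div_cancel₀ n1, div_self n2, res_one] at h5
    have h6 := congrArg y'.val h5
    rw [map_one, map_mul] at h6
    exact h6.le.trans (mul_le_of_le_one_left' h4)
  have h4 : chA M.U u ≤ (M.loc p').O := chA_le.2 fun w hw => by
    have := Loc.div_mem (hL'.le (div_mem_chA hw)) h1 h3
    rwa [div_div_div_cancel_right₀ n2] at this
  refine hL.le_of_ev h4 fun g hg => ?_
  by_contra hne
  have h5 := Loc.sub_ev_mem (hL.le hg)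
  have h6 : (M.loc p').ev (g - algebraMap ℂ K ((M.loc p).ev g)) ≠ 0 := by
    rw [Loc.ev_sub (h4 hg) ((M.loc p').O.algebraMap_mem _), (M.loc p').ev_alg]
    exact sub_ne_zero.2 hne
  exact absurd (un _ ((hO y p h _).2 ⟨_, h5.1, rfl⟩) (ctr_unit h' h6)) (ctr_lt hy h h5.1 h5.2).ne

theorem bun (B : Bas M) (hS : Sing O c)
    (hO : ∀ y p, Ctr C y p → ∀ s, s ∈ O y ↔ ∃ g ∈ (M.loc p).O, s = M3S.res C.1 g)
    {D : Dr M} {h : K} (hD : IsInt D) (hh : Mv D C h) :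
    ∃ η R, Bun O η R ∧ ((R.degree : ℤ) : ℝ) = II M D (pr C) ∧ WC D C h = WW O η ∧
      ∀ p η', On C p → Eqn D p η' → ∃ y, Ctr C y p ∧
        y.val (M3S.res C.1 (η' * h)) = y.val (η y) := by
  choose q hq using B.ctr C
  choose e he using B.eqn D hD
  obtain ⟨R, hR, hd⟩ := B.deg D C h hD hh
  have eq : ∀ {y y' p p'}, Ctr C y p → Ctr C y' p' → O y = O y' → (M.loc p).O = (M.loc p').O :=
    fun h h' e => le_antisymm (loc_le B hS hO h h' e) (loc_le B hS hO h' h e.symm)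
  have dv : ∀ {p p' η η'}, On C p → On C p' → Eqn D p η → Eqn D p' η' →
      (M.loc p).O = (M.loc p').O →
      M3S.res C.1 (η * h) / M3S.res C.1 (η' * h) = M3S.res C.1 (η / η') :=
    fun hp hp' h1 h2 _ => by
      rw [← res_div (val_mv hp h1 hh).le (val_mv hp' h2 hh), mul_div_mul_right _ _ hh.1]
  refine ⟨fun y => M3S.res C.1 (e (q y) * h), R, ⟨fun y => res_ne (val_mv (hq y).1 (he _) hh),
    fun y y' e => ?_, fun y => hR y _ _ (hq y) (he _)⟩, hd, ?_, fun p η' hp hη => ?_⟩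
  · have h1 := eq (hq y) (hq y') e
    exact (hO y _ (hq y) _).2 ⟨_, eqn_div B h1 (he _) (he _),
      dv (hq y).1 (hq y').1 (he _) (he _) h1⟩
  · ext s
    refine ⟨fun hs y => (hO y _ (hq y) _).2 (hs _ _ (hq y).1 (he _)), fun hs p η' hp hη => ?_⟩
    obtain ⟨y, hy⟩ := B.plc C p hp
    have h1 := eq hy (hq y) rfl
    obtain ⟨g, hg, h2⟩ := (hO y p hy _).1 (hs y)
    have h3 := eqn_div B h1 hη (he _)
    refine ⟨g * (η' / e (q y)), mul_mem hg h3, ?_⟩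
    rw [res_mul (hp g hg) (hp _ h3), ← h2, ← dv hp (hq y).1 hη (he _) h1, mul_assoc,
      mul_div_cancel₀ _ (res_ne (val_mv (hq y).1 (he _) hh))]
  · obtain ⟨y, hy⟩ := B.plc C p hp
    refine ⟨y, hy, ?_⟩
    rw [y.val_eq (y.val_ne (res_ne (val_mv hp hη hh))),
      y.val_eq (y.val_ne (res_ne (val_mv (hq y).1 (he _) hh))), ← hR y _ _ hy hη,
      ← hR y _ _ (hq y) (he _)]

theorem gamb (h1 : StmtWC1) (B : Bas M) (hS : Sing O c)
    (hO : ∀ y p, Ctr C y p → ∀ s, s ∈ O y ↔ ∃ g ∈ (M.loc p).O, s = M3S.res C.1 g)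
    {g : ℕ} (hg : IsGenus ℂ (Rf C.1) g) : ∃ δ : ℕ, (c = 0 → δ = 0) ∧
      GamB C (1 - g - δ) (2 * g + c.degree + 1) ∧ ∀ D h, IsInt D → Mv D C h →
        FiniteDimensional ℂ (WC D C h) ∧
        (finrank ℂ (WC D C h) : ℝ) ≤ max 0 (II M D (pr C) + 1) ∧
        (((2 * g + c.degree : ℤ) : ℝ) ≤ II M D (pr C) →
          (finrank ℂ (WC D C h) : ℝ) = II M D (pr C) + 1 - g - δ) := by
  obtain ⟨δ, d0, hδ⟩ := h1 ℂ (Rf C.1) (B.ff C) g hg O c hS
  refine ⟨δ, d0, fun D h hD hh hb => ?_, fun D h hD hh => ?_⟩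
  · obtain ⟨η, R, hB, hd, hW, hp⟩ := bun B hS hO hD hh
    obtain ⟨-, -, -, h4, h5⟩ := hδ η R hB
    rw [← hd] at hb ⊢
    have hb' : 2 * (g : ℤ) + c.degree + 1 ≤ R.degree := by exact_mod_cast hb
    refine ⟨?_, fun p η' hp' hη => ?_⟩
    · rw [hW]
      have := h4 (by omega)
      have h6 : (finrank ℂ (WW O η) : ℤ) = R.degree + (1 - g - δ) := by omega
      exact_mod_cast h6
    · obtain ⟨y, hy, h6⟩ := hp p η' hp' hη
      obtain ⟨s, hs, h7⟩ := h5 (by omega) y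
      rw [← hW] at hs
      obtain ⟨g', hg', h8⟩ := hs p η' hp' hη
      refine ⟨s, hs, g', ev_ne (H51.res (B.ff C) y) hy hg' ?_, h8⟩
      rw [← h8, map_mul, h6, ← map_mul, h7]
  · obtain ⟨η, R, hB, hd, hW, -⟩ := bun B hS hO hD hh
    obtain ⟨-, h2, h3, h4, -⟩ := hδ η R hB
    rw [← hd, hW]
    exact ⟨h2, by exact_mod_cast h3, fun hb => by exact_mod_cast h4 (by exact_mod_cast hb)⟩

theorem gam_uniq (hpos : ∃ D, IsInt D ∧ 0 < II M D (pr C)) {γ γ' b b' : ℤ} (h : GamB C γ b)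
    (h' : GamB C γ' b') : γ = γ' := by
  obtain ⟨D, hD, h0⟩ := hpos
  obtain ⟨n, hn⟩ := exists_nat_ge (max (b : ℝ) b' / II M D (pr C))
  rw [div_le_iff₀ h0] at hn
  have hI : IsInt ((n : ℝ) • D) := fun C' => by
    obtain ⟨m, hm⟩ := hD C'
    exact ⟨n * m, by rw [Finsupp.smul_apply, hm, smul_eq_mul]; push_cast; rfl⟩
  obtain ⟨t, ht⟩ := exists_mv hI C
  have e : II M ((n : ℝ) • D) (pr C) = n * II M D (pr C) := by rw [map_smul]; rfl
  have h1 := (h _ t hI ht (by rw [e]; exact (le_max_left _ _).trans hn)).1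
  have h2 := (h' _ t hI ht (by rw [e]; exact (le_max_right _ _).trans hn)).1
  have h3 : (γ : ℝ) = γ' := by linarith
  exact_mod_cast h3

theorem mem (B : Bas M) {D : Dr M} {h f : K} (hD : IsInt D) (hh : Mv D C h) (hf : f ∈ H0 D) :
    C.1.val (f / h) ≤ 1 ∧ M3S.res C.1 (f / h) ∈ WC D C h ∧
      (M3S.res C.1 (f / h) = 0 ↔ f ∈ H0 (D - pr C)) := by
  obtain ⟨n, hn⟩ := hD C
  have h1 : C.1.val h = exp n := by
    have h2 : C.1.ord h = -n := by
      have := hh.2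
      rw [hn] at this
      exact_mod_cast this
    rw [C.1.val_eq (C.1.val_ne hh.1), h2, neg_neg]
  have h2 : C.1.val f ≤ exp n := by simpa [hn] using hf C
  have h3 : C.1.val (f / h) ≤ 1 := by
    rwa [map_div₀, h1, div_le_one₀ (zero_lt_iff.2 exp_ne_zero)]
  refine ⟨h3, fun p η hp hη => ⟨f * η, B.hart p _ fun C' hC' => ?_, ?_⟩, ?_⟩
  · have h4 := hf C'
    rw [← hη.2 C' hC', Int.floor_intCast] at h4
    rw [map_mul, C'.1.val_eq (C'.1.val_ne hη.1), exp_neg,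
      mul_inv_le_iff₀ (zero_lt_iff.2 exp_ne_zero), one_mul]
    exact h4
  · rw [← res_mul h3 (val_mv hp hη hh).le]
    congr 1
    field_simp [hh.1]
  · rw [res_eq_zero h3, map_div₀, h1, div_lt_one₀ (zero_lt_iff.2 exp_ne_zero)]
    have h4 : ⌊(D - pr C) C⌋ = n - 1 := by
      rw [Finsupp.sub_apply, single_eq_same, hn, Int.floor_sub_one, Int.floor_intCast]
    constructor
    · intro h5 C'
      by_cases e : C' = C
      · rw [e, h4]
        exact H51.lt_exp_succ (by rwa [sub_add_cancel])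
      · rw [Finsupp.sub_apply, single_eq_of_ne e, sub_zero]
        exact hf C'
    · intro h5
      exact (h5 C).trans_lt (by rw [h4, exp_lt_exp]; omega)

end RWC

open RWC in
theorem rowWC (h1 : StmtWC1) (h2 : StmtWC2) : StmtWC := by
  intro K _ _ M B C hpos
  obtain ⟨O, c, hS, hO⟩ := sing h2 B C
  obtain ⟨g, hg⟩ := H7.genus (B.ff C)
  obtain ⟨δ, -, hγ, hW⟩ := gamb h1 B hS hO hg
  obtain ⟨b, hb⟩ : ∃ b, GamB C (gam C) b :=
    Classical.epsilon_spec (p := fun γ : ℤ => ∃ b, GamB C γ b) ⟨_, _, hγ⟩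
  refine ⟨⟨b, hb⟩, ?_, fun D h hD hh => (hW D h hD hh).1, fun D h hD hh => (hW D h hD hh).2.1,
    fun D h hD hh f hf => mem B hD hh hf, fun hC g' hg' => ?_⟩
  · rw [gam_uniq hpos hb hγ]
    omega
  · have hoff : ∀ y : Place ℂ (Rf C.1), ∀ s, y.val s ≤ 1 → s ∈ O y := fun y s hs => by
      obtain ⟨p, hp⟩ := B.ctr C y
      obtain ⟨κ, hκ, h0⟩ := hC p hp.1
      exact (hO y p hp s).2 (sm_mem B hp hκ h0 hs)
    have hS0 : Sing O 0 :=
      ⟨hS.le, hS.inv, le_rfl, fun y s hs => hoff y s (by simpa using hs y rfl), fun y _ => hoff y⟩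
    obtain ⟨δ', d0, hγ', hW'⟩ := gamb h1 B hS0 hO hg'
    obtain rfl := d0 rfl
    refine ⟨by rw [gam_uniq hpos hb hγ']; simp, fun D h hD hh hd => ?_⟩
    simpa using (hW' D h hD hh).2.2 (by simpa using hd)

end Pool.Agent.MP_ee8c61_ag.M3C
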