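import Pool.Agent.MP_ee8c61_ag.M3C.SpecB
import Pool.Agent.MP_ee8c61_ag.M3C.RApx

/-! Row WC1: Riemann-Roch in large degree on a singular curve. -/

set_option autoImplicit false

open WithZero Finsupp Module

namespace Pool.Agent.MP_ee8c61_ag.M3C

open Pool.Agent.MP_cce4c9_lc Pool.Agent.MP_cce4c9_lc.H87

namespace RWC1

variable {k F : Type} [Field k] [Field F] [Algebra k F]
variable {O : Place k F → Subalgebra k F} {c : Dv k F} {η : Place k F → F} {M : Dv k F}

theorem sib (hS : Sing O c) {y y' : Place k F} (h : O y' = O y) (hy : c y = 0) : y = y' :=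
  Place.eq_of_le y y' fun x hx => hS.le y' x (h ▸ hS.off y hy x hx)

theorem sib' (hS : Sing O c) {y y' : Place k F} (h : O y' = O y) : y' = y ∨ c y' ≠ 0 := by
  by_cases h0 : c y' = 0
  · exact Or.inl (sib hS h.symm h0)
  · exact Or.inr h0

theorem errB (hS : Sing O c) {e : F} (he : ∀ v, c v ≠ 0 → v.val e ≤ exp (-c v)) :
    ∀ v, c v ≠ 0 → e ∈ O v := fun v hv => hS.cond v e fun y' h => by
  rcases sib' hS h with rfl | h0
  · exact he _ hv
  · exact he _ h0

/-- approximation to any order -/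
theorem apx [IsAlgClosed k] (hK : IsFF k F) (T : Finset (Place k F)) (a : Place k F → F)
    (n : Place k F → ℤ) : ∃ θ : F, ∀ y ∈ T, y.val (θ - a y) ≤ exp (n y) := by
  obtain ⟨b, hb⟩ := rowApx k F hK T fun y => (unif y)⁻¹
  have hb1 : ∀ y ∈ T, y.val b = exp (1 : ℤ) := fun y hy => by
    have h1 : y.val (unif y)⁻¹ = exp (1 : ℤ) := by rw [map_inv₀, val_unif, ← exp_neg, neg_neg]
    have h2 : y.val (b - (unif y)⁻¹) < y.val (unif y)⁻¹ := by
      rw [h1]; exact (hb y hy).trans_lt (by rw [← exp_zero, exp_lt_exp]; norm_num)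
    rw [← h1]; exact Valuation.map_eq_of_sub_lt _ h2
  obtain ⟨b', hb'⟩ := rowApx k F hK T fun y => a y * b ^ T.sup fun y => (-n y).toNat
  refine ⟨b' / b ^ T.sup fun y => (-n y).toNat, fun y hy => ?_⟩
  have hle : (-n y).toNat ≤ T.sup fun y => (-n y).toNat :=
    Finset.le_sup (f := fun y => (-n y).toNat) hy
  have h := hb' y hy
  generalize (T.sup fun y => (-n y).toNat) = N at h hle ⊢
  have hb0 : b ≠ 0 := fun h0 => by
    have := hb1 y hy
    rw [h0, map_zero] at this
    exact exp_ne_zero this.symm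
  have e : b' / b ^ N - a y = (b' - a y * b ^ N) * (b ^ N)⁻¹ := by field_simp
  rw [e, map_mul, map_inv₀, map_pow, hb1 y hy, ← exp_nsmul, ← exp_neg]
  refine (mul_le_of_le_one_left' h).trans (exp_le_exp.2 ?_)
  rw [nsmul_eq_mul, mul_one]; omega

theorem val_eta (hB : Bun O η M) (y : Place k F) : y.val (η y) = exp (-M y) := by
  rw [hB.ord y]; exact y.val_eq (y.val_ne (hB.ne y))

theorem val_of_ratio (hS : Sing O c) {y : Place k F} {a b : F} (ha : a ≠ 0) (hb : b ≠ 0)
    (h1 : a / b ∈ O y) (h2 : b / a ∈ O y) : y.val a = y.val b := by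
  have g1 := hS.le y _ h1
  have g2 := hS.le y _ h2
  rw [map_div₀, div_le_one₀ (zero_lt_iff.2 (y.val_ne hb))] at g1
  rw [map_div₀, div_le_one₀ (zero_lt_iff.2 (y.val_ne ha))] at g2
  exact le_antisymm g1 g2

/-- one function generates the bundle at finitely many points -/
theorem theta [IsAlgClosed k] (hK : IsFF k F) (hS : Sing O c) (hB : Bun O η M)
    (T : Finset (Place k F)) (hT : ∀ y, c y ≠ 0 → y ∈ T) :
    ∃ θ : F, ∀ y ∈ T, θ ≠ 0 ∧ θ / η y ∈ O y ∧ η y / θ ∈ O y ∧ y.val θ = exp (-M y) := by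
  have : Infinite (Place k F) := (H7.ll k F hK).2.2.2
  have hrep : ∀ y, O (Function.invFun O (O y)) = O y := fun y => Function.apply_invFun_apply
  obtain ⟨θ, hθ⟩ := apx hK T (fun y => η (Function.invFun O (O y)))
    fun y => -c y - 1 - y.ord (η (Function.invFun O (O y)))
  refine ⟨θ, fun y hy => ?_⟩
  set r := Function.invFun O (O y) with hr
  have hr0 := hB.ne r
  have hu : ∀ y' ∈ T, O y' = O y → y'.val (θ / η r - 1) ≤ exp (-c y' - 1) := fun y' hy' h => by
    have h1 := hθ y' hy'
    rw [h, ← hr] at h1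
    have e : θ / η r - 1 = (θ - η r) * (η r)⁻¹ := by field_simp
    rw [e, map_mul, map_inv₀, y'.val_eq (y'.val_ne hr0), ← exp_neg, neg_neg]
    refine (mul_le_mul_left h1 _).trans ?_
    rw [← exp_add]; exact exp_le_exp.2 (by omega)
  have h1 : θ / η r - 1 ∈ O y := hS.cond y _ fun y' h => by
    have hy' : y' ∈ T := by
      rcases sib' hS h with rfl | h0
      · exact hy
      · exact hT _ h0
    exact (hu y' hy' h).trans (exp_le_exp.2 (by omega))
  have h2 : θ / η r ∈ O y := by simpa using add_mem h1 (one_mem (O y))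
  have h3 : y.val (θ / η r) = 1 := by
    have h4 : y.val (θ / η r - 1) < y.val 1 := by
      rw [map_one]
      refine (hu y hy rfl).trans_lt ?_
      have : (0 : ℤ) ≤ c y := hS.pos y
      rw [← exp_zero, exp_lt_exp]; omega
    rw [Valuation.map_eq_of_sub_lt _ h4, map_one]
  have hθ0 : θ ≠ 0 := fun h0 => by simp [h0] at h3
  have hy0 := hB.ne y
  have g1 : η r / η y ∈ O y := by have := hB.cpt r y (hrep y); rwa [hrep y] at this
  have g2 : η y / η r ∈ O y := hB.cpt y r (hrep y).symm
  have f1 : θ / η y ∈ O y := by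
    have e : θ / η y = θ / η r * (η r / η y) := by field_simp
    rw [e]; exact mul_mem h2 g1
  have f2 : η y / θ ∈ O y := by
    have e : η y / θ = η y / η r * (θ / η r)⁻¹ := by field_simp
    rw [e]; exact mul_mem g2 (hS.inv y _ h2 h3)
  exact ⟨hθ0, f1, f2, by rw [val_of_ratio hS hθ0 hy0 f1 f2, val_eta hB]⟩

theorem WW_le (hS : Sing O c) (hB : Bun O η M) : WW O η ≤ LL M := fun s hs y => by
  have h := hS.le y _ (hs y)
  rw [map_mul, val_eta hB, exp_neg, mul_inv_le_iff₀ exp_pos, one_mul] at h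
  exact h

theorem LL_bound [IsAlgClosed k] (hK : IsFF k F) (M : Dv k F) :
    (finrank k (LL M) : ℤ) ≤ max 0 (M.degree + 1) := by
  by_cases h : LL M = ⊥
  · rw [h, finrank_bot]; simp
  obtain ⟨f, hf, hf0⟩ := (Submodule.ne_bot_iff _).1 h
  have hpos : 0 ≤ M + dv k f := fun v => by
    have := (v.val_le_exp (v.val_ne hf0) _).1 (hf v)
    rw [Finsupp.add_apply, H9.dv_ap' H7.deg hK]
    show (0 : ℤ) ≤ _
    omega
  have hdeg : (M + dv k f).degree = M.degree := by rw [map_add, (H7.degF hK f).2.1, add_zero]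
  have h0 := H52.degree_nonneg hpos
  obtain ⟨n, hn⟩ := Int.eq_ofNat_of_zero_le h0
  have h1 := H52.finrank_LL_le H7.ll hK n _ hpos hn
  have hinv : f⁻¹ ∈ LL (dv k f) := fun v => by
    rw [map_inv₀, v.val_eq (v.val_ne hf0), ← exp_neg, neg_neg, H9.dv_ap' H7.deg hK]
  have := (H7.ll k F hK).1 (M + dv k f)
  have h2 : finrank k (LL M) ≤ finrank k (LL (M + dv k f)) :=
    LinearMap.finrank_le_finrank_of_injective
      (f := (LinearMap.mulRight k f⁻¹).restrict fun s hs => H52.mul_mem_LL hs hinv)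
      fun a b hab => Subtype.ext (mul_right_cancel₀ (inv_ne_zero hf0) (congrArg Subtype.val hab))
  have h3 : (finrank k (LL M) : ℤ) ≤ n + 1 := by exact_mod_cast h2.trans h1
  omega

/-- functions regular on the normalization over the singular points -/
def AA (c : Dv k F) : Submodule k F where
  carrier := {g | ∀ y : Place k F, c y ≠ 0 → y.val g ≤ 1}
  zero_mem' := by simp
  add_mem' := fun {a b} ha hb y hy => (y.val.map_add a b).trans (max_le (ha y hy) (hb y hy))
  smul_mem' := fun a g hg y hy => by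
    rw [Algebra.smul_def, map_mul]
    exact (mul_le_of_le_one_left' (y.const_le a)).trans (hg y hy)

/-- functions regular at the singular points -/
def BB (O : Place k F → Subalgebra k F) (c : Dv k F) : Submodule k F where
  carrier := {g | ∀ y : Place k F, c y ≠ 0 → g ∈ O y}
  zero_mem' := fun _ _ => zero_mem _
  add_mem' := fun ha hb y hy => add_mem (ha y hy) (hb y hy)
  smul_mem' := fun a _ hg y hy => (O y).smul_mem (hg y hy) a

theorem mem_WW (hS : Sing O c) (hB : Bun O η M) {θ : F}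
    (hθ : ∀ y, c y ≠ 0 → θ ≠ 0 ∧ θ / η y ∈ O y ∧ η y / θ ∈ O y ∧ y.val θ = exp (-M y))
    {s : F} (hs : s ∈ LL M) : s * θ ∈ BB O c ↔ s ∈ WW O η := by
  constructor
  · intro h y
    by_cases hy : c y = 0
    · refine hS.off y hy _ ?_
      rw [map_mul, val_eta hB, exp_neg, mul_inv_le_iff₀ exp_pos, one_mul]
      exact hs y
    · obtain ⟨h0, -, h2, -⟩ := hθ y hy
      have e : s * η y = s * θ * (η y / θ) := by field_simp
      rw [e]; exact mul_mem (h y hy) h2
  · intro h y hy
    obtain ⟨-, h1, -, -⟩ := hθ y hy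
    have h0 := hB.ne y
    have e : s * θ = s * η y * (θ / η y) := by field_simp
    rw [e]; exact mul_mem (h y) h1

theorem err_le {y : Place k F} {θ s a : F} (h0 : θ ≠ 0) {m e : ℤ} (hv : y.val θ = exp (-m))
    (h : y.val (s - a / θ) ≤ exp (m - e)) : y.val (s * θ - a) ≤ exp (-e) := by
  have e1 : s * θ - a = (s - a / θ) * θ := by field_simp
  rw [e1, map_mul, hv]
  refine (mul_le_mul_left h _).trans ?_
  rw [← exp_add]; exact exp_le_exp.2 (by omega)

theorem rr [IsAlgClosed k] (hK : IsFF k F) {g : ℕ} (hg : IsGenus k F g) (hS : Sing O c)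
    (hB : Bun O η M) (hd : 2 * (g : ℤ) + c.degree ≤ M.degree) :
    (finrank k (WW O η) : ℤ) = M.degree + 1 - g -
      (finrank k (AA c ⧸ (BB O c).comap (AA c).subtype) : ℕ) := by
  obtain ⟨θ, hθ'⟩ := theta hK hS hB c.support fun y hy => mem_support_iff.2 hy
  have hθ := fun y (hy : c y ≠ 0) => hθ' y (mem_support_iff.2 hy)
  have hA : ∀ s ∈ LL M, LinearMap.mulRight k θ s ∈ AA c := fun s hs y hy => by
    rw [LinearMap.mulRight_apply, map_mul, (hθ y hy).2.2.2, exp_neg, mul_inv_le_iff₀ exp_pos,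
      one_mul]
    exact hs y
  have := hg.fin M
  set ψ : LL M →ₗ[k] AA c ⧸ (BB O c).comap (AA c).subtype :=
    ((BB O c).comap (AA c).subtype).mkQ ∘ₗ (LinearMap.mulRight k θ).restrict hA with hψ
  have hker : LinearMap.ker ψ = (WW O η).comap (LL M).subtype := by
    ext s
    rw [LinearMap.mem_ker, hψ, LinearMap.comp_apply, Submodule.mkQ_apply,
      Submodule.Quotient.mk_eq_zero]
    exact mem_WW hS hB hθ s.2
  have hrange : LinearMap.range ψ = ⊤ := by
    refine LinearMap.range_eq_top.2 fun q => ?_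
    obtain ⟨a, rfl⟩ := Submodule.Quotient.mk_surjective _ q
    obtain ⟨s, hs, h⟩ := (H7.gen k F hK).2 g hg M c hS.pos (by omega) ((a : F) / θ) fun v hv => by
      rw [map_div₀, (hθ v hv).2.2.2, exp_neg, div_inv_eq_mul]
      exact mul_le_of_le_one_left' (a.2 v hv)
    refine ⟨⟨s, hs⟩, ?_⟩
    rw [hψ, LinearMap.comp_apply, Submodule.mkQ_apply, Submodule.Quotient.eq]
    exact errB hS fun v hv => err_le (hθ v hv).1 (hθ v hv).2.2.2 (h v hv)
  have h1 := LinearMap.finrank_range_add_finrank_ker ψ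
  rw [hrange, finrank_top, hker, (Submodule.comapSubtypeEquivOfLe (WW_le hS hB)).finrank_eq] at h1
  have h2 := hg.eq M (by have := H52.degree_nonneg hS.pos; omega)
  omega

theorem genr [IsAlgClosed k] (hK : IsFF k F) {g : ℕ} (hg : IsGenus k F g) (hS : Sing O c)
    (hB : Bun O η M) (hd : 2 * (g : ℤ) + c.degree < M.degree) (y : Place k F) :
    ∃ s ∈ WW O η, y.val (s * η y) = 1 := by
  classical
  obtain ⟨θ, hθ⟩ := theta hK hS hB (insert y c.support)
    fun v hv => Finset.mem_insert_of_mem (mem_support_iff.2 hv)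
  have hθc := fun v (hv : c v ≠ 0) => hθ v (Finset.mem_insert_of_mem (mem_support_iff.2 hv))
  have hθy := hθ y (Finset.mem_insert_self _ _)
  have h1 : ∀ v, (0 : ℤ) ≤ (single y (1 : ℤ) : Dv k F) v :=
    fun v => (Finsupp.single_nonneg.2 zero_le_one : 0 ≤ (single y (1 : ℤ) : Dv k F)) v
  have hc : ∀ v, (0 : ℤ) ≤ c v := fun v => hS.pos v
  obtain ⟨s, hs, h⟩ := (H7.gen k F hK).2 g hg M (c + single y 1)
    (add_nonneg hS.pos (Finsupp.single_nonneg.2 zero_le_one))
    (by rw [map_add, degree_single]; omega) (1 / θ) fun v hv => by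
      have hv' : v.val θ = exp (-M v) := by
        by_cases h0 : c v = 0
        · obtain rfl : v = y := by
            by_contra hne
            exact hv (by rw [Finsupp.add_apply, h0, single_eq_of_ne hne, add_zero])
          exact hθy.2.2.2
        · exact (hθc v h0).2.2.2
      rw [map_div₀, map_one, hv', exp_neg, one_div, inv_inv]
  have hB1 : s * θ - 1 ∈ BB O c := errB hS fun v hv => by
    have a1 := h1 v
    have a2 := hc v
    refine (err_le (hθc v hv).1 (hθc v hv).2.2.2
      (h v (by rw [Finsupp.add_apply]; omega))).trans (exp_le_exp.2 ?_)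
    rw [Finsupp.add_apply]; omega
  have hB2 : s * θ ∈ BB O c := fun v hv => by simpa using add_mem (hB1 v hv) (one_mem (O v))
  refine ⟨s, (mem_WW hS hB hθc hs).1 hB2, ?_⟩
  have a2 := hc y
  have h2 := err_le hθy.1 hθy.2.2.2 (h y (by rw [Finsupp.add_apply, single_eq_same]; omega))
  have h3 : y.val (s * θ - 1) < y.val 1 := by
    rw [map_one]
    refine h2.trans_lt ?_
    rw [← exp_zero, exp_lt_exp, Finsupp.add_apply, single_eq_same]; omega
  have h4 := Valuation.map_eq_of_sub_lt _ h3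
  rw [map_one, map_mul, hθy.2.2.2] at h4
  rw [map_mul, val_eta hB, h4]

end RWC1

theorem rowWC1 : StmtWC1 := by
  intro k F _ _ _ _ hK g hg O c hS
  refine ⟨finrank k (RWC1.AA c ⧸ (RWC1.BB O c).comap (RWC1.AA c).subtype), fun hc => ?_,
    fun η M hB => ?_⟩
  · have h : (RWC1.BB O c).comap (RWC1.AA c).subtype = ⊤ :=
      eq_top_iff.2 fun a _ y hy => absurd (by rw [hc]; rfl) hy
    have := Submodule.Quotient.subsingleton_iff.2 h
    exact finrank_zero_of_subsingleton
  · have hle := RWC1.WW_le hS hB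
    have := hg.fin M
    refine ⟨hle, Submodule.finiteDimensional_of_le hle, ?_, RWC1.rr hK hg hS hB,
      RWC1.genr hK hg hS hB⟩
    have h1 : (finrank k (WW O η) : ℤ) ≤ finrank k (LL M) := by
      exact_mod_cast Submodule.finrank_mono hle
    exact h1.trans (RWC1.LL_bound hK M)

end Pool.Agent.MP_ee8c61_ag.M3C
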