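import Pool.Agent.MP_ee8c61_ag.M3C.SpecB

/-! Row WC2: a projective model of a curve is a singular model. -/

set_option autoImplicit false

open WithZero Finsupp Module

namespace Pool.Agent.MP_ee8c61_ag.M3C

open Pool.Agent.MP_cce4c9_lc Pool.Agent.MP_cce4c9_lc.H87

namespace RWC2

variable {k F : Type} [Field k] [Field F] [Algebra k F] {U : Set F} {y y' : Place k F} {u u' g : F}

/-- `u` is a chart at `y`. -/
def Ch (U : Set F) (y : Place k F) (u : F) : Prop :=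
  u ∈ U ∧ u ≠ 0 ∧ ∀ u' ∈ U, y.val u' ≤ y.val u

/-- Membership in the local ring, read in the chart `u`. -/
def Lo (U : Set F) (u : F) (y : Place k F) (g : F) : Prop :=
  ∃ s ∈ chR (k := k) U u, y.val s = 1 ∧ s * g ∈ chR (k := k) U u

theorem gen_mem (h : u' ∈ U) : u' / u ∈ chR (k := k) U u := Algebra.subset_adjoin ⟨u', h, rfl⟩

theorem ch_ex (hU : U.Finite) (h0 : ∃ u ∈ U, u ≠ 0) (y : Place k F) : ∃ u, Ch U y u := by
  obtain ⟨u0, h1, h2⟩ := h0
  obtain ⟨u, h3, h4⟩ := Set.exists_max_image U y.val hU ⟨u0, h1⟩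
  refine ⟨u, h3, fun e => ?_, h4⟩
  have h5 := h4 u0 h1
  rw [e, map_zero, le_zero_iff] at h5
  exact y.val_ne h2 h5

theorem Ch.le (h : Ch U y u) {a : F} (ha : a ∈ chR (k := k) U u) : y.val a ≤ 1 := by
  induction ha using Algebra.adjoin_induction with
  | mem x hx =>
    obtain ⟨w, hw, rfl⟩ := hx
    rw [map_div₀]
    exact div_le_one_of_le₀ (h.2.2 w hw) zero_le
  | algebraMap r => exact y.const_le r
  | add a b _ _ ha hb => exact (y.val.map_add a b).trans (max_le ha hb)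
  | mul a b _ _ ha hb => rw [map_mul]; exact mul_le_one' ha hb

theorem ch_of (h1 : u ∈ U) (h2 : u ≠ 0) (h : ∀ a ∈ chR (k := k) U u, y.val a ≤ 1) : Ch U y u := by
  refine ⟨h1, h2, fun w hw => ?_⟩
  have h3 := h _ (gen_mem hw)
  rwa [map_div₀, div_le_one₀ (zero_lt_iff.2 (y.val_ne h2))] at h3

theorem chg (h1 : u' ∈ U) (h2 : u' ≠ 0) {a : F} (ha : a ∈ chR (k := k) U u') :
    ∃ n : ℕ, (u' / u) ^ n * a ∈ chR (k := k) U u := by
  have hp : ∀ n : ℕ, (u' / u) ^ n ∈ chR (k := k) U u := fun n => pow_mem (gen_mem h1) n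
  induction ha using Algebra.adjoin_induction with
  | mem x hx =>
    obtain ⟨w, hw, rfl⟩ := hx
    refine ⟨1, ?_⟩
    have e : (u' / u) ^ 1 * (w / u') = w / u := by field_simp
    rw [e]
    exact gen_mem hw
  | algebraMap r => exact ⟨0, by rw [pow_zero, one_mul]; exact Subalgebra.algebraMap_mem _ r⟩
  | add a b _ _ ha hb =>
    obtain ⟨n, hn⟩ := ha
    obtain ⟨m, hm⟩ := hb
    refine ⟨n + m, ?_⟩
    have e : (u' / u) ^ (n + m) * (a + b) =
        (u' / u) ^ m * ((u' / u) ^ n * a) + (u' / u) ^ n * ((u' / u) ^ m * b) := by ring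
    rw [e]
    exact add_mem (mul_mem (hp m) hn) (mul_mem (hp n) hm)
  | mul a b _ _ ha hb =>
    obtain ⟨n, hn⟩ := ha
    obtain ⟨m, hm⟩ := hb
    refine ⟨n + m, ?_⟩
    have e : (u' / u) ^ (n + m) * (a * b) = ((u' / u) ^ n * a) * ((u' / u) ^ m * b) := by ring
    rw [e]
    exact mul_mem hn hm

theorem lo_chg (h : Ch U y u) (h' : Ch U y u') (H : Lo U u' y g) : Lo U u y g := by
  obtain ⟨s, h1, h2, h3⟩ := H
  obtain ⟨n, hn⟩ := chg (u := u) h'.1 h'.2.1 h1
  obtain ⟨m, hm⟩ := chg (u := u) h'.1 h'.2.1 h3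
  have hp : ∀ n : ℕ, (u' / u) ^ n ∈ chR (k := k) U u := fun n => pow_mem (gen_mem h'.1) n
  have hv : y.val (u' / u) = 1 := by
    rw [map_div₀, le_antisymm (h.2.2 _ h'.1) (h'.2.2 _ h.1), div_self (y.val_ne h.2.1)]
  refine ⟨(u' / u) ^ m * ((u' / u) ^ n * s), mul_mem (hp m) hn, ?_, ?_⟩
  · rw [map_mul, map_mul, map_pow, map_pow, hv, h2]
    simp
  · have e : (u' / u) ^ m * ((u' / u) ^ n * s) * g = (u' / u) ^ n * ((u' / u) ^ m * (s * g)) := by
      ring
    rw [e]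
    exact mul_mem (hp n) hm

/-- The local ring at the centre of `y`. -/
def OO (U : Set F) (y : Place k F) : Subalgebra k F where
  carrier := {g | LocU U y g}
  mul_mem' := fun {a b} ha hb u h1 h2 h3 => by
    obtain ⟨s, s1, s2, s3⟩ := ha u h1 h2 h3
    obtain ⟨t, t1, t2, t3⟩ := hb u h1 h2 h3
    refine ⟨s * t, mul_mem s1 t1, by rw [map_mul, s2, t2, one_mul], ?_⟩
    rw [mul_mul_mul_comm]
    exact mul_mem s3 t3
  add_mem' := fun {a b} ha hb u h1 h2 h3 => by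
    obtain ⟨s, s1, s2, s3⟩ := ha u h1 h2 h3
    obtain ⟨t, t1, t2, t3⟩ := hb u h1 h2 h3
    refine ⟨s * t, mul_mem s1 t1, by rw [map_mul, s2, t2, one_mul], ?_⟩
    have e : s * t * (a + b) = t * (s * a) + s * (t * b) := by ring
    rw [e]
    exact add_mem (mul_mem t1 s3) (mul_mem s1 t3)
  algebraMap_mem' := fun r u _ _ _ =>
    ⟨1, one_mem _, map_one _, by rw [one_mul]; exact Subalgebra.algebraMap_mem _ r⟩

theorem mem_OO (h : Ch U y u) : g ∈ OO U y ↔ Lo U u y g :=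
  ⟨fun H => H u h.1 h.2.1 h.2.2, fun H _ h1 h2 h3 => lo_chg ⟨h1, h2, h3⟩ h H⟩

theorem Ch.mem (h : Ch U y u) {a : F} (ha : a ∈ chR (k := k) U u) : a ∈ OO U y :=
  (mem_OO h).2 ⟨1, one_mem _, map_one _, by rwa [one_mul]⟩

theorem Ch.ole (h : Ch U y u) (hg : g ∈ OO U y) : y.val g ≤ 1 := by
  obtain ⟨s, -, h2, h3⟩ := (mem_OO h).1 hg
  have h4 := h.le h3
  rwa [map_mul, h2, one_mul] at h4

theorem Ch.inv (h : Ch U y u) (hg : g ∈ OO U y) (hv : y.val g = 1) : g⁻¹ ∈ OO U y := by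
  obtain ⟨s, h1, h2, h3⟩ := (mem_OO h).1 hg
  have h0 : g ≠ 0 := fun e => by simp [e] at hv
  refine (mem_OO h).2 ⟨s * g, h3, by rw [map_mul, h2, hv, one_mul], ?_⟩
  rwa [mul_inv_cancel_right₀ h0]

theorem ev_eq (r : y.Res) (r' : y'.Res) (h : Ch U y u) (h' : Ch U y' u)
    (e : ∀ w ∈ U, y.ev (w / u) = y'.ev (w / u)) {a : F} (ha : a ∈ chR (k := k) U u) :
    y.ev a = y'.ev a := by
  induction ha using Algebra.adjoin_induction with
  | mem x hx =>
    obtain ⟨w, hw, rfl⟩ := hx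
    exact e w hw
  | algebraMap c => rw [y.ev_const, y'.ev_const]
  | add a b a1 b1 ha hb =>
    rw [r.ev_add (h.le a1) (h.le b1), r'.ev_add (h'.le a1) (h'.le b1), ha, hb]
  | mul a b a1 b1 ha hb =>
    rw [r.ev_mul (h.le a1) (h.le b1), r'.ev_mul (h'.le a1) (h'.le b1), ha, hb]

theorem val_one (_r : y.Res) {a : F} (ha : y.val a ≤ 1) (h : y.ev a ≠ 0) : y.val a = 1 :=
  le_antisymm ha (not_lt.1 fun e => h (y.ev_of_lt e))

theorem OO_le (r : y.Res) (r' : y'.Res) (h : Ch U y u) (h' : Ch U y' u)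
    (e : ∀ w ∈ U, y.ev (w / u) = y'.ev (w / u)) : OO U y ≤ OO U y' := by
  intro g hg
  obtain ⟨s, h1, h2, h3⟩ := (mem_OO h).1 hg
  refine (mem_OO h').2 ⟨s, h1, val_one r' (h'.le h1) ?_, h3⟩
  rw [← ev_eq r r' h h' e h1]
  exact r.ev_ne_zero h2

theorem OO_eq (r : y.Res) (r' : y'.Res) (h : Ch U y u) (h' : Ch U y' u)
    (e : ∀ w ∈ U, y.ev (w / u) = y'.ev (w / u)) : OO U y = OO U y' :=
  le_antisymm (OO_le r r' h h' e) (OO_le r' r h' h fun w hw => (e w hw).symm)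

theorem sub_one (r : y.Res) {a : F} {c : k} (ha : y.val a ≤ 1) (h : y.ev a ≠ c) :
    y.val (a - algebraMap k F c) = 1 := by
  refine val_one r ((y.val.map_sub _ _).trans (max_le ha (y.const_le c))) ?_
  rw [r.ev_sub ha (y.const_le c), y.ev_const]
  exact sub_ne_zero.2 h

theorem of_eq (r : y.Res) (r' : y'.Res) (h : Ch U y u) (h' : Ch U y' u') (E : OO U y = OO U y') :
    Ch U y' u ∧ ∀ a ∈ OO U y, y.ev a = y'.ev a := by
  refine ⟨ch_of h.1 h.2.1 fun a ha => h'.ole (E ▸ h.mem ha), fun a ha => ?_⟩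
  by_contra hne
  have h1 : y'.val (a - algebraMap k F (y.ev a)) = 1 :=
    sub_one r' (h'.ole (E ▸ ha)) (Ne.symm hne)
  have h2 : a - algebraMap k F (y.ev a) ∈ OO U y' :=
    E ▸ sub_mem ha (Subalgebra.algebraMap_mem _ _)
  have h3 := h.ole (E ▸ h'.inv h2 h1)
  have h0 : a - algebraMap k F (y.ev a) ≠ 0 := fun e => by simp [e] at h1
  rw [map_inv₀, inv_le_one₀ (zero_lt_iff.2 (y.val_ne h0))] at h3
  exact absurd (r.ev_spec (h.ole ha)) (not_lt.2 h3)

theorem frac (hT : IntermediateField.adjoin k (Set.image2 (· / ·) U U) = ⊤) (h0 : u ≠ 0) (g : F) :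
    ∃ b ∈ chR (k := k) U u, b ≠ 0 ∧ b * g ∈ chR (k := k) U u := by
  have h1 : IntermediateField.adjoin k (Set.image2 (· / ·) U U) ≤
      IntermediateField.adjoin k ((· / u) '' U) := by
    rw [IntermediateField.adjoin_le_iff]
    rintro _ ⟨a, ha, b, hb, rfl⟩
    have e : a / b = (a / u) / (b / u) := by rw [div_div_div_cancel_right₀ h0]
    show a / b ∈ IntermediateField.adjoin k ((· / u) '' U)
    rw [e]
    exact div_mem (IntermediateField.subset_adjoin _ _ ⟨a, ha, rfl⟩)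
      (IntermediateField.subset_adjoin _ _ ⟨b, hb, rfl⟩)
  obtain ⟨r, hr, s, hs, e⟩ :=
    IntermediateField.mem_adjoin_iff_div.1 (h1 (hT ▸ IntermediateField.mem_top (x := g)))
  by_cases s0 : s = 0
  · refine ⟨1, one_mem _, one_ne_zero, ?_⟩
    rw [e, s0, div_zero, mul_zero]
    exact zero_mem _
  · refine ⟨s, hs, s0, ?_⟩
    rw [e, mul_div_cancel₀ _ s0]
    exact hr

/-- The elements that lie in every valuation ring over `R`. -/
def NN (R : Subalgebra k F) : Submodule R F where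
  carrier := {x | ∀ V : ValuationSubring F, (∀ r ∈ R, r ∈ V) → x ∈ V}
  zero_mem' := fun V _ => zero_mem V
  add_mem' := fun ha hb V hV => add_mem (ha V hV) (hb V hV)
  smul_mem' := fun c _ hx V hV => mul_mem (hV c.1 c.2) (hx V hV)

theorem conductor (R : Subalgebra k F) (hN : (NN R).FG)
    (hf : ∀ g : F, ∃ b ∈ R, b ≠ 0 ∧ b * g ∈ R) :
    ∃ c ∈ R, c ≠ 0 ∧ ∀ x ∈ NN R, c * x ∈ R := by
  classical
  obtain ⟨S, hS⟩ := hN
  choose b b1 b2 b3 using hf
  refine ⟨∏ x ∈ S, b x, prod_mem fun x _ => b1 x, Finset.prod_ne_zero_iff.2 fun x _ => b2 x,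
    fun x hx => ?_⟩
  rw [← hS] at hx
  induction hx using Submodule.span_induction with
  | mem x hx =>
    rw [← Finset.prod_erase_mul S b hx, mul_assoc]
    exact mul_mem (prod_mem fun x _ => b1 x) (b3 x)
  | zero => rw [mul_zero]; exact zero_mem _
  | add x z _ _ hx hz => rw [mul_add]; exact add_mem hx hz
  | smul c x _ hx =>
    have e : (∏ x ∈ S, b x) * c • x = c.1 * ((∏ x ∈ S, b x) * x) := mul_left_comm _ _ _
    rw [e]
    exact mul_mem c.2 hx

theorem pow_kill (y : Place k F) {s : F} (hs : y.val s < 1) (g : F) :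
    ∃ n : ℕ, y.val (s ^ n * g) ≤ 1 := by
  have h1 : y.val s ≤ exp (-1 : ℤ) := H51.lt_exp_succ (by simpa using hs)
  by_cases g0 : g = 0
  · exact ⟨0, by simp [g0]⟩
  refine ⟨(-y.ord g).toNat, ?_⟩
  rw [map_mul, map_pow, y.val_eq (y.val_ne g0)]
  refine (mul_le_mul_left (pow_le_pow_left' h1 _) _).trans ?_
  rw [← exp_nsmul, ← exp_add, ← exp_zero, exp_le_exp, nsmul_eq_mul]
  omega

theorem key [IsAlgClosed k] (hK : IsFF k F) (h : Ch U y u)
    (H : ∀ y' : Place k F, OO U y' = OO U y → y'.val g ≤ 1) :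
    ∃ s ∈ chR (k := k) U u, y.val s = 1 ∧ s * g ∈ NN (chR (k := k) U u) := by
  classical
  have h1 : ∀ z : Place k F, ∃ s ∈ chR (k := k) U u, y.val s = 1 ∧
      (Ch U z u → z.val (s * g) ≤ 1) := by
    intro z
    by_cases hz : Ch U z u → z.val g ≤ 1
    · exact ⟨1, one_mem _, map_one _, by rwa [one_mul]⟩
    rw [Classical.not_imp] at hz
    have h2 : ¬∀ w ∈ U, z.ev (w / u) = y.ev (w / u) := fun e =>
      hz.2 (H z (OO_eq (H51.res hK z) (H51.res hK y) hz.1 h e))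
    push Not at h2
    obtain ⟨w, hw, hne⟩ := h2
    obtain ⟨n, hn⟩ := pow_kill z ((H51.res hK z).ev_spec (hz.1.le (gen_mem hw))) g
    refine ⟨_, pow_mem (sub_mem (gen_mem hw) (Subalgebra.algebraMap_mem _ _)) n, ?_, fun _ => hn⟩
    rw [map_pow, sub_one (H51.res hK y) (h.le (gen_mem hw)) hne.symm, one_pow]
  choose s s1 s2 s3 using h1
  set S := (H7.degF hK g).1.toFinset with hS
  refine ⟨∏ z ∈ S, s z, prod_mem fun z _ => s1 z, ?_, fun V hV => ?_⟩
  · rw [map_prod]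
    exact Finset.prod_eq_one fun z _ => s2 z
  by_cases hT : V = ⊤
  · rw [hT]
    exact ValuationSubring.mem_top _
  obtain ⟨z, hz⟩ := H7.dvr k F hK V (fun c => hV _ (Subalgebra.algebraMap_mem _ c)) hT
  have hc : Ch U z u := ch_of h.1 h.2.1 fun a ha => (hz a).1 (hV a ha)
  by_cases hm : z ∈ S
  · rw [← Finset.prod_erase_mul S s hm, mul_assoc]
    exact mul_mem (hV _ (prod_mem fun x _ => s1 x)) ((hz _).2 (s3 z hc))
  · refine mul_mem (hV _ (prod_mem fun x _ => s1 x)) ((hz _).2 ?_)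
    by_cases g0 : g = 0
    · simp [g0]
    rw [hS, Set.Finite.mem_toFinset, Function.mem_support, not_not] at hm
    rw [z.val_le_one (z.val_ne g0), hm]

theorem pole [IsAlgClosed k] (hK : IsFF k F) (R : Subalgebra k F)
    (hf : ∀ g : F, ∃ b ∈ R, b ≠ 0 ∧ b * g ∈ R) : ∃ P : Place k F, ¬∀ a ∈ R, P.val a ≤ 1 := by
  by_contra hn
  push Not at hn
  obtain ⟨t, ht, -⟩ := id hK
  obtain ⟨b, b1, b2, b3⟩ := hf t
  obtain ⟨c, hc⟩ := (H7.degF hK b).2.2 fun P => hn P b b1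
  obtain ⟨d, hd⟩ := (H7.degF hK (b * t)).2.2 fun P => hn P _ b3
  have e : t = algebraMap k F (d / c) := by
    rw [map_div₀, hc, hd, mul_div_cancel_left₀ _ b2]
  exact ht (e ▸ isAlgebraic_algebraMap _)

theorem sep [IsAlgClosed k] (hK : IsFF k F) {P : Place k F} (h1 : y ≠ P) (h2 : y' ≠ P)
    (h3 : y ≠ y') : ∃ b : F, (∀ z : Place k F, z ≠ P → z.val b ≤ 1) ∧ y.ev b ≠ y'.ev b := by
  classical
  obtain ⟨γ, hγ⟩ := H7.genus hK
  have hE : ∀ v : Place k F, (single y 1 : Dv k F) v ≠ 0 → v = y := fun v hv => by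
    by_contra h
    exact hv (single_eq_of_ne h)
  obtain ⟨b, hb, h⟩ := H7.jet hK hγ (D := single P (2 * (γ : ℤ) + 2) + single y' (-1))
    (E := single y 1) (Finsupp.single_nonneg.2 zero_le_one)
    (fun v hv => by
      rw [hE v hv, Finsupp.add_apply, single_eq_of_ne h1, single_eq_of_ne h3, add_zero])
    (by rw [map_add, degree_single, degree_single, degree_single]; omega)
  have hlt : exp (-1 : ℤ) < 1 := by rw [← exp_zero, exp_lt_exp]; omega
  have h4 : y'.val b < 1 := by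
    have := mem_LL.1 hb y'
    rw [Finsupp.add_apply, single_eq_of_ne h2, single_eq_same, zero_add] at this
    exact this.trans_lt hlt
  have h5 : y.val (b - algebraMap k F 1) < 1 := by
    have := h y (by rw [single_eq_same]; exact one_ne_zero)
    rw [single_eq_same] at this
    rw [map_one]
    exact this.trans_lt hlt
  refine ⟨b, fun z hz => ?_, ?_⟩
  · by_cases e : z = y'
    · rw [e]
      exact h4.le
    · have := mem_LL.1 hb z
      rwa [Finsupp.add_apply, single_eq_of_ne hz, single_eq_of_ne e, add_zero, exp_zero] at this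
  · rw [y.ev_eq h5, y'.ev_of_lt h4]
    exact one_ne_zero

end RWC2

open RWC2 in
theorem rowWC2 (h : StmtFIN) : StmtWC2 := by
  intro k F _ _ _ _ _ hK U hU hT
  classical
  have h0 : ∃ u ∈ U, u ≠ 0 := by
    by_contra hn
    push Not at hn
    obtain ⟨t, ht, -⟩ := id hK
    have h1 : IntermediateField.adjoin k (Set.image2 (· / ·) U U) ≤ ⊥ := by
      rw [IntermediateField.adjoin_le_iff]
      rintro _ ⟨a, ha, b, -, rfl⟩
      show a / b ∈ (⊥ : IntermediateField k F)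
      rw [hn a ha, zero_div]
      exact zero_mem _
    obtain ⟨c, hc⟩ := IntermediateField.mem_bot.1 (h1 (hT ▸ IntermediateField.mem_top (x := t)))
    exact ht (hc ▸ isAlgebraic_algebraMap _)
  have hE : Algebra.EssFiniteType k F := IntermediateField.fg_top_iff.1
    (hT ▸ IntermediateField.fg_adjoin_of_finite (hU.image2 _ hU))
  have hc : ∀ u : F, u ≠ 0 → ∃ c ∈ chR (k := k) U u, c ≠ 0 ∧
      ∀ x ∈ NN (chR (k := k) U u), c * x ∈ chR (k := k) U u := fun u hu =>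
    conductor _ ((h k F _ (Subalgebra.fg_def.2 ⟨_, hU.image _, rfl⟩) _).2 fun _ hx => hx)
      (frac hT hu)
  choose! cc c1 c2 c3 using hc
  choose ch hch using fun y : Place k F => ch_ex hU h0 y
  have rs := H51.res hK
  have hle : ∀ u ∈ U, ∀ y : Place k F,
      y.ord (cc u) ≤ (∑ u ∈ hU.toFinset, (dv k (cc u) ⊔ 0) : Dv k F) y := by
    intro u hu y
    have h1 : (dv k (cc u) ⊔ 0 : Dv k F) ≤ ∑ u ∈ hU.toFinset, (dv k (cc u) ⊔ 0) :=
      Finset.single_le_sum (f := fun u => (dv k (cc u) ⊔ 0 : Dv k F)) (fun _ _ => le_sup_right)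
        (hU.mem_toFinset.2 hu)
    rw [← H9.dv_ap' H7.deg hK]
    exact (le_sup_left.trans h1) y
  refine ⟨OO U, ∑ u ∈ hU.toFinset, (dv k (cc u) ⊔ 0),
    ⟨fun y g hg => (hch y).ole hg, fun y g hg hv => (hch y).inv hg hv,
      Finset.sum_nonneg fun _ _ => le_sup_right, fun y g hg => ?_, fun y hy g hg => ?_⟩,
    fun _ _ => Iff.rfl, fun y g => ⟨fun hg => ?_, ?_⟩, fun y y' => ⟨fun E => ?_, ?_⟩⟩
  · have hu := hch y
    obtain ⟨s, s1, s2, s3⟩ := key (g := g / cc (ch y)) hK hu fun z hz => by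
      have h1 := z.val_ne (c2 _ hu.2.1)
      rw [map_div₀, div_le_one₀ (zero_lt_iff.2 h1), z.val_eq h1]
      exact (hg z hz).trans (exp_le_exp.2 (neg_le_neg (hle _ hu.1 z)))
    refine (mem_OO hu).2 ⟨s, s1, s2, ?_⟩
    have h2 := c3 _ hu.2.1 _ s3
    rwa [mul_left_comm, mul_div_cancel₀ _ (c2 _ hu.2.1)] at h2
  · have hu := hch y
    have h1 : y.val (cc (ch y)) = 1 := by
      have h2 := hle _ hu.1 y
      have h3 := (y.val_le_one (y.val_ne (c2 _ hu.2.1))).1 (hu.le (c1 _ hu.2.1))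
      rw [hy] at h2
      rw [y.val_one_iff (y.val_ne (c2 _ hu.2.1))]
      omega
    have h2 : ∀ g : F, (∀ z : Place k F, OO U z = OO U y → z.val g ≤ 1) → g ∈ OO U y := by
      intro g H
      obtain ⟨s, s1, s2, s3⟩ := key hK hu H
      refine (mem_OO hu).2 ⟨cc (ch y) * s, mul_mem (c1 _ hu.2.1) s1,
        by rw [map_mul, h1, s2, one_mul], ?_⟩
      rw [mul_assoc]
      exact c3 _ hu.2.1 _ s3
    refine h2 g fun z hz => ?_
    by_cases e : y = z
    · exact e ▸ hg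
    exfalso
    obtain ⟨P, hP⟩ := pole hK _ (frac hT hu.2.1)
    have h3 : ∀ v : Place k F, OO U v = OO U y → v ≠ P := fun v hv e' =>
      hP fun a ha => e' ▸ (of_eq (rs y) (rs v) hu (hch v) hv.symm).1.le ha
    obtain ⟨b, b1, b2⟩ := sep hK (h3 y rfl) (h3 z hz) e
    exact b2 ((of_eq (rs y) (rs z) hu (hch z) hz.symm).2 b (h2 b fun v hv => b1 v (h3 v hv)))
  · exact ⟨ch y, (hch y).1, (hch y).2.1, (hch y).2.2, (mem_OO (hch y)).1 hg⟩
  · rintro ⟨u, h1, h2, h3, H⟩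
    exact (mem_OO ⟨h1, h2, h3⟩).2 H
  · obtain ⟨h1, h2⟩ := of_eq (rs y) (rs y') (hch y) (hch y') E
    exact ⟨ch y, (hch y).1, (hch y).2.1, (hch y).2.2, h1.2.2,
      fun w hw => h2 _ ((hch y).mem (gen_mem hw))⟩
  · rintro ⟨u, h1, h2, h3, h4, h5⟩
    exact OO_eq (rs y) (rs y') ⟨h1, h2, h3⟩ ⟨h1, h2, h4⟩ h5

end Pool.Agent.MP_ee8c61_ag.M3C
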