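import Pool.Agent.MP_ee8c61_ag.M3C.RDer
import Pool.Agent.MP_ee8c61_ag.M3C.RLoc
import Pool.Agent.MP_ee8c61_ag.M3C.RTr
import Pool.Agent.MP_ee8c61_ag.M3C.RTrEv
import Pool.Agent.MP_ee8c61_ag.M3C.RApx
import Pool.Agent.MP_ee8c61_ag.M3C.RP1
import Pool.Agent.MP_ee8c61_ag.M3C.RRES
import Pool.Agent.MP_ee8c61_ag.M3C.RIdx
import Pool.Agent.MP_ee8c61_ag.M3C.RTheta
import Pool.Agent.MP_ee8c61_ag.M3C.RDUAL
import Pool.Agent.MP_ee8c61_ag.M3C.RACF
import Pool.Agent.MP_ee8c61_ag.M3C.RFIN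
import Pool.Agent.MP_ee8c61_ag.M3C.RFING
import Pool.Agent.MP_ee8c61_ag.M3C.RExD
import Pool.Agent.MP_ee8c61_ag.M3C.RWC1
import Pool.Agent.MP_ee8c61_ag.M3C.RWC2
import Pool.Agent.MP_ee8c61_ag.M3C.RWC
import Pool.Agent.MP_ee8c61_ag.M3C.RADJ

/-!
The results on curves, without hypotheses.
-/

set_option autoImplicit false

namespace Pool.Agent.MP_ee8c61_ag.M3C

theorem thmDer : StmtDer := rowDer

theorem thmLoc : StmtLoc := rowLoc thmDer

theorem thmRES : StmtRES := rowRES thmDer thmLoc rowTr rowTrEv rowApx rowP1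

theorem thmTheta : StmtTheta := rowTheta thmLoc thmRES

theorem thmDUAL : StmtDUAL := rowDUAL thmLoc thmRES rowIdx thmTheta

theorem thmFIN : StmtFIN := rowFIN rowACF

theorem thmFING : StmtFING := rowFING thmFIN

theorem thmExD : StmtExD := rowExD

theorem thmWC1 : StmtWC1 := rowWC1

theorem thmWC2 : StmtWC2 := rowWC2 thmFIN

theorem thmWC : StmtWC := rowWC thmWC1 thmWC2

theorem thmADJ : StmtADJ := rowADJ thmLoc thmDUAL

end Pool.Agent.MP_ee8c61_ag.M3C
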