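import Pool.Agent.MP_ee8c61_ag.M3C.Spec

/-!
Finiteness of integral closures, and sections of line bundles on singular curves.
-/

set_option autoImplicit false

open WithZero Finsupp Module
open scoped IntermediateField Pointwise

namespace Pool.Agent.MP_ee8c61_ag.M3C

open Pool.Agent.MP_cce4c9_lc.H87

/-- The algebraic closure of a field in a finitely generated extension is finite. -/
def StmtACF : Prop := ∀ (E L : Type) [Field E] [Field L] [Algebra E L]
  [Algebra.EssFiniteType E L], FiniteDimensional E (algebraicClosure E L)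

/-- Finiteness of the integral closure of an affine ring in a finitely generated field. -/
def StmtFIN : Prop := ∀ (k L : Type) [Field k] [CharZero k] [Field L] [Algebra k L]
  [Algebra.EssFiniteType k L] (R : Subalgebra k L), R.FG → ∀ N : Submodule R L,
    ((∀ x ∈ N, IsIntegral R x) → N.FG) ∧
    ((∀ x ∈ N, ∀ V : ValuationSubring L, (∀ r ∈ R, r ∈ V) → x ∈ V) → N.FG)

/-- Graded form: spaces `W n` that are stable under `U` and bounded by the `n`-th power of `U`
at every valuation ring are finite dimensional and finitely generated over `U`. -/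
def StmtFING : Prop := ∀ (k K : Type) [Field k] [CharZero k] [Field K] [Algebra k K]
  [Algebra.EssFiniteType k K] (U : Finset K) (c : K) (W : ℕ → Submodule k K),
  (∃ u ∈ U, u ≠ 0) → c ≠ 0 → (∀ n, ∀ u ∈ U, ∀ f ∈ W n, u * f ∈ W (n + 1)) →
  (∀ V : ValuationSubring K, (∀ a : k, algebraMap k K a ∈ V) → ∀ u ∈ U, u ≠ 0 →
    (∀ u' ∈ U, u' / u ∈ V) → ∀ n, ∀ f ∈ W n, c * f / u ^ n ∈ V) →
  (∀ n, FiniteDimensional k (W n)) ∧
    ∃ n0, ∀ n, n0 ≤ n → W (n + 1) = Submodule.span k (U : Set K) * W n

/-- A function field has a derivation with prescribed value at a nonconstant function. -/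
def StmtExD : Prop := ∀ (k K : Type) [Field k] [IsAlgClosed k] [CharZero k] [Field K]
  [Algebra k K], IsFF k K → ∀ t : K, t ∉ Set.range (algebraMap k K) →
    ∃ d : Derivation k K K, d t = 1

section Defs

variable {k F : Type} [Field k] [Field F] [Algebra k F]

/-- A possibly singular complete model of the curve: `O y` is the local ring at the centre of
the place `y`, and `c` is a multiple of the conductor. -/
structure Sing (O : Place k F → Subalgebra k F) (c : Dv k F) : Prop where
  le : ∀ y, ∀ g ∈ O y, y.val g ≤ 1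
  inv : ∀ y, ∀ g ∈ O y, y.val g = 1 → g⁻¹ ∈ O y
  pos : 0 ≤ c
  cond : ∀ y g, (∀ y', O y' = O y → y'.val g ≤ exp (-c y')) → g ∈ O y
  off : ∀ y, c y = 0 → ∀ g, y.val g ≤ 1 → g ∈ O y

/-- A line bundle with local equations `η y`; `M` is its pull-back to the normalization. -/
structure Bun (O : Place k F → Subalgebra k F) (η : Place k F → F) (M : Dv k F) : Prop where
  ne : ∀ y, η y ≠ 0
  cpt : ∀ y y', O y = O y' → η y / η y' ∈ O y
  ord : ∀ y, M y = y.ord (η y)

/-- The global sections of the line bundle. -/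
def WW (O : Place k F → Subalgebra k F) (η : Place k F → F) : Submodule k F where
  carrier := {s | ∀ y, s * η y ∈ O y}
  zero_mem' := fun y => by rw [zero_mul]; exact zero_mem _
  add_mem' := fun {a b} ha hb y => by rw [add_mul]; exact add_mem (ha y) (hb y)
  smul_mem' := fun c s hs y => by rw [smul_mul_assoc]; exact (O y).smul_mem (hs y) c

/-- The affine ring of the chart `u`. -/
def chR (U : Set F) (u : F) : Subalgebra k F := Algebra.adjoin k ((· / u) '' U)

/-- `g` lies in the local ring, at the centre of `y`, of the projective model given by `U`. -/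
def LocU (U : Set F) (y : Place k F) (g : F) : Prop :=
  ∀ u ∈ U, u ≠ 0 → (∀ u' ∈ U, y.val u' ≤ y.val u) →
    ∃ s ∈ chR (k := k) U u, y.val s = 1 ∧ s * g ∈ chR (k := k) U u

end Defs

/-- Riemann-Roch in large degree on a singular curve. -/
def StmtWC1 : Prop := ∀ (k F : Type) [Field k] [IsAlgClosed k] [Field F] [Algebra k F],
  IsFF k F → ∀ g : ℕ, IsGenus k F g → ∀ (O : Place k F → Subalgebra k F) (c : Dv k F),
    Sing O c → ∃ δ : ℕ, (c = 0 → δ = 0) ∧ ∀ η M, Bun O η M →
      WW O η ≤ LL M ∧ FiniteDimensional k (WW O η) ∧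
      (finrank k (WW O η) : ℤ) ≤ max 0 (M.degree + 1) ∧
      (2 * (g : ℤ) + c.degree ≤ M.degree →
        (finrank k (WW O η) : ℤ) = M.degree + 1 - g - δ) ∧
      (2 * (g : ℤ) + c.degree < M.degree → ∀ y : Place k F, ∃ s ∈ WW O η, y.val (s * η y) = 1)

/-- A projective model of a curve is a singular model; one chart suffices to test membership in
the local ring. -/
def StmtWC2 : Prop := ∀ (k F : Type) [Field k] [IsAlgClosed k] [CharZero k] [Field F]
  [Algebra k F], IsFF k F → ∀ U : Set F, U.Finite →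
    IntermediateField.adjoin k (Set.image2 (· / ·) U U) = ⊤ →
    ∃ (O : Place k F → Subalgebra k F) (c : Dv k F), Sing O c ∧
      (∀ (y : Place k F) g, g ∈ O y ↔ LocU U y g) ∧
      (∀ (y : Place k F) g, g ∈ O y ↔ ∃ u ∈ U, u ≠ 0 ∧ (∀ u' ∈ U, y.val u' ≤ y.val u) ∧
        ∃ s ∈ chR (k := k) U u, y.val s = 1 ∧ s * g ∈ chR (k := k) U u) ∧
      ∀ y y' : Place k F, O y = O y' ↔ ∃ u ∈ U, u ≠ 0 ∧ (∀ u' ∈ U, y.val u' ≤ y.val u) ∧
        (∀ u' ∈ U, y'.val u' ≤ y'.val u) ∧ ∀ u' ∈ U, y.ev (u' / u) = y'.ev (u' / u)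

end Pool.Agent.MP_ee8c61_ag.M3C
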