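import Pool.Agent.MP_ee8c61_ag.M3C.SpecB

/-! Finiteness of the integral closure of an affine ring in a finitely generated field. -/

set_option autoImplicit false

namespace Pool.Agent.MP_ee8c61_ag.M3C

namespace RFIN

open scoped nonZeroDivisors in
theorem finI_gen (A R E L : Type) [CommRing A] [IsDomain A] [IsIntegrallyClosed A]
    [IsNoetherianRing A] [CharZero A] [CommRing R] [IsDomain R] [Algebra A R] [FaithfulSMul A R]
    [Module.Finite A R] [Field E] [Algebra R E] [IsFractionRing R E] [Field L] [Algebra E L]
    [Algebra R L] [IsScalarTower R E L] [FiniteDimensional E L] :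
    Module.Finite R (integralClosure R L) := by
  let _ : Algebra A E := ((algebraMap R E).comp (algebraMap A R)).toAlgebra
  let _ : Algebra A L := ((algebraMap R L).comp (algebraMap A R)).toAlgebra
  have : IsScalarTower A R E := .of_algebraMap_eq fun _ => rfl
  have : IsScalarTower A R L := .of_algebraMap_eq fun _ => rfl
  have : IsScalarTower A E L := .of_algebraMap_eq fun a => IsScalarTower.algebraMap_apply R E L _
  have : FaithfulSMul A E := (faithfulSMul_iff_algebraMap_injective A E).2
    ((IsFractionRing.injective R E).comp (FaithfulSMul.algebraMap_injective A R))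
  let _ : Algebra (FractionRing A) E := FractionRing.liftAlgebra A E
  let _ : Algebra (FractionRing A) L :=
    ((algebraMap E L).comp (algebraMap (FractionRing A) E)).toAlgebra
  have : IsScalarTower (FractionRing A) E L := .of_algebraMap_eq fun _ => rfl
  have : IsScalarTower A (FractionRing A) L := .of_algebraMap_eq fun a => by
    rw [IsScalarTower.algebraMap_apply (FractionRing A) E L, ← IsScalarTower.algebraMap_apply A _ E,
      ← IsScalarTower.algebraMap_apply A E L]
  have : FiniteDimensional (FractionRing A) E := .of_isLocalization A R A⁰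
  have : FiniteDimensional (FractionRing A) L := .trans _ E L
  have : IsIntegralClosure (integralClosure R L) A L := ⟨Subtype.val_injective, fun {x} =>
    ⟨fun h => ⟨⟨x, h.tower_top⟩, rfl⟩, fun ⟨y, e⟩ => e ▸ isIntegral_trans (A := R) _ y.2⟩⟩
  have := IsIntegralClosure.finite A (FractionRing A) L (integralClosure R L)
  exact .of_restrictScalars_finite A _ _

theorem fin_ft (k R E L : Type) [Field k] [CharZero k] [CommRing R] [IsDomain R] [Algebra k R]
    [Algebra.FiniteType k R] [Field E] [Algebra R E] [IsFractionRing R E] [Field L] [Algebra E L]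
    [Algebra R L] [IsScalarTower R E L] [FiniteDimensional E L] :
    Module.Finite R (integralClosure R L) := by
  obtain ⟨s, g, g1, g2⟩ := exists_finite_inj_algHom_of_fg k R
  let _ := g.toRingHom.toAlgebra
  have : Module.Finite (MvPolynomial (Fin s) k) R := g2
  have := (faithfulSMul_iff_algebraMap_injective (MvPolynomial (Fin s) k) _).2 g1
  exact finI_gen (MvPolynomial (Fin s) k) R E L

theorem fg_of_int (k R E L : Type) [Field k] [CharZero k] [CommRing R] [IsDomain R] [Algebra k R]
    [Algebra.FiniteType k R] [Field E] [Algebra R E] [IsFractionRing R E] [Field L] [Algebra E L]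
    [Algebra R L] [IsScalarTower R E L] [FiniteDimensional E (algebraicClosure E L)]
    (N : Submodule R L) (hN : ∀ x ∈ N, IsIntegral R x) : N.FG := by
  have : IsNoetherianRing R := Algebra.FiniteType.isNoetherianRing k R
  have := fin_ft k R E (algebraicClosure E L)
  let j : algebraicClosure E L →ₐ[R] L := (algebraicClosure E L).val.restrictScalars R
  let f : integralClosure R (algebraicClosure E L) →ₗ[R] L :=
    (j.comp (integralClosure R (algebraicClosure E L)).val).toLinearMap
  have hf : (LinearMap.range f).FG := by
    rw [LinearMap.range_eq_map]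
    exact (Module.Finite.fg_top).map f
  refine Submodule.FG.of_le hf fun x hx => ?_
  have h1 : x ∈ algebraicClosure E L := mem_algebraicClosure_iff'.2 (hN x hx).tower_top
  refine ⟨⟨⟨x, h1⟩, ?_⟩, rfl⟩
  exact (isIntegral_algHom_iff j (fun a b e => Subtype.ext e)).1 (hN x hx)

end RFIN

open scoped IntermediateField.algebraAdjoinAdjoin in
theorem rowFIN (h : StmtACF) : StmtFIN := by
  intro k L _ _ _ _ _ R hR N
  obtain ⟨s, rfl⟩ := hR
  have : Algebra.FiniteType k (Algebra.adjoin k (s : Set L)) := .adjoin_of_finite s.finite_toSet
  have : Algebra.EssFiniteType (IntermediateField.adjoin k (s : Set L)) L := .of_comp k _ _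
  have := h (IntermediateField.adjoin k (s : Set L)) L
  have key := RFIN.fg_of_int k (Algebra.adjoin k (s : Set L))
    (IntermediateField.adjoin k (s : Set L)) L N
  refine ⟨key, fun H => key fun x hx => ?_⟩
  have h1 : x ∈ (integralClosure
      (Subring.closure ((Algebra.adjoin k (s : Set L)).toSubring : Set L)) L).toSubring := by
    rw [← iInf_valuationSubring_superset, Subring.mem_iInf]
    exact fun V => H x hx V.1 fun r hr => V.2 hr
  rw [Subring.closure_eq] at h1
  exact h1

end Pool.Agent.MP_ee8c61_ag.M3C
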