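import Pool.Agent.MP_ee8c61_ag.M3C.Spec

/-!
The derivative with respect to a uniformizer preserves the valuation ring.
-/

set_option autoImplicit false

open WithZero Polynomial

namespace Pool.Agent.MP_ee8c61_ag.M3C

open Pool.Agent.MP_cce4c9_lc Pool.Agent.MP_cce4c9_lc.H87

namespace RDer

variable {k K : Type} [Field k] [Field K] [Algebra k K]

theorem sep [CharZero k] (A : Subalgebra k K) (h : K) : ∀ (n : ℕ) (P : A[X]), P.natDegree = n →
    P ≠ 0 → aeval h P = 0 → ∃ P : A[X], aeval h P = 0 ∧ aeval h (derivative P) ≠ 0 := by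
  intro n
  induction n using Nat.strong_induction_on with
  | _ n ih =>
    intro P hn h0 hP
    by_cases h1 : aeval h (derivative P) = 0
    · have : CharZero A := charZero_of_injective_algebraMap (algebraMap k A).injective
      have hd : P.natDegree ≠ 0 := by
        intro hd
        rw [eq_C_of_natDegree_eq_zero hd, aeval_C] at hP
        apply h0
        rw [eq_C_of_natDegree_eq_zero hd, show P.coeff 0 = 0 from Subtype.ext hP, map_zero]
      have h2 : derivative P ≠ 0 := fun h2 => hd (derivative_eq_zero.1 h2)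
      exact ih _ (hn ▸ natDegree_derivative_lt hd) _ rfl h2 h1
    · exact ⟨P, hP, h1⟩

theorem chain (A : Subalgebra k K) (d : Derivation k K K) (hA : ∀ a ∈ A, d a ∈ A) (P : A[X]) :
    ∃ Q : A[X], (∀ y : K, d (aeval y P) = aeval y Q + aeval y (derivative P) * d y) ∧
      ((∀ a ∈ A, d a = 0) → Q = 0) := by
  induction P using Polynomial.induction_on' with
  | add p q hp hq =>
    obtain ⟨Q1, h1, h1'⟩ := hp
    obtain ⟨Q2, h2, h2'⟩ := hq
    refine ⟨Q1 + Q2, fun y => ?_, fun H => by rw [h1' H, h2' H, add_zero]⟩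
    simp only [map_add, h1, h2]
    ring
  | monomial n a =>
    refine ⟨monomial n ⟨d a, hA a a.2⟩, fun y => ?_, fun H => ?_⟩
    · rw [derivative_monomial, aeval_monomial, aeval_monomial, aeval_monomial, Derivation.leibniz,
        Derivation.leibniz_pow, map_mul, map_natCast]
      show (a : K) • n • y ^ (n - 1) • d y + y ^ n • d (a : K) =
        d (a : K) * y ^ n + (a : K) * n * y ^ (n - 1) * d y
      simp only [smul_eq_mul, nsmul_eq_mul]
      ring
    · rw [show (⟨d a, hA a a.2⟩ : A) = 0 from Subtype.ext (H a a.2), map_zero]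

theorem pow_lip (u : Place k K) {y z : K} (hy : u.val y ≤ 1) (hz : u.val z ≤ 1) (n : ℕ) :
    u.val (y ^ n - z ^ n) ≤ u.val (y - z) := by
  induction n with
  | zero => simp
  | succ n ih =>
    rw [show y ^ (n + 1) - z ^ (n + 1) = y * (y ^ n - z ^ n) + z ^ n * (y - z) by ring]
    refine (u.val.map_add _ _).trans (max_le ?_ ?_)
    · rw [map_mul]
      exact (mul_le_of_le_one_left' hy).trans ih
    · rw [map_mul, map_pow]
      exact mul_le_of_le_one_left' (pow_le_one' hz n)

theorem lip (u : Place k K) (A : Subalgebra k K) (hA : ∀ a ∈ A, u.val a ≤ 1) {y z : K}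
    (hy : u.val y ≤ 1) (hz : u.val z ≤ 1) (P : A[X]) :
    u.val (aeval y P - aeval z P) ≤ u.val (y - z) := by
  induction P using Polynomial.induction_on' with
  | add p q hp hq =>
    rw [show aeval y (p + q) - aeval z (p + q) =
      (aeval y p - aeval z p) + (aeval y q - aeval z q) by simp only [map_add]; ring]
    exact (u.val.map_add _ _).trans (max_le hp hq)
  | monomial n a =>
    rw [aeval_monomial, aeval_monomial, ← mul_sub, map_mul]
    exact (mul_le_of_le_one_left' (hA a a.2)).trans (pow_lip u hy hz n)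

theorem adj_val (u : Place k K) {π : K} (hπ : u.val π ≤ 1) :
    ∀ a ∈ Algebra.adjoin k {π}, u.val a ≤ 1 := by
  intro a ha
  induction ha using Algebra.adjoin_induction with
  | mem x hx => rw [Set.mem_singleton_iff.1 hx]; exact hπ
  | algebraMap r => exact u.const_le r
  | add x y _ _ hx hy => exact (u.val.map_add _ _).trans (max_le hx hy)
  | mul x y _ _ hx hy => rw [map_mul]; exact mul_le_one' hx hy

theorem adj_der (d : Derivation k K K) (π : K) (S : Submodule (Algebra.adjoin k {π}) K)
    (hπ : d π ∈ S) : ∀ a ∈ Algebra.adjoin k {π}, d a ∈ S := by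
  intro a ha
  induction ha using Algebra.adjoin_induction with
  | mem x hx => rw [Set.mem_singleton_iff.1 hx]; exact hπ
  | algebraMap r => rw [Derivation.map_algebraMap]; exact S.zero_mem
  | add x y _ _ hx hy => rw [map_add]; exact S.add_mem hx hy
  | mul x y hx' hy' hx hy =>
    rw [Derivation.leibniz]
    exact S.add_mem (S.smul_mem ⟨x, hx'⟩ hy) (S.smul_mem ⟨y, hy'⟩ hx)

theorem adj_split (π : K) : ∀ a ∈ Algebra.adjoin k {π},
    ∃ c : k, ∃ b ∈ Algebra.adjoin k {π}, a = algebraMap k K c + π * b := by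
  intro a ha
  have hπ : π ∈ Algebra.adjoin k {π} := Algebra.self_mem_adjoin_singleton k π
  induction ha using Algebra.adjoin_induction with
  | mem x hx => exact ⟨0, 1, one_mem _, by rw [Set.mem_singleton_iff.1 hx]; simp⟩
  | algebraMap r => exact ⟨r, 0, zero_mem _, by simp⟩
  | add x y _ _ hx hy =>
    obtain ⟨c, b, hb, rfl⟩ := hx
    obtain ⟨c', b', hb', rfl⟩ := hy
    exact ⟨c + c', b + b', add_mem hb hb', by rw [map_add]; ring⟩
  | mul x y _ hy' hx hy =>
    obtain ⟨c, b, hb, rfl⟩ := hx
    obtain ⟨c', b', hb', hy⟩ := hy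
    refine ⟨c * c', algebraMap k K c * b' + b * y,
      add_mem (mul_mem (Subalgebra.algebraMap_mem _ c) hb') (mul_mem hb hy'), ?_⟩
    rw [map_mul]
    linear_combination (algebraMap k K c) * hy

theorem adj_dvd (u : Place k K) {π : K} (hπ : u.val π = exp (-1 : ℤ)) (m : ℕ) :
    ∀ a ∈ Algebra.adjoin k {π}, u.val a ≤ exp (-(m : ℤ)) →
      ∃ b ∈ Algebra.adjoin k {π}, a = π ^ m * b := by
  have h1 : u.val π < 1 := by rw [hπ, ← exp_zero, exp_lt_exp]; omega
  induction m with
  | zero => exact fun a ha _ => ⟨a, ha, by simp⟩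
  | succ m ih =>
    intro a ha hv
    obtain ⟨b, hb, rfl⟩ := ih a ha (hv.trans (by rw [exp_le_exp]; push_cast; omega))
    obtain ⟨c, b', hb', rfl⟩ := adj_split π b hb
    have hb1 : u.val (algebraMap k K c + π * b') < 1 := by
      by_contra hge
      have h2 : u.val (π ^ m * (algebraMap k K c + π * b')) = exp (-(m : ℤ)) := by
        rw [map_mul, map_pow, hπ, le_antisymm (adj_val u h1.le _ hb) (not_lt.1 hge), mul_one,
          ← exp_nsmul]
        simp
      rw [h2, exp_le_exp] at hv
      push_cast at hv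
      omega
    have h3 : u.val (π * b') < 1 := by
      rw [map_mul]
      exact (mul_le_of_le_one_right' (adj_val u h1.le _ hb')).trans_lt h1
    have hc : c = 0 := by
      by_contra hc
      have h4 := u.val.map_sub (algebraMap k K c + π * b') (π * b')
      rw [add_sub_cancel_right, u.triv c hc] at h4
      exact absurd (h4.trans_lt (max_lt hb1 h3)) (lt_irrefl _)
    exact ⟨b', hb', by rw [hc, map_zero]; ring⟩

theorem approx (u : Place k K) (hu : u.Res) {π : K} (hπ : u.val π = exp (-1 : ℤ)) (m : ℕ) :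
    ∀ h : K, u.val h ≤ 1 → ∃ p ∈ Algebra.adjoin k {π}, u.val (h - p) ≤ exp (-(m : ℤ)) := by
  have h0 : π ≠ 0 := fun h => by rw [h, map_zero] at hπ; exact exp_ne_zero hπ.symm
  induction m with
  | zero => exact fun h hh => ⟨0, zero_mem _, by simpa using hh⟩
  | succ m ih =>
    intro h hh
    obtain ⟨c, hc⟩ := hu h hh
    have hc' : u.val (h - algebraMap k K c) ≤ exp (-1 : ℤ) :=
      H51.lt_exp_succ (by simpa using hc)
    obtain ⟨p, hp, hv⟩ := ih ((h - algebraMap k K c) / π) (by
      rw [map_div₀, hπ]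
      exact div_le_one_of_le₀ hc' zero_le)
    refine ⟨algebraMap k K c + π * p, add_mem (Subalgebra.algebraMap_mem _ c)
      (mul_mem (Algebra.self_mem_adjoin_singleton k π) hp), ?_⟩
    rw [show h - (algebraMap k K c + π * p) = π * ((h - algebraMap k K c) / π - p) by
      field_simp; ring, map_mul, hπ]
    refine (mul_le_mul_right hv _).trans ?_
    rw [← exp_add, exp_le_exp]
    push_cast
    omega

theorem key (u : Place k K) (hu : u.Res) (d : Derivation k K K) {π : K}
    (hπ : u.val π = exp (-1 : ℤ)) (hd : d π = 1) {h : K} (hh : u.val h ≤ 1)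
    (P : (Algebra.adjoin k {π})[X]) (hP : aeval h P = 0) (hP' : aeval h (derivative P) ≠ 0) :
    u.val (d h) ≤ 1 := by
  have h1 : u.val π ≤ 1 := by rw [hπ, ← exp_zero, exp_le_exp]; omega
  have hv := adj_val u h1
  have hA : ∀ a ∈ Algebra.adjoin k {π}, d a ∈ Algebra.adjoin k {π} := by
    intro a ha
    obtain ⟨b, hb⟩ := Submodule.mem_one.1 (adj_der d π 1 (by
      rw [hd]; exact Submodule.one_le.1 le_rfl) a ha)
    rw [← hb]
    exact b.2
  obtain ⟨Q, hQ, -⟩ := chain _ d hA P
  obtain ⟨m, hm⟩ : ∃ m : ℕ, exp (-(m : ℤ)) ≤ u.val (aeval h (derivative P)) := by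
    refine ⟨(u.ord (aeval h (derivative P))).toNat, ?_⟩
    rw [u.val_eq (u.val_ne hP'), exp_le_exp]
    omega
  obtain ⟨p, hp, hpv⟩ := approx u hu hπ (m + 1) h hh
  have hle : exp (-((m + 1 : ℕ) : ℤ)) ≤ (exp (-(m : ℤ)) : ℤᵐ⁰) := by
    rw [exp_le_exp]; push_cast; omega
  have hq : aeval p P ∈ Algebra.adjoin k {π} := by
    have := aeval_algebraMap_apply K (⟨p, hp⟩ : Algebra.adjoin k {π}) P
    rw [show p = algebraMap (Algebra.adjoin k {π}) K ⟨p, hp⟩ from rfl, this]
    exact Subtype.prop _
  have hqv : u.val (aeval p P) ≤ exp (-((m + 1 : ℕ) : ℤ)) := by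
    have := lip u _ hv hh (hv p hp) P
    rw [hP, zero_sub, Valuation.map_neg] at this
    exact this.trans hpv
  obtain ⟨b, hb, hqb⟩ := adj_dvd u hπ (m + 1) _ hq hqv
  have hpm : u.val (π ^ m) = exp (-(m : ℤ)) := by
    rw [map_pow, hπ, ← exp_nsmul]; simp
  have hdq : u.val (d (aeval p P)) ≤ exp (-(m : ℤ)) := by
    have : d (aeval p P) = π ^ m * (π * d b + ((m + 1 : ℕ) : K) * b) := by
      rw [hqb, Derivation.leibniz, Derivation.leibniz_pow, hd]
      simp only [smul_eq_mul, nsmul_eq_mul, Nat.add_sub_cancel]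
      ring
    rw [this, map_mul, hpm]
    exact mul_le_of_le_one_right' (hv _ (add_mem
      (mul_mem (Algebra.self_mem_adjoin_singleton k π) (hA b hb)) (mul_mem (natCast_mem _ _) hb)))
  have e1 := hQ h
  rw [hP, map_zero] at e1
  have e2 := hQ p
  have e3 : aeval h (derivative P) * (d p - d h) = d (aeval p P) + (aeval h Q - aeval p Q) +
      (aeval h (derivative P) - aeval p (derivative P)) * d p := by
    linear_combination e1 - e2
  have b1 : u.val (aeval h (derivative P) * (d p - d h)) ≤ exp (-(m : ℤ)) := by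
    rw [e3]
    refine (u.val.map_add _ _).trans (max_le ((u.val.map_add _ _).trans (max_le hdq ?_)) ?_)
    · exact (lip u _ hv hh (hv p hp) Q).trans (hpv.trans hle)
    · rw [map_mul]
      exact (mul_le_of_le_one_right' (hv _ (hA p hp))).trans
        ((lip u _ hv hh (hv p hp) _).trans (hpv.trans hle))
  have b2 : u.val (d p - d h) ≤ 1 := by
    rw [map_mul] at b1
    have h2 := b1.trans hm
    have h3 : 0 < u.val (aeval h (derivative P)) := zero_lt_iff.2 (u.val_ne hP')
    exact (mul_le_iff_le_one_right h3).1 h2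
  rw [show d h = d p - (d p - d h) by ring]
  exact (u.val.map_sub _ _).trans (max_le (hv _ (hA p hp)) b2)

theorem ex_sep [IsAlgClosed k] [CharZero k] (hK : IsFF k K) {s : K}
    (hs : s ∉ Set.range (algebraMap k K)) (h : K) :
    ∃ P : (Algebra.adjoin k {s})[X], aeval h P = 0 ∧ aeval h (derivative P) ≠ 0 := by
  obtain ⟨P, h0, hP⟩ := (H51.alg_of_transc hK (H14.transc hs)).isAlgebraic h
  exact sep _ h _ P rfl h0 hP

theorem ne_zero [IsAlgClosed k] [CharZero k] (hK : IsFF k K) (d : Derivation k K K) (hd : d ≠ 0)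
    (s : K) (hs : s ∉ Set.range (algebraMap k K)) : d s ≠ 0 := by
  intro h0
  apply hd
  ext h
  have hA : ∀ a ∈ Algebra.adjoin k {s}, d a = 0 := fun a ha =>
    (Submodule.mem_bot _).1 (adj_der d s ⊥ (by rw [h0]; exact Submodule.zero_mem _) a ha)
  obtain ⟨P, hP, hP'⟩ := ex_sep hK hs h
  obtain ⟨Q, hQ, hQ0⟩ := chain _ d (fun a ha => by rw [hA a ha]; exact zero_mem _) P
  have e := hQ h
  rw [hP, map_zero, hQ0 hA, map_zero, zero_add] at e
  exact (mul_eq_zero.1 e.symm).resolve_left hP'

end RDer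

theorem rowDer : StmtDer := by
  intro k K _ _ _ _ _ hK d hd
  refine ⟨RDer.ne_zero hK d hd, fun u π hπ h hh => ?_⟩
  have hs : π ∉ Set.range (algebraMap k K) := by
    rintro ⟨c, rfl⟩
    by_cases hc : c = 0
    · rw [hc, map_zero, map_zero] at hπ
      exact exp_ne_zero hπ.symm
    · rw [u.triv c hc, ← exp_zero, exp_inj] at hπ
      omega
  have h0 := RDer.ne_zero hK d hd π hs
  obtain ⟨P, hP, hP'⟩ := RDer.ex_sep hK hs h
  have := RDer.key u (H51.res hK u) ((d π)⁻¹ • d) hπ (by simp [h0]) hh P hP hP'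
  rw [show d h = d π * ((d π)⁻¹ • d) h by simp [h0], map_mul]
  exact mul_le_of_le_one_right' this

end Pool.Agent.MP_ee8c61_ag.M3C
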