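import Pool.Agent.MP_ee8c61_ag.M3C.SpecG

/-!
Places of a curve on a surface and their centres: common lemmas.
-/

set_option autoImplicit false

namespace Pool.Agent.MP_ee8c61_ag.M3C

open Pool.Agent.MP_96693b_ag.RS Pool.Agent.MP_cce4c9_lc.H87 Pool.Agent.MP_ee8c61_ag.M3S
  Pool.Agent.MP_cce4c9_lc WithZero Finsupp Module

namespace G0

variable {K : Type} [Field K] [Algebra ℂ K] {M : Model K 2} {C : Crv M} {p p' : M.P}
  {y y' : Place ℂ (Rf C.1)} {v : Place ℂ K} {f g : K}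

theorem res_ne (h : v.val f = 1) : M3S.res v f ≠ 0 := fun e =>
  absurd ((res_eq_zero h.le).1 e) (by rw [h]; exact lt_irrefl _)

theorem res_inv (h : v.val f = 1) : M3S.res v f⁻¹ = (M3S.res v f)⁻¹ := by
  have h0 : f ≠ 0 := fun e => by simp [e] at h
  have := res_mul (g := f⁻¹) h.le (by rw [map_inv₀, h, inv_one])
  rw [mul_inv_cancel₀ h0, res_one] at this
  exact eq_inv_of_mul_eq_one_right this.symm

theorem res_div (hf : v.val f ≤ 1) (h : v.val g = 1) :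
    M3S.res v (f / g) = M3S.res v f / M3S.res v g := by
  rw [div_eq_mul_inv, res_mul hf (by rw [map_inv₀, h, inv_one]), res_inv h, div_eq_mul_inv]

theorem val_unit (h : Ov v (M.loc p)) (hg : (M.loc p).ev g ≠ 0) : v.val g = 1 := by
  have h1 := Loc.mem_of_ev hg
  have h2 := h _ ((M.loc p).inv_mem g h1 hg)
  rw [map_inv₀, inv_le_one₀ (zero_lt_iff.2 (v.val_ne (Loc.ne_zero_of_ev hg)))] at h2
  exact le_antisymm (h g h1) h2

theorem ctr_unit (h : Ctr C y p) (hg : (M.loc p).ev g ≠ 0) : y.val (M3S.res C.1 g) = 1 := by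
  have h1 := Loc.mem_of_ev hg
  have h0 := val_unit h.1 hg
  have h2 := h.2 _ ((M.loc p).inv_mem g h1 hg)
  rw [res_inv h0, map_inv₀, inv_le_one₀ (zero_lt_iff.2 (y.val_ne (res_ne h0)))] at h2
  exact le_antisymm (h.2 g h1) h2

theorem ctr_lt (hy : y.Res) (h : Ctr C y p) (hg : g ∈ (M.loc p).O) (h0 : (M.loc p).ev g = 0) :
    y.val (M3S.res C.1 g) < 1 := by
  have h1 := hy.ev_spec (h.2 g hg)
  by_cases hc : y.ev (M3S.res C.1 g) = 0
  · simpa [hc] using h1
  · have h2 : (M.loc p).ev (g - algebraMap ℂ K (y.ev (M3S.res C.1 g))) ≠ 0 := by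
      rw [Loc.ev_sub hg ((M.loc p).O.algebraMap_mem _), h0, (M.loc p).ev_alg]
      simpa using hc
    have h3 := ctr_unit h h2
    rw [res_sub (h.1 g hg) (C.1.const_le _), res_const] at h3
    exact absurd h3 h1.ne

theorem ev_ne (hy : y.Res) (h : Ctr C y p) (hg : g ∈ (M.loc p).O)
    (h1 : y.val (M3S.res C.1 g) = 1) : (M.loc p).ev g ≠ 0 := fun e =>
  absurd h1 (ctr_lt hy h hg e).ne

/-- Two equations of one divisor differ by a unit. -/
theorem eqn_div (B : Bas M) {D : Dr M} {η η' : K} (e : (M.loc p).O = (M.loc p').O)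
    (h : Eqn D p η) (h' : Eqn D p' η') : η / η' ∈ (M.loc p).O := by
  refine B.hart p _ fun C hC => ?_
  have hC' : On C p' := fun f hf => hC f (e ▸ hf)
  have h1 : C.1.ord η = C.1.ord η' := by
    have := (h.2 C hC).trans (h'.2 C hC').symm
    exact_mod_cast this
  rw [map_div₀, C.1.val_eq (C.1.val_ne h.1), C.1.val_eq (C.1.val_ne h'.1), h1,
    div_self exp_ne_zero]

theorem val_mv {D : Dr M} {η h : K} (hp : On C p) (hη : Eqn D p η) (hh : Mv D C h) :
    C.1.val (η * h) = 1 := by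
  rw [C.1.val_one_iff (C.1.val_ne (mul_ne_zero hη.1 hh.1)),
    C.1.ord_mul (C.1.val_ne hη.1) (C.1.val_ne hh.1)]
  have : ((C.1.ord η + C.1.ord h : ℤ) : ℝ) = 0 := by
    push_cast
    rw [hη.2 C hp, hh.2, add_neg_cancel]
  exact_mod_cast this

theorem exists_mv {D : Dr M} (hD : IsInt D) (C : Crv M) : ∃ h, Mv D C h := by
  obtain ⟨n, hn⟩ := hD C
  have h0 : unif C.1 ≠ 0 := fun e => by
    have := val_unif C.1
    rw [e, map_zero] at this
    exact exp_ne_zero this.symm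
  refine ⟨unif C.1 ^ (-n), zpow_ne_zero _ h0, ?_⟩
  rw [C.1.ord_zpow, C.1.ord_eq (n := 1) (val_unif C.1), hn]
  simp

theorem exists_lin {κ : Chart K 2} (h : IsCrd (M.loc p) κ) (hg : g ∈ (M.loc p).O)
    (h0 : (M.loc p).ev g = 0) :
    ∃ a ∈ (M.loc p).O, ∃ b ∈ (M.loc p).O, g = a * κ.x 0 + b * κ.x 1 := by
  have h1 : g ∈ (M.loc p).span (Set.range κ.x) := by rw [h.span]; exact ⟨hg, h0⟩
  obtain ⟨c, hc⟩ := (Submodule.mem_span_range_iff_exists_fun _).1 h1
  exact ⟨c 0, (c 0).2, c 1, (c 1).2, by rw [← hc, Fin.sum_univ_two]; rfl⟩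

theorem val_x0 {κ : Chart K 2} (hp : On C p) (h : Eqn (pr C) p (κ.x 0)) :
    C.1.val (κ.x 0) = exp (-1 : ℤ) := by
  have h1 := h.2 C hp
  rw [single_eq_same] at h1
  have h2 : C.1.ord (κ.x 0) = 1 := by exact_mod_cast h1
  rw [C.1.val_eq (C.1.val_ne h.1), h2]

theorem sm_pow (hy : y.Res) (h : Ctr C y p) {κ : Chart K 2} (hκ : IsCrd (M.loc p) κ)
    (h0 : Eqn (pr C) p (κ.x 0)) (n : ℕ) : ∀ g ∈ (M.loc p).O, exp (-(n : ℤ)) ≤
      y.val (M3S.res C.1 g) → ∃ (k : ℕ) (e : K), (M.loc p).ev e ≠ 0 ∧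
        M3S.res C.1 g = M3S.res C.1 (κ.x 1) ^ k * M3S.res C.1 e := by
  have hx := ctr_lt hy h (hκ.x_mem 1) (hκ.x_mem_m 1).2
  induction n with
  | zero =>
    intro g hg h1
    exact ⟨0, g, ev_ne hy h hg (le_antisymm (h.2 g hg) (by simpa using h1)), by simp⟩
  | succ n ih =>
    intro g hg h1
    by_cases e : (M.loc p).ev g = 0
    · obtain ⟨a, ha, b, hb, rfl⟩ := exists_lin hκ hg e
      have h2 : M3S.res C.1 (κ.x 0) = 0 := (res_eq_zero (h.1 _ (hκ.x_mem 0))).2 (by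
        rw [val_x0 h.1 h0, ← exp_zero, exp_lt_exp]; omega)
      rw [res_add (h.1 _ (mul_mem ha (hκ.x_mem 0))) (h.1 _ (mul_mem hb (hκ.x_mem 1))),
        res_mul (h.1 _ ha) (h.1 _ (hκ.x_mem 0)), res_mul (h.1 _ hb) (h.1 _ (hκ.x_mem 1)), h2,
        mul_zero, zero_add] at h1 ⊢
      obtain ⟨k, e, he, h3⟩ := ih b hb (by
        have h4 : y.val (M3S.res C.1 (κ.x 1)) ≤ exp (-1 : ℤ) :=
          H51.lt_exp_succ (by simpa using hx)
        rw [map_mul] at h1
        have h5 := h1.trans (mul_le_mul_right h4 _)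
        rw [show (-((n + 1 : ℕ) : ℤ)) = -(n : ℤ) + -1 by push_cast; ring, exp_add] at h5
        exact le_of_mul_le_mul_right h5 (zero_lt_iff.2 exp_ne_zero))
      exact ⟨k + 1, e, he, by rw [h3]; ring⟩
    · exact ⟨0, g, e, by simp⟩

/-- At a smooth point every function on the curve is a unit times a power of the second
coordinate. -/
theorem sm_zpow (B : Bas M) (h : Ctr C y p) {κ : Chart K 2} (hκ : IsCrd (M.loc p) κ)
    (h0 : Eqn (pr C) p (κ.x 0)) {s : Rf C.1} (hs : s ≠ 0) : ∃ (k : ℤ) (e : K),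
      (M.loc p).ev e ≠ 0 ∧ s = M3S.res C.1 (κ.x 1) ^ k * M3S.res C.1 e := by
  have hy := H51.res (B.ff C) y
  have key : ∀ g ∈ (M.loc p).O, M3S.res C.1 g ≠ 0 → ∃ (k : ℕ) (e : K), (M.loc p).ev e ≠ 0 ∧
      M3S.res C.1 g = M3S.res C.1 (κ.x 1) ^ k * M3S.res C.1 e := fun g hg h1 =>
    sm_pow hy h hκ h0 (y.ord (M3S.res C.1 g)).toNat g hg (by
      rw [y.val_eq (y.val_ne h1), exp_le_exp]; omega)
  obtain ⟨f, hf, rfl⟩ := res_surj s
  obtain ⟨a, ha, b, hb, h1, h2⟩ := B.frac C p h.1 f hf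
  have h3 := res_mul hf h1.le
  rw [h2] at h3
  obtain ⟨k, e, he, h4⟩ := key a ha (by rw [h3]; exact mul_ne_zero hs (res_ne h1))
  obtain ⟨k', e', he', h5⟩ := key b hb (res_ne h1)
  refine ⟨(k : ℤ) - k', e / e', ?_, ?_⟩
  · rw [Loc.ev_div (Loc.mem_of_ev he) (Loc.mem_of_ev he') he']
    exact div_ne_zero he he'
  · have h6 := res_ne h1
    have h7 : M3S.res C.1 f = M3S.res C.1 a / M3S.res C.1 b := by rw [h3]; field_simp
    rw [h7, h4, h5, res_div (val_unit h.1 he).le (val_unit h.1 he'), mul_div_mul_comm]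
    congr 1
    by_cases hx : M3S.res C.1 (κ.x 1) = 0
    · have k0 : k = 0 := by
        by_contra hk
        rw [hx, zero_pow hk, zero_mul, h3] at h4
        exact mul_ne_zero hs h6 h4
      have k1 : k' = 0 := by
        by_contra hk
        rw [hx, zero_pow hk, zero_mul] at h5
        exact h6 h5
      simp [k0, k1]
    · rw [zpow_sub₀ hx, zpow_natCast, zpow_natCast]

theorem sm_unif (B : Bas M) (h : Ctr C y p) {κ : Chart K 2} (hκ : IsCrd (M.loc p) κ)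
    (h0 : Eqn (pr C) p (κ.x 0)) : y.val (M3S.res C.1 (κ.x 1)) = exp (-1 : ℤ) := by
  have hx := ctr_lt (H51.res (B.ff C) y) h (hκ.x_mem 1) (hκ.x_mem_m 1).2
  have h1 := val_unif y
  obtain ⟨k, e, he, h2⟩ := sm_zpow B h hκ h0 (s := unif y) fun e => by
    rw [e, map_zero] at h1
    exact exp_ne_zero h1.symm
  rw [h2, map_mul, ctr_unit h he, mul_one, map_zpow₀] at h1
  by_cases h3 : y.val (M3S.res C.1 (κ.x 1)) = 0
  · rw [h3] at h1
    by_cases hk : k = 0
    · rw [hk, zpow_zero, ← exp_zero, exp_inj] at h1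
      omega
    · rw [zero_zpow k hk] at h1
      exact absurd h1.symm exp_ne_zero
  · have h4 := (y.val_lt_one h3).1 hx
    rw [y.val_eq h3] at h1 ⊢
    rw [← exp_zsmul, exp_inj, smul_eq_mul, mul_neg, neg_inj] at h1
    rw [Int.eq_one_of_mul_eq_one_left h4.le h1]

theorem sm_mem (B : Bas M) (h : Ctr C y p) {κ : Chart K 2} (hκ : IsCrd (M.loc p) κ)
    (h0 : Eqn (pr C) p (κ.x 0)) {s : Rf C.1} (hs : y.val s ≤ 1) :
    ∃ g ∈ (M.loc p).O, s = M3S.res C.1 g := by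
  by_cases h1 : s = 0
  · exact ⟨0, zero_mem _, by rw [h1, res_zero]⟩
  obtain ⟨k, e, he, h2⟩ := sm_zpow B h hκ h0 h1
  rw [h2, map_mul, ctr_unit h he, mul_one, map_zpow₀, sm_unif B h hκ h0, ← exp_zsmul, ← exp_zero,
    exp_le_exp, smul_eq_mul] at hs
  obtain ⟨n, rfl⟩ := Int.eq_ofNat_of_zero_le (show 0 ≤ k by omega)
  have h3 : ∀ n : ℕ, M3S.res C.1 (κ.x 1 ^ n) = M3S.res C.1 (κ.x 1) ^ n := fun n => by
    induction n with
    | zero => simp [res_one]
    | succ n ih =>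
      rw [pow_succ, res_mul (h.1 _ (pow_mem (hκ.x_mem 1) n)) (h.1 _ (hκ.x_mem 1)), ih, pow_succ]
  refine ⟨κ.x 1 ^ n * e, mul_mem (pow_mem (hκ.x_mem 1) n) (Loc.mem_of_ev he), ?_⟩
  rw [h2, res_mul (h.1 _ (pow_mem (hκ.x_mem 1) n)) (val_unit h.1 he).le, h3, zpow_natCast]

/-- Every derivation of the function field is a combination of the coordinate derivations. -/
theorem der_eq {n : ℕ} {M : Model K n} {p : M.P} {κ : Chart K n} (hκ : IsCrd (M.loc p) κ)
    (δ : Der K) (f : K) : δ f = ∑ i, δ (κ.x i) * κ.D i f := by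
  classical
  obtain ⟨u, hu, u0, hL⟩ := p.2
  choose a ha b hb b0 hab using fun w : K => M.gens.frac hu u0 (δ (w / u))
  set t := ∏ w ∈ M.fin.toFinset, b w with ht
  have t0 : t ≠ 0 := Finset.prod_ne_zero_iff.2 fun w _ => b0 w
  have h1 : t • δ ∈ (M.loc p).log ∅ := hL.mem_log (der_mem_adjoin hL.le (by
    rintro _ ⟨w, hw, rfl⟩
    rw [Derivation.smul_apply, smul_eq_mul, ht,
      ← Finset.prod_erase_mul _ _ (M.fin.mem_toFinset.2 hw), mul_assoc, mul_comm (b w), hab]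
    exact hL.le (mul_mem (prod_mem fun w _ => hb w) (ha w))))
  have h2 : ∀ g ∈ (M.loc p).O, δ g = ∑ i, δ (κ.x i) * κ.D i g := fun g hg => by
    have := hκ.der_eq h1 hg
    simp only [Derivation.smul_apply, smul_eq_mul, mul_assoc, ← Finset.mul_sum] at this
    exact mul_left_cancel₀ t0 this
  obtain ⟨q, hq, r, hr, r0, e⟩ := M.gens.frac hu u0 f
  have h3 := h2 q (hL.le hq)
  rw [← e] at h3
  simp only [Derivation.leibniz, smul_eq_mul, mul_add, Finset.sum_add_distrib] at h3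
  rw [h2 r (hL.le hr), Finset.mul_sum] at h3
  refine mul_left_cancel₀ r0 ?_
  rw [Finset.mul_sum]
  have h4 : ∑ i, f * (δ (κ.x i) * κ.D i r) = ∑ i, δ (κ.x i) * (f * κ.D i r) :=
    Finset.sum_congr rfl fun i _ => by ring
  have h5 : ∑ i, r * (δ (κ.x i) * κ.D i f) = ∑ i, δ (κ.x i) * (r * κ.D i f) :=
    Finset.sum_congr rfl fun i _ => by ring
  rw [h5]
  rw [h4] at h3
  exact add_left_cancel h3

end G0

end Pool.Agent.MP_ee8c61_ag.M3C
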