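import Pool.Agent.MP_cce4c9_lc.H7.AllA

/-!
Rational one-forms on a curve in characteristic zero: orders, residues, the residue theorem and
duality. A nonzero derivation `d` of the function field is fixed; the function `φ` stands for
the form `φ * ω` with `ω` dual to `d`, so that the form `h dg` is the function `h * d g`.
-/

set_option autoImplicit false

open WithZero Finsupp Module
open scoped IntermediateField

namespace Pool.Agent.MP_ee8c61_ag.M3C

open Pool.Agent.MP_cce4c9_lc.H87

section Defs

variable {k K : Type} [Field k] [Field K] [Algebra k K]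

/-- A uniformizer at `u`. -/
noncomputable def unif (u : Place k K) : K := u.exists_unif.choose

theorem val_unif (u : Place k K) : u.val (unif u) = exp (-1 : ℤ) := u.exists_unif.choose_spec

/-- The order at `u` of the form dual to `d`. The form `φ` has order `u.ord φ + cw d u`; it is
regular at `u` when `u.val φ ≤ exp (cw d u)`. -/
noncomputable def cw (d : Derivation k K K) (u : Place k K) : ℤ := -u.ord (d (unif u))

open Classical in
/-- The canonical divisor of `d`. -/
noncomputable def can (d : Derivation k K K) : Dv k K :=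
  if H : (Function.support (cw d)).Finite then Finsupp.ofSupportFinite (cw d) H else 0

/-- `c` is the residue of the form `φ` at `u`. -/
def IsRes (d : Derivation k K K) (u : Place k K) (φ : K) (c : k) : Prop :=
  ∃ a : K, u.val (φ - c • (d (unif u) / unif u) - d a) ≤ exp (cw d u)

open Classical in
/-- The residue of the form `φ` at `u`. -/
noncomputable def res (d : Derivation k K K) (u : Place k K) (φ : K) : k :=
  if H : ∃ c, IsRes d u φ c then H.choose else 0

/-- Functions bounded by `D` away from `P`. -/
def RP (P : Place k K) (D : Dv k K) : Submodule k K where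
  carrier := {h | ∀ v : Place k K, v ≠ P → v.val h ≤ exp (D v)}
  zero_mem' := by simp
  add_mem' := fun {a b} ha hb v hv => (v.val.map_add a b).trans (max_le (ha v hv) (hb v hv))
  smul_mem' := fun c h hh v hv => by
    rw [Algebra.smul_def, map_mul]
    exact (mul_le_of_le_one_left' (v.const_le c)).trans (hh v hv)

/-- Functions bounded by `n` at `P`. -/
def OP (P : Place k K) (n : ℤ) : Submodule k K where
  carrier := {h | P.val h ≤ exp n}
  zero_mem' := by simp
  add_mem' := fun {a b} ha hb => (P.val.map_add a b).trans (max_le ha hb)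
  smul_mem' := fun c h hh => by
    show P.val _ ≤ _
    rw [Algebra.smul_def, map_mul]
    exact (mul_le_of_le_one_left' (P.const_le c)).trans hh

/-- The quotient of `K` by this space is the first cohomology of `D`. -/
def VP (P : Place k K) (D : Dv k K) : Submodule k K := RP P D ⊔ OP P (D P)

/-- The local calculus of forms at a place. -/
structure LocF (d : Derivation k K K) (u : Place k K) : Prop where
  rs : u.Res
  uni : ∀ π : K, u.val π = exp (-1 : ℤ) → u.val (d π) = exp (cw d u)
  reg : ∀ h : K, u.val h ≤ 1 → u.val (d h) ≤ exp (cw d u)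
  le : ∀ h : K, u.val (d h) ≤ exp (cw d u + 1) * u.val h
  eq : ∀ h : K, u.val h ≠ 1 → u.val (d h) = exp (cw d u + 1) * u.val h
  add : ∀ φ ψ : K, res d u (φ + ψ) = res d u φ + res d u ψ
  smul : ∀ (c : k) (φ : K), res d u (c • φ) = c * res d u φ
  zero : ∀ φ : K, u.val φ ≤ exp (cw d u) → res d u φ = 0
  exact : ∀ a : K, res d u (d a) = 0
  dlog : ∀ f h : K, u.val f ≤ 1 → res d u (f * (d h / h)) = u.ev f * (u.ord h : k)
  simple : ∀ φ : K, u.val φ = exp (cw d u + 1) → res d u φ ≠ 0
  red : ∀ φ : K, ∃ a : K, u.val (φ - d a) ≤ exp (cw d u + 1)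

end Defs

/-- The derivative with respect to a uniformizer preserves the valuation ring. -/
def StmtDer : Prop := ∀ (k K : Type) [Field k] [IsAlgClosed k] [CharZero k] [Field K]
  [Algebra k K], IsFF k K → ∀ d : Derivation k K K, d ≠ 0 →
    (∀ s : K, s ∉ Set.range (algebraMap k K) → d s ≠ 0) ∧
    ∀ (u : Place k K) (π : K), u.val π = exp (-1 : ℤ) →
      ∀ h : K, u.val h ≤ 1 → u.val (d h) ≤ u.val (d π)

/-- The local calculus holds at every place. -/
def StmtLoc : Prop := ∀ (k K : Type) [Field k] [IsAlgClosed k] [CharZero k] [Field K]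
  [Algebra k K], IsFF k K → ∀ d : Derivation k K K, d ≠ 0 → ∀ u : Place k K, LocF d u

/-- The trace commutes with a derivation that preserves the subfield. -/
def StmtTr : Prop := ∀ (k E K : Type) [Field k] [Field E] [Field K] [Algebra k K] [Algebra E K]
  [FiniteDimensional E K] (d : Derivation k K K),
  (∀ x : E, d (algebraMap E K x) ∈ Set.range (algebraMap E K)) → ∀ h : K,
    d (algebraMap E K (Algebra.trace E K h)) = algebraMap E K (Algebra.trace E K (d h))

/-- The value of a trace. -/
def StmtTrEv : Prop := ∀ (k K L : Type) [Field k] [IsAlgClosed k] [Field K] [Algebra k K]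
  [Field L] [Algebra k L] [Algebra K L] [IsScalarTower k K L] [FiniteDimensional K L],
  IsFF k K → ∀ (dn : Place k L → Place k K) (e : Place k L → ℕ), (∀ y, Over y (dn y) (e y)) →
    ∀ (f : L) (x : Place k K) (S : Finset (Place k L)), (∀ y, y ∈ S ↔ dn y = x) →
      (∀ y ∈ S, y.val f ≤ 1) → x.val (Algebra.trace K L f) ≤ 1 ∧
        x.ev (Algebra.trace K L f) = ∑ y ∈ S, (e y : k) * y.ev f

/-- Polar parts can be prescribed at finitely many places. -/
def StmtApx : Prop := ∀ (k K : Type) [Field k] [IsAlgClosed k] [Field K] [Algebra k K],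
  IsFF k K → ∀ (S : Finset (Place k K)) (a : Place k K → K),
    ∃ b : K, ∀ y ∈ S, y.val (b - a y) ≤ 1

/-- Partial fractions: forms `φ ds` with `φ` rational in `s` are combinations of exact and
logarithmic forms; a derivation with `d s = 1` preserves the field generated by `s`. -/
def StmtP1 : Prop := ∀ (k K : Type) [Field k] [IsAlgClosed k] [CharZero k] [Field K]
  [Algebra k K] (d : Derivation k K K) (s : K), s ∉ Set.range (algebraMap k K) →
    ∀ φ ∈ k⟮s⟯, φ * d s ∈ Submodule.span k ({x | ∃ a, x = d a} ∪ {x | ∃ f, x = d f / f}) ∧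
      (d s = 1 → d φ ∈ k⟮s⟯)

/-- The residue theorem. -/
def StmtRES : Prop := ∀ (k K : Type) [Field k] [IsAlgClosed k] [CharZero k] [Field K]
  [Algebra k K], IsFF k K → ∀ d : Derivation k K K, d ≠ 0 →
    {u : Place k K | cw d u < 0}.Finite ∧ ∀ φ : K,
      {u : Place k K | ¬ u.val φ ≤ exp (cw d u)}.Finite ∧
      ∀ S : Finset (Place k K), (∀ u, u ∉ S → res d u φ = 0) → ∑ u ∈ S, res d u φ = 0

/-- The index of speciality as the dimension of a quotient of `K`. -/
def StmtIdx : Prop := ∀ (k K : Type) [Field k] [IsAlgClosed k] [Field K] [Algebra k K],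
  IsFF k K → ∀ g : ℕ, IsGenus k K g → ∀ (P : Place k K) (D : Dv k K),
    FiniteDimensional k (K ⧸ VP P D) ∧
      (finrank k (K ⧸ VP P D) : ℤ) = finrank k (LL D) - D.degree - 1 + g

/-- The residue pairing at `P`: `h` kills `VP P D` exactly when the form `h` vanishes on `D`. -/
def StmtTheta : Prop := ∀ (k K : Type) [Field k] [IsAlgClosed k] [CharZero k] [Field K]
  [Algebra k K], IsFF k K → ∀ d : Derivation k K K, d ≠ 0 →
    ∀ (P : Place k K) (D : Dv k K) (h : K),
      (∀ a ∈ VP P D, res d P (a * h) = 0) ↔ ∀ u : Place k K, u.val h ≤ exp (cw d u - D u)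

/-- The canonical divisor, its degree, and the Riemann-Roch theorem. -/
def StmtDUAL : Prop := ∀ (k K : Type) [Field k] [IsAlgClosed k] [CharZero k] [Field K]
  [Algebra k K], IsFF k K → ∀ d : Derivation k K K, d ≠ 0 → ∀ g : ℕ, IsGenus k K g →
    (∀ u, can d u = cw d u) ∧ (can d).degree = 2 * (g : ℤ) - 2 ∧
      ∀ D : Dv k K, (finrank k (LL D) : ℤ) = finrank k (LL (can d - D)) + D.degree + 1 - g

end Pool.Agent.MP_ee8c61_ag.M3C
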