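import Pool.Agent.MP_ee8c61_ag.M3C.SpecB
import Pool.Agent.MP_ee8c61_ag.M3S.Defs

/-!
Sections on curves of a surface and the adjunction formula: statements.
-/

set_option autoImplicit false

namespace Pool.Agent.MP_ee8c61_ag.M3C

open Pool.Agent.MP_96693b_ag.RS Pool.Agent.MP_cce4c9_lc.H87 Pool.Agent.MP_ee8c61_ag.M3S
  WithZero Finsupp Module

variable {K : Type} [Field K] [Algebra ℂ K]

/-- The foundations used for sections on curves and for adjunction. -/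
structure Bas (M : Model K 2) : Prop where
  ff : ∀ C : Crv M, IsFF ℂ (Rf C.1)
  ctr : ∀ (C : Crv M) u, ∃ p, Ctr C u p
  plc : ∀ (C : Crv M) p, On C p → ∃ u, Ctr C u p
  eqn : ∀ D : Dr M, IsInt D → ∀ p, ∃ η, Eqn D p η
  hart : ∀ (p : M.P) (f : K), (∀ C : Crv M, On C p → C.1.val f ≤ 1) → f ∈ (M.loc p).O
  frac : ∀ (C : Crv M) p, On C p → ∀ f, C.1.val f ≤ 1 →
    ∃ a ∈ (M.loc p).O, ∃ b ∈ (M.loc p).O, C.1.val b = 1 ∧ f * b = a
  deg : ∀ (D : Dr M) C h, IsInt D → Mv D C h →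
    ∃ R, IsR D C h R ∧ ((R.degree : ℤ) : ℝ) = II M D (pr C)

/-- Sections on a curve of the surface. -/
structure WCF (M : Model K 2) (C : Crv M) : Prop where
  gamb : ∃ b, GamB C (gam C) b
  le : gam C ≤ 1
  fin : ∀ D h, IsInt D → Mv D C h → FiniteDimensional ℂ (WC D C h)
  bd : ∀ D h, IsInt D → Mv D C h → (finrank ℂ (WC D C h) : ℝ) ≤ max 0 (II M D (pr C) + 1)
  mem : ∀ D h, IsInt D → Mv D C h → ∀ f ∈ H0 D, C.1.val (f / h) ≤ 1 ∧
    M3S.res C.1 (f / h) ∈ WC D C h ∧ (M3S.res C.1 (f / h) = 0 ↔ f ∈ H0 (D - pr C))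
  sm : SmC C → ∀ g : ℕ, IsGenus ℂ (Rf C.1) g → gam C = 1 - g ∧
    ∀ D h, IsInt D → Mv D C h → 2 * (g : ℝ) ≤ II M D (pr C) →
      (finrank ℂ (WC D C h) : ℝ) = II M D (pr C) + 1 - g

/-- Sections on curves. Some divisor has positive degree on each curve. -/
def StmtWC : Prop := ∀ (K : Type) [Field K] [Algebra ℂ K] (M : Model K 2), Bas M →
  ∀ C : Crv M, (∃ D, IsInt D ∧ 0 < II M D (pr C)) → WCF M C

/-- The adjunction formula for smooth curves. -/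
def StmtADJ : Prop := ∀ (K : Type) [Field K] [Algebra ℂ K] (M : Model K 2), Bas M →
  ∀ (r : Fin 2 → K) (W : Dr M), IsInt W → IsK r W → ∀ C : Crv M, SmC C →
    ∀ g : ℕ, IsGenus ℂ (Rf C.1) g → II M (W + pr C) (pr C) = 2 * (g : ℝ) - 2

end Pool.Agent.MP_ee8c61_ag.M3C
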